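import Mathlib

set_option autoImplicit false

namespace Pool.Agent.U447.QKS

universe u
variable {V : Type u}

/-- independent set -/
def Indep (G : Digraph V) (A : Set V) : Prop := ∀ a ∈ A, ∀ b ∈ A, ¬ G.Adj a b

/-- `A` is a quasi-kernel of the subdigraph induced on `W` -/
def QK (G : Digraph V) (W A : Set V) : Prop :=
  A ⊆ W ∧ Indep G A ∧
    ∀ v ∈ W, v ∈ A ∨ ∃ a ∈ A, G.Adj a v ∨ ∃ u ∈ W, G.Adj a u ∧ G.Adj u v

/-- `B` is a quasi-sink of the subdigraph induced on `W` -/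
def QS (G : Digraph V) (W B : Set V) : Prop :=
  B ⊆ W ∧ Indep G B ∧
    ∀ v ∈ W, v ∈ B ∨ ∃ b ∈ B, G.Adj v b ∨ ∃ u ∈ W, G.Adj v u ∧ G.Adj u b

/-- the induced subdigraph on `X` satisfies the conclusion of the conjecture -/
def Solv (G : Digraph V) (X : Set V) : Prop :=
  ∃ W ⊆ X, (∃ A, QK G W A) ∧ ∃ B, QS G (X \ W) B

/-- reversed digraph -/
def rev (G : Digraph V) : Digraph V := ⟨fun a b => G.Adj b a⟩

theorem solv_rev {G : Digraph V} {X : Set V} (h : Solv (rev G) X) : Solv G X := by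
  obtain ⟨W, hWX, ⟨A, hA1, hA2, hA3⟩, ⟨B, hB1, hB2, hB3⟩⟩ := h
  refine ⟨X \ W, Set.sdiff_subset, ⟨B, hB1, fun a ha b hb h => hB2 b hb a ha h, ?_⟩,
    ⟨A, ?_, fun a ha b hb h => hA2 b hb a ha h, ?_⟩⟩
  · intro v hv
    rcases hB3 v hv with h | ⟨b, hb, h | ⟨u, hu, h1, h2⟩⟩
    · exact Or.inl h
    · exact Or.inr ⟨b, hb, Or.inl h⟩
    · exact Or.inr ⟨b, hb, Or.inr ⟨u, hu, h2, h1⟩⟩
  · rw [Set.sdiff_sdiff_cancel_left hWX]; exact hA1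
  · rw [Set.sdiff_sdiff_cancel_left hWX]
    intro v hv
    rcases hA3 v hv with h | ⟨b, hb, h | ⟨u, hu, h1, h2⟩⟩
    · exact Or.inl h
    · exact Or.inr ⟨b, hb, Or.inl h⟩
    · exact Or.inr ⟨b, hb, Or.inr ⟨u, hu, h2, h1⟩⟩

/-- every subset of `P` has a kernel (dominating version) -/
def KPout (G : Digraph V) (P : Set V) : Prop :=
  ∀ Q ⊆ P, ∃ K ⊆ Q, Indep G K ∧ ∀ v ∈ Q, v ∈ K ∨ ∃ a ∈ K, G.Adj a v

/-- every subset of `P` has a kernel (absorbing version) -/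
def KPin (G : Digraph V) (P : Set V) : Prop :=
  ∀ Q ⊆ P, ∃ K ⊆ Q, Indep G K ∧ ∀ v ∈ Q, v ∈ K ∨ ∃ a ∈ K, G.Adj v a

theorem reduce_out {G : Digraph V} {X P : Set V} (hPX : P ⊆ X) (hP : KPout G P)
    (h : Solv G {v | v ∈ X ∧ v ∉ P ∧ ∀ p ∈ P, ¬ G.Adj p v}) : Solv G X := by
  obtain ⟨W', hW', ⟨K', hK1, hK2, hK3⟩, ⟨B', hB1, hB2, hB3⟩⟩ := h
  obtain ⟨KQ, hKQ1, hKQ2, hKQ3⟩ := hP {p | p ∈ P ∧ ∀ k ∈ K', ¬ G.Adj k p} (fun p hp => hp.1)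
  set X' : Set V := {v | v ∈ X ∧ v ∉ P ∧ ∀ p ∈ P, ¬ G.Adj p v} with hX'
  have hXX : X' ⊆ X := fun v hv => hv.1
  have hdiff : X \ (W' ∪ (X \ X')) = X' \ W' := by
    ext v
    simp only [Set.mem_sdiff, Set.mem_union, not_or, not_and, not_not]
    constructor
    · rintro ⟨h1, h2, h3⟩; exact ⟨h3 h1, h2⟩
    · rintro ⟨h1, h2⟩; exact ⟨hXX h1, h2, fun _ => h1⟩
  have hPW : ∀ p ∈ P, p ∈ W' ∪ (X \ X') := fun p hp => Or.inr ⟨hPX hp, fun h => h.2.1 hp⟩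
  have hcovP : ∀ p ∈ P, p ∈ K' ∪ KQ ∨ ∃ a ∈ K' ∪ KQ, G.Adj a p := by
    intro p hp
    by_cases hq : ∀ k ∈ K', ¬ G.Adj k p
    · rcases hKQ3 p ⟨hp, hq⟩ with h | ⟨a, ha, h⟩
      · exact Or.inl (Or.inr h)
      · exact Or.inr ⟨a, Or.inr ha, h⟩
    · push Not at hq
      obtain ⟨k, hk, h⟩ := hq
      exact Or.inr ⟨k, Or.inl hk, h⟩
  refine ⟨W' ∪ (X \ X'), ?_, ⟨K' ∪ KQ, ?_, ?_, ?_⟩, ⟨B', ?_⟩⟩
  · rintro v (hv | hv)
    · exact hXX (hW' hv)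
    · exact hv.1
  · rintro v (hv | hv)
    · exact Or.inl (hK1 hv)
    · exact hPW v (hKQ1 hv).1
  · rintro a (ha | ha) b (hb | hb) hab
    · exact hK2 a ha b hb hab
    · exact (hKQ1 hb).2 a ha hab
    · exact (hW' (hK1 hb)).2.2 a (hKQ1 ha).1 hab
    · exact hKQ2 a ha b hb hab
  · rintro v (hv | hv)
    · rcases hK3 v hv with h | ⟨a, ha, h | ⟨u, hu, h1, h2⟩⟩
      · exact Or.inl (Or.inl h)
      · exact Or.inr ⟨a, Or.inl ha, Or.inl h⟩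
      · exact Or.inr ⟨a, Or.inl ha, Or.inr ⟨u, Or.inl hu, h1, h2⟩⟩
    · by_cases hvP : v ∈ P
      · rcases hcovP v hvP with h | ⟨a, ha, h⟩
        · exact Or.inl h
        · exact Or.inr ⟨a, ha, Or.inl h⟩
      · have : ∃ p ∈ P, G.Adj p v := by
          by_contra hcon
          push Not at hcon
          exact hv.2 ⟨hv.1, hvP, hcon⟩
        obtain ⟨p, hp, hpv⟩ := this
        rcases hcovP p hp with h | ⟨a, ha, h⟩
        · exact Or.inr ⟨p, h, Or.inl hpv⟩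
        · exact Or.inr ⟨a, ha, Or.inr ⟨p, hPW p hp, h, hpv⟩⟩
  · rw [hdiff]; exact ⟨hB1, hB2, hB3⟩

theorem reduce_in {G : Digraph V} {X P : Set V} (hPX : P ⊆ X) (hP : KPin G P)
    (h : Solv G {v | v ∈ X ∧ v ∉ P ∧ ∀ p ∈ P, ¬ G.Adj v p}) : Solv G X := by
  apply solv_rev
  refine reduce_out (G := rev G) hPX ?_ ?_
  · intro Q hQ
    obtain ⟨K, h1, h2, h3⟩ := hP Q hQ
    exact ⟨K, h1, fun a ha b hb h => h2 b hb a ha h, h3⟩
  · apply solv_rev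
    exact h

theorem exists_maxIndep {G : Digraph V} (hl : ∀ v, ¬ G.Adj v v) (X : Set V) :
    ∃ A ⊆ X, Indep G A ∧ ∀ v ∈ X, v ∉ A → ∃ a ∈ A, G.Adj a v ∨ G.Adj v a := by
  obtain ⟨A, hA⟩ := zorn_subset {A : Set V | A ⊆ X ∧ Indep G A} (by
    intro c hc hchain
    refine ⟨⋃₀ c, ⟨Set.sUnion_subset (fun s hs => (hc hs).1), ?_⟩,
      fun s hs => Set.subset_sUnion_of_mem hs⟩
    rintro a ⟨s, hs, has⟩ b ⟨t, ht, hbt⟩ hab
    rcases hchain.total hs ht with h | h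
    · exact (hc ht).2 a (h has) b hbt hab
    · exact (hc hs).2 a has b (h hbt) hab)
  refine ⟨A, hA.prop.1, hA.prop.2, ?_⟩
  intro v hv hvA
  by_contra hcon
  push Not at hcon
  have hin : insert v A ∈ {A : Set V | A ⊆ X ∧ Indep G A} := by
    refine ⟨Set.insert_subset hv hA.prop.1, ?_⟩
    rintro a (rfl | ha) b (rfl | hb) hab
    · exact hl _ hab
    · exact (hcon b hb).2 hab
    · exact (hcon a ha).1 hab
    · exact hA.prop.2 a ha b hb hab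
  exact hvA (hA.le_of_ge hin (Set.subset_insert v A) (Set.mem_insert v A))

/-- The main reduction step. -/
theorem step {G : Digraph V} (hl : ∀ v, ¬ G.Adj v v) {X : Set V} (h : ¬ Solv G X) :
    ∃ c ∈ X, ∃ a ∈ X, ∃ X' ⊆ X, ¬ Solv G X' ∧ G.Adj c a ∧ ¬ G.Adj a c ∧
      ∀ v ∈ X', ¬ G.Adj c v ∧ ¬ G.Adj v c ∧ ¬ G.Adj v a := by
  obtain ⟨A, hAX, hAi, hAm⟩ := exists_maxIndep hl X
  set Z : Set V := {v | v ∈ X ∧ v ∉ A ∧ (∀ a ∈ A, ¬ G.Adj a v) ∧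
    ∀ a ∈ A, ∀ u ∈ X, G.Adj a u → ¬ G.Adj u v} with hZ
  obtain ⟨C, hCZ, hCi, hCm⟩ := exists_maxIndep hl Z
  have hCne : C.Nonempty := by
    by_contra hC
    rw [Set.not_nonempty_iff_eq_empty] at hC
    apply h
    refine ⟨X, subset_rfl, ⟨A, hAX, hAi, ?_⟩, ⟨∅, ?_⟩⟩
    · intro v hv
      by_contra hcon
      push Not at hcon
      have hvZ : v ∈ Z := by
        refine ⟨hv, hcon.1, fun a ha => (hcon.2 a ha).1, fun a ha u hu h1 h2 => ?_⟩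
        exact (hcon.2 a ha).2 u hu h1 h2
      obtain ⟨a, ha, _⟩ := hCm v hvZ (by rw [hC]; exact fun h => h)
      rw [hC] at ha; exact ha
    · rw [Set.sdiff_self]
      exact ⟨subset_rfl, fun a ha => absurd ha (fun h => h), fun v hv => absurd hv (fun h => h)⟩
  obtain ⟨c, hc⟩ := hCne
  have hcZ := hCZ hc
  obtain ⟨a, ha, hac⟩ := hAm c hcZ.1 hcZ.2.1
  have hca : G.Adj c a := by
    rcases hac with h1 | h1
    · exact absurd h1 (hcZ.2.2.1 a ha)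
    · exact h1
  set X' : Set V := {v | v ∈ X ∧ v ∉ A ∧ (∀ a ∈ A, ¬ G.Adj v a) ∧ ∀ c ∈ C, ¬ G.Adj c v} with hX'
  have hY : ∀ v ∈ X, v ∉ A → (∀ a ∈ A, ¬ G.Adj v a) → ∃ a ∈ A, G.Adj a v := by
    intro v hv hvA hvn
    obtain ⟨a, ha, h1 | h1⟩ := hAm v hv hvA
    · exact ⟨a, ha, h1⟩
    · exact absurd h1 (hvn a ha)
  have hYC : ∀ v ∈ X, v ∉ A → (∀ a ∈ A, ¬ G.Adj v a) → ∀ c ∈ C, ¬ G.Adj v c := by
    intro v hv hvA hvn c hc hvc
    obtain ⟨a, ha, h1⟩ := hY v hv hvA hvn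
    exact (hCZ hc).2.2.2 a ha v hv h1 hvc
  refine ⟨c, hcZ.1, a, hAX ha, X', fun v hv => hv.1, ?_, hca, hcZ.2.2.1 a ha, ?_⟩
  · intro hS
    apply h
    obtain ⟨W', hW', ⟨K', hK1, hK2, hK3⟩, ⟨B', hB1, hB2, hB3⟩⟩ := hS
    set W : Set V := {v | v ∈ W' ∨ v ∈ C ∨ (v ∈ X ∧ v ∉ A ∧ (∀ a ∈ A, ¬ G.Adj v a) ∧
      ∃ c ∈ C, G.Adj c v)} with hW
    have hCA : ∀ c ∈ C, c ∉ A := fun c hc => (hCZ hc).2.1
    have hCout : ∀ c ∈ C, ∃ a ∈ A, G.Adj c a := by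
      intro c hc
      obtain ⟨a, ha, h1 | h1⟩ := hAm c (hCZ hc).1 (hCA c hc)
      · exact absurd h1 ((hCZ hc).2.2.1 a ha)
      · exact ⟨a, ha, h1⟩
    have hsub : X' \ W' ⊆ X \ W := by
      rintro v ⟨hv, hvW⟩
      refine ⟨hv.1, ?_⟩
      rintro (h1 | h1 | h1)
      · exact hvW h1
      · obtain ⟨a, ha, h2⟩ := hCout v h1
        exact hv.2.2.1 a ha h2
      · obtain ⟨c, hc, h2⟩ := h1.2.2.2
        exact hv.2.2.2 c hc h2
    have hAW : A ⊆ X \ W := by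
      intro a ha
      refine ⟨hAX ha, ?_⟩
      rintro (h1 | h1 | h1)
      · exact (hW' h1).2.1 ha
      · exact hCA a h1 ha
      · exact h1.2.1 ha
    have hcovA : ∀ a ∈ A, a ∈ B' ∪ {a | a ∈ A ∧ ∀ b ∈ B', ¬ G.Adj a b} ∨
        ∃ b ∈ B' ∪ {a | a ∈ A ∧ ∀ b ∈ B', ¬ G.Adj a b}, G.Adj a b := by
      intro a ha
      by_cases hq : ∀ b ∈ B', ¬ G.Adj a b
      · exact Or.inl (Or.inr ⟨ha, hq⟩)
      · push Not at hq
        obtain ⟨b, hb, h1⟩ := hq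
        exact Or.inr ⟨b, Or.inl hb, h1⟩
    refine ⟨W, ?_, ⟨K' ∪ C, ?_, ?_, ?_⟩, ⟨B' ∪ {a | a ∈ A ∧ ∀ b ∈ B', ¬ G.Adj a b}, ?_, ?_, ?_⟩⟩
    · rintro v (h1 | h1 | h1)
      · exact (hW' h1).1
      · exact (hCZ h1).1
      · exact h1.1
    · rintro v (h1 | h1)
      · exact Or.inl (hK1 h1)
      · exact Or.inr (Or.inl h1)
    · rintro x (hx | hx) y (hy | hy) hxy
      · exact hK2 x hx y hy hxy
      · have hx' := hW' (hK1 hx)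
        exact hYC x hx'.1 hx'.2.1 hx'.2.2.1 y hy hxy
      · exact (hW' (hK1 hy)).2.2.2 x hx hxy
      · exact hCi x hx y hy hxy
    · rintro v (h1 | h1 | h1)
      · rcases hK3 v h1 with h | ⟨a, ha, h | ⟨u, hu, h1, h2⟩⟩
        · exact Or.inl (Or.inl h)
        · exact Or.inr ⟨a, Or.inl ha, Or.inl h⟩
        · exact Or.inr ⟨a, Or.inl ha, Or.inr ⟨u, Or.inl hu, h1, h2⟩⟩
      · exact Or.inl (Or.inr h1)
      · obtain ⟨c, hc, h2⟩ := h1.2.2.2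
        exact Or.inr ⟨c, Or.inr hc, Or.inl h2⟩
    · rintro v (h1 | h1)
      · exact hsub (hB1 h1)
      · exact hAW h1.1
    · rintro x (hx | hx) y (hy | hy) hxy
      · exact hB2 x hx y hy hxy
      · exact (hB1 hx).1.2.2.1 y hy.1 hxy
      · exact hx.2 y hy hxy
      · exact hAi x hx.1 y hy.1 hxy
    · rintro v ⟨hvX, hvW⟩
      by_cases hvX' : v ∈ X'
      · have hvW' : v ∉ W' := fun h1 => hvW (Or.inl h1)
        rcases hB3 v ⟨hvX', hvW'⟩ with h | ⟨a, ha, h | ⟨u, hu, h1, h2⟩⟩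
        · exact Or.inl (Or.inl h)
        · exact Or.inr ⟨a, Or.inl ha, Or.inl h⟩
        · exact Or.inr ⟨a, Or.inl ha, Or.inr ⟨u, hsub hu, h1, h2⟩⟩
      · by_cases hvA : v ∈ A
        · rcases hcovA v hvA with h | ⟨b, hb, h⟩
          · exact Or.inl h
          · exact Or.inr ⟨b, hb, Or.inl h⟩
        · have : ∃ a ∈ A, G.Adj v a := by
            by_contra hcon
            push Not at hcon
            by_cases hcv : ∃ c ∈ C, G.Adj c v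
            · exact hvW (Or.inr (Or.inr ⟨hvX, hvA, hcon, hcv⟩))
            · push Not at hcv
              exact hvX' ⟨hvX, hvA, hcon, hcv⟩
          obtain ⟨a, ha, hva⟩ := this
          rcases hcovA a ha with h | ⟨b, hb, h⟩
          · exact Or.inr ⟨a, h, Or.inl hva⟩
          · exact Or.inr ⟨b, hb, Or.inr ⟨a, hAW ha, hva, h⟩⟩
  · intro v hv
    exact ⟨hv.2.2.2 c hc, hYC v hv.1 hv.2.1 hv.2.2.1 c hc, hv.2.2.1 a ha⟩

theorem step_dir {G : Digraph V} (hl : ∀ v, ¬ G.Adj v v) {D : V → V → Prop}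
    (hD : (∀ x y, D x y ↔ G.Adj x y) ∨ (∀ x y, D x y ↔ G.Adj y x)) {X : Set V}
    (h : ¬ Solv G X) :
    ∃ c ∈ X, ∃ a ∈ X, ∃ X' ⊆ X, ¬ Solv G X' ∧ D c a ∧ ¬ D a c ∧
      ∀ v ∈ X', ¬ G.Adj c v ∧ ¬ G.Adj v c ∧ ¬ D v a := by
  rcases hD with hD | hD
  · simp only [hD]
    exact step hl h
  · simp only [hD]
    have hl' : ∀ v, ¬ (rev G).Adj v v := hl
    have h' : ¬ Solv (rev G) X := fun h2 => h (solv_rev h2)
    obtain ⟨c, hc, a, ha, X', h1, h2, h3, h4, h5⟩ := step hl' h'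
    refine ⟨c, hc, a, ha, X', h1, fun h6 => h2 ?_, h3, h4, fun v hv => ?_⟩
    · exact solv_rev (G := rev G) h6
    · exact ⟨(h5 v hv).2.1, (h5 v hv).1, (h5 v hv).2.2⟩

/-- If `F` is not solvable, it contains the pattern. -/
theorem pattern {G : Digraph V} (hl : ∀ v, ¬ G.Adj v v) {F : Set V} (h : ¬ Solv G F)
    (D : ℕ → V → V → Prop)
    (hD : ∀ n, (∀ x y, D n x y ↔ G.Adj x y) ∨ (∀ x y, D n x y ↔ G.Adj y x)) :
    ∃ c a : ℕ → V, (∀ n, c n ∈ F ∧ a n ∈ F ∧ D n (c n) (a n) ∧ ¬ D n (a n) (c n)) ∧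
      ∀ n m, n < m → (¬ G.Adj (c n) (c m) ∧ ¬ G.Adj (c m) (c n)) ∧
        (¬ G.Adj (c n) (a m) ∧ ¬ G.Adj (a m) (c n)) ∧ ¬ D n (c m) (a n) ∧
        ¬ D n (a m) (a n) := by
  classical
  have hst : ∀ (n : ℕ) (X : {X : Set V // ¬ Solv G X}), ∃ c ∈ X.1, ∃ a ∈ X.1,
      ∃ X' : {X : Set V // ¬ Solv G X}, X'.1 ⊆ X.1 ∧ D n c a ∧ ¬ D n a c ∧
      ∀ v ∈ X'.1, ¬ G.Adj c v ∧ ¬ G.Adj v c ∧ ¬ D n v a := by
    rintro n ⟨X, hX⟩
    obtain ⟨c, hc, a, ha, X', h1, h2, h3⟩ := step_dir hl (hD n) hX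
    exact ⟨c, hc, a, ha, ⟨X', h2⟩, h1, h3⟩
  choose c hc a ha nxt hsub hca hac hv using hst
  let s : ℕ → {X : Set V // ¬ Solv G X} := fun n => Nat.rec ⟨F, h⟩ (fun k X => nxt k X) n
  have hs : ∀ n, s (n + 1) = nxt n (s n) := fun n => rfl
  have hmono : ∀ n k, (s (n + k)).1 ⊆ (s n).1 := by
    intro n k
    induction k with
    | zero => exact subset_rfl
    | succ k ih =>
      have : s (n + (k + 1)) = nxt (n + k) (s (n + k)) := hs (n + k)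
      rw [this]
      exact (hsub _ _).trans ih
  have hF : ∀ n, (s n).1 ⊆ F := fun n => by
    have := hmono 0 n
    rw [Nat.zero_add] at this
    exact this
  refine ⟨fun n => c n (s n), fun n => a n (s n),
    fun n => ⟨hF n (hc _ _), hF n (ha _ _), hca _ _, hac _ _⟩, ?_⟩
  intro n m hnm
  have hle : (s m).1 ⊆ (nxt n (s n)).1 := by
    have := hmono (n + 1) (m - (n + 1))
    rw [Nat.add_sub_cancel' hnm] at this
    rw [← hs n]; exact this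
  have h1 := hv n (s n) _ (hle (hc m (s m)))
  have h2 := hv n (s n) _ (hle (ha m (s m)))
  exact ⟨⟨h1.1, h1.2.1⟩, ⟨h2.1, h2.2.1⟩, h1.2.2, h2.2.2⟩

theorem solv_mono_pattern {G : Digraph V} (hl : ∀ v, ¬ G.Adj v v) {F : Set V}
    (D : ℕ → V → V → Prop)
    (hD : ∀ n, (∀ x y, D n x y ↔ G.Adj x y) ∨ (∀ x y, D n x y ↔ G.Adj y x))
    (hF : ¬ ∃ c a : ℕ → V, (∀ n, c n ∈ F ∧ a n ∈ F ∧ D n (c n) (a n) ∧ ¬ D n (a n) (c n)) ∧
      ∀ n m, n < m → (¬ G.Adj (c n) (c m) ∧ ¬ G.Adj (c m) (c n)) ∧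
        (¬ G.Adj (c n) (a m) ∧ ¬ G.Adj (a m) (c n)) ∧ ¬ D n (c m) (a n) ∧
        ¬ D n (a m) (a n)) (X : Set V) (hX : X ⊆ F) : Solv G X := by
  by_contra hcon
  obtain ⟨c, a, h1, h2⟩ := pattern hl hcon D hD
  exact hF ⟨c, a, fun n => ⟨hX (h1 n).1, hX (h1 n).2.1, (h1 n).2.2⟩, h2⟩

theorem main {G : Digraph V} (hl : ∀ v, ¬ G.Adj v v) {F : Set V}
    (D : ℕ → V → V → Prop)
    (hD : ∀ n, (∀ x y, D n x y ↔ G.Adj x y) ∨ (∀ x y, D n x y ↔ G.Adj y x))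
    (hF : ¬ ∃ c a : ℕ → V, (∀ n, c n ∈ F ∧ a n ∈ F ∧ D n (c n) (a n) ∧ ¬ D n (a n) (c n)) ∧
      ∀ n m, n < m → (¬ G.Adj (c n) (c m) ∧ ¬ G.Adj (c m) (c n)) ∧
        (¬ G.Adj (c n) (a m) ∧ ¬ G.Adj (a m) (c n)) ∧ ¬ D n (c m) (a n) ∧
        ¬ D n (a m) (a n)) :
    ∀ (k : ℕ) (P : Fin k → Set V), (∀ i, KPout G (P i) ∨ KPin G (P i)) →
      ∀ X : Set V, (∀ v ∈ X, v ∈ F ∨ ∃ i, v ∈ P i) → Solv G X := by
  intro k
  induction k with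
  | zero =>
    intro P _ X hX
    refine solv_mono_pattern hl D hD hF X (fun v hv => ?_)
    rcases hX v hv with h | ⟨i, _⟩
    · exact h
    · exact i.elim0
  | succ k ih =>
    intro P hP X hX
    have hcov : ∀ v ∈ X, v ∉ P 0 ∩ X → v ∈ F ∨ ∃ i : Fin k, v ∈ P i.succ := by
      intro v hv hv0
      rcases hX v hv with h | ⟨i, hi⟩
      · exact Or.inl h
      · rcases Fin.eq_zero_or_eq_succ i with rfl | ⟨j, rfl⟩
        · exact absurd ⟨hi, hv⟩ hv0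
        · exact Or.inr ⟨j, hi⟩
    rcases hP 0 with h | h
    · refine reduce_out (P := P 0 ∩ X) Set.inter_subset_right ?_ ?_
      · intro Q hQ
        exact h Q (hQ.trans Set.inter_subset_left)
      · exact ih (fun i => P i.succ) (fun i => hP i.succ) _ (fun v hv => hcov v hv.1 hv.2.1)
    · refine reduce_in (P := P 0 ∩ X) Set.inter_subset_right ?_ ?_
      · intro Q hQ
        exact h Q (hQ.trans Set.inter_subset_left)
      · exact ih (fun i => P i.succ) (fun i => hP i.succ) _ (fun v hv => hcov v hv.1 hv.2.1)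

end Pool.Agent.U447.QKS
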