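import Mathlib
import Pool.Agent.U447.QKS

set_option autoImplicit false

namespace Pool.Agent.U447.QKT

open Pool.Agent.U447.QKS

universe u
variable {V : Type u}

/-- closed partial solutions -/
structure Cl (G : Digraph V) (X : Set V) (R0 C R1 D : Set V) : Prop where
  s0 : R0 ⊆ X
  s1 : R1 ⊆ X
  dj : ∀ v ∈ R0, v ∉ R1
  qk : QK G R0 C
  qs : QS G R1 D
  cc : ∀ v ∈ X, v ∉ R0 → v ∉ R1 → ∀ c ∈ C, ¬ G.Adj c v ∧ ¬ G.Adj v c
  cd : ∀ v ∈ X, v ∉ R0 → v ∉ R1 → ∀ c ∈ D, ¬ G.Adj c v ∧ ¬ G.Adj v c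

theorem Cl.combine {G : Digraph V} {X R0 C R1 D R0' C' R1' D' : Set V}
    (h : Cl G X R0 C R1 D) (h' : Cl G (X \ (R0 ∪ R1)) R0' C' R1' D') :
    Cl G X (R0 ∪ R0') (C ∪ C') (R1 ∪ R1') (D ∪ D') := by
  have hY0 : ∀ v ∈ R0', v ∈ X ∧ v ∉ R0 ∧ v ∉ R1 := fun v hv =>
    ⟨(h'.s0 hv).1, fun h1 => (h'.s0 hv).2 (Or.inl h1), fun h1 => (h'.s0 hv).2 (Or.inr h1)⟩
  have hY1 : ∀ v ∈ R1', v ∈ X ∧ v ∉ R0 ∧ v ∉ R1 := fun v hv =>
    ⟨(h'.s1 hv).1, fun h1 => (h'.s1 hv).2 (Or.inl h1), fun h1 => (h'.s1 hv).2 (Or.inr h1)⟩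
  refine ⟨?_, ?_, ?_, ⟨?_, ?_, ?_⟩, ⟨?_, ?_, ?_⟩, ?_, ?_⟩
  · rintro v (hv | hv)
    · exact h.s0 hv
    · exact (hY0 v hv).1
  · rintro v (hv | hv)
    · exact h.s1 hv
    · exact (hY1 v hv).1
  · rintro v (hv | hv) (h1 | h1)
    · exact h.dj v hv h1
    · exact (hY1 v h1).2.1 hv
    · exact (hY0 v hv).2.2 h1
    · exact h'.dj v hv h1
  · exact Set.union_subset_union h.qk.1 h'.qk.1
  · rintro a (ha | ha) b (hb | hb) hab
    · exact h.qk.2.1 a ha b hb hab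
    · have := hY0 b (h'.qk.1 hb)
      exact (h.cc b this.1 this.2.1 this.2.2 a ha).1 hab
    · have := hY0 a (h'.qk.1 ha)
      exact (h.cc a this.1 this.2.1 this.2.2 b hb).2 hab
    · exact h'.qk.2.1 a ha b hb hab
  · rintro v (hv | hv)
    · rcases h.qk.2.2 v hv with h1 | ⟨a, ha, h1 | ⟨u, hu, h1, h2⟩⟩
      · exact Or.inl (Or.inl h1)
      · exact Or.inr ⟨a, Or.inl ha, Or.inl h1⟩
      · exact Or.inr ⟨a, Or.inl ha, Or.inr ⟨u, Or.inl hu, h1, h2⟩⟩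
    · rcases h'.qk.2.2 v hv with h1 | ⟨a, ha, h1 | ⟨u, hu, h1, h2⟩⟩
      · exact Or.inl (Or.inr h1)
      · exact Or.inr ⟨a, Or.inr ha, Or.inl h1⟩
      · exact Or.inr ⟨a, Or.inr ha, Or.inr ⟨u, Or.inr hu, h1, h2⟩⟩
  · exact Set.union_subset_union h.qs.1 h'.qs.1
  · rintro a (ha | ha) b (hb | hb) hab
    · exact h.qs.2.1 a ha b hb hab
    · have := hY1 b (h'.qs.1 hb)
      exact (h.cd b this.1 this.2.1 this.2.2 a ha).1 hab
    · have := hY1 a (h'.qs.1 ha)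
      exact (h.cd a this.1 this.2.1 this.2.2 b hb).2 hab
    · exact h'.qs.2.1 a ha b hb hab
  · rintro v (hv | hv)
    · rcases h.qs.2.2 v hv with h1 | ⟨a, ha, h1 | ⟨u, hu, h1, h2⟩⟩
      · exact Or.inl (Or.inl h1)
      · exact Or.inr ⟨a, Or.inl ha, Or.inl h1⟩
      · exact Or.inr ⟨a, Or.inl ha, Or.inr ⟨u, Or.inl hu, h1, h2⟩⟩
    · rcases h'.qs.2.2 v hv with h1 | ⟨a, ha, h1 | ⟨u, hu, h1, h2⟩⟩
      · exact Or.inl (Or.inr h1)
      · exact Or.inr ⟨a, Or.inr ha, Or.inl h1⟩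
      · exact Or.inr ⟨a, Or.inr ha, Or.inr ⟨u, Or.inr hu, h1, h2⟩⟩
  · intro v hv h0 h1 c hc
    have h00 : v ∉ R0 := fun h2 => h0 (Or.inl h2)
    have h10 : v ∉ R1 := fun h2 => h1 (Or.inl h2)
    rcases hc with hc | hc
    · exact h.cc v hv h00 h10 c hc
    · exact h'.cc v ⟨hv, fun h2 => h2.elim h00 h10⟩ (fun h2 => h0 (Or.inr h2))
        (fun h2 => h1 (Or.inr h2)) c hc
  · intro v hv h0 h1 c hc
    have h00 : v ∉ R0 := fun h2 => h0 (Or.inl h2)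
    have h10 : v ∉ R1 := fun h2 => h1 (Or.inl h2)
    rcases hc with hc | hc
    · exact h.cd v hv h00 h10 c hc
    · exact h'.cd v ⟨hv, fun h2 => h2.elim h00 h10⟩ (fun h2 => h0 (Or.inr h2))
        (fun h2 => h1 (Or.inr h2)) c hc

theorem cl_of_solv {G : Digraph V} {X : Set V} (h : Solv G X) :
    ∃ R0 C R1 D, Cl G X R0 C R1 D ∧ ∀ v ∈ X, v ∈ R0 ∨ v ∈ R1 := by
  obtain ⟨W, hW, ⟨A, hA⟩, ⟨B, hB⟩⟩ := h
  refine ⟨W, A, X \ W, B, ⟨hW, Set.sdiff_subset, fun v hv h => h.2 hv, hA, hB, ?_, ?_⟩, ?_⟩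
  · intro v hv h0 h1
    exact absurd ⟨hv, h0⟩ h1
  · intro v hv h0 h1
    exact absurd ⟨hv, h0⟩ h1
  · intro v hv
    by_cases h : v ∈ W
    · exact Or.inl h
    · exact Or.inr ⟨hv, h⟩

theorem solv_of_cl {G : Digraph V} {X R0 C R1 D : Set V} (h : Cl G X R0 C R1 D)
    (hall : ∀ v ∈ X, v ∈ R0 ∨ v ∈ R1) : Solv G X := by
  have : X \ R0 = R1 := by
    ext v
    constructor
    · rintro ⟨h1, h2⟩
      exact (hall v h1).resolve_left h2
    · intro hv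
      exact ⟨h.s1 hv, fun h0 => h.dj v h0 hv⟩
  refine ⟨R0, h.s0, ⟨C, h.qk⟩, ⟨D, ?_⟩⟩
  rw [this]; exact h.qs

/-- no nonempty closed partial solution -/
def Irr (G : Digraph V) (Y : Set V) : Prop :=
  ∀ R0 C R1 D, Cl G Y R0 C R1 D → C = ∅ ∧ D = ∅

theorem qk_empty {G : Digraph V} {R C : Set V} (h : QK G R C) (hC : C = ∅) : R = ∅ := by
  subst hC
  rw [Set.eq_empty_iff_forall_notMem]
  intro v hv
  rcases h.2.2 v hv with h1 | ⟨a, ha, _⟩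
  · exact h1
  · exact ha

theorem qs_empty {G : Digraph V} {R C : Set V} (h : QS G R C) (hC : C = ∅) : R = ∅ := by
  subst hC
  rw [Set.eq_empty_iff_forall_notMem]
  intro v hv
  rcases h.2.2 v hv with h1 | ⟨a, ha, _⟩
  · exact h1
  · exact ha

theorem exists_irr {G : Digraph V} {X : Set V} (h : ¬ Solv G X) :
    ∃ Y ⊆ X, ¬ Solv G Y ∧ Irr G Y := by
  have hz := zorn_le_nonempty₀ {p : Set V × Set V × Set V × Set V | Cl G X p.1 p.2.1 p.2.2.1 p.2.2.2}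
    (by
      intro c hc hchain y hy
      refine ⟨(⋃ p ∈ c, p.1, ⋃ p ∈ c, p.2.1, ⋃ p ∈ c, p.2.2.1, ⋃ p ∈ c, p.2.2.2), ?_, ?_⟩
      · refine ⟨?_, ?_, ?_, ⟨?_, ?_, ?_⟩, ⟨?_, ?_, ?_⟩, ?_, ?_⟩
        · exact Set.iUnion₂_subset fun p hp => (hc hp).s0
        · exact Set.iUnion₂_subset fun p hp => (hc hp).s1
        · intro v hv hv'
          simp only [Set.mem_iUnion] at hv hv'
          obtain ⟨p, hp, hvp⟩ := hv
          obtain ⟨q, hq, hvq⟩ := hv'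
          rcases hchain.total hp hq with hle | hle
          · exact (hc hq).dj v (hle.1 hvp) hvq
          · exact (hc hp).dj v hvp (hle.2.2.1 hvq)
        · exact Set.iUnion₂_mono fun p hp => (hc hp).qk.1
        · intro a ha b hb hab
          simp only [Set.mem_iUnion] at ha hb
          obtain ⟨p, hp, hap⟩ := ha
          obtain ⟨q, hq, hbq⟩ := hb
          rcases hchain.total hp hq with hle | hle
          · exact (hc hq).qk.2.1 a (hle.2.1 hap) b hbq hab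
          · exact (hc hp).qk.2.1 a hap b (hle.2.1 hbq) hab
        · intro v hv
          simp only [Set.mem_iUnion] at hv ⊢
          obtain ⟨p, hp, hvp⟩ := hv
          rcases (hc hp).qk.2.2 v hvp with h1 | ⟨a, ha, h1 | ⟨u, hu, h1, h2⟩⟩
          · exact Or.inl ⟨p, hp, h1⟩
          · exact Or.inr ⟨a, ⟨p, hp, ha⟩, Or.inl h1⟩
          · exact Or.inr ⟨a, ⟨p, hp, ha⟩, Or.inr ⟨u, ⟨p, hp, hu⟩, h1, h2⟩⟩
        · exact Set.iUnion₂_mono fun p hp => (hc hp).qs.1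
        · intro a ha b hb hab
          simp only [Set.mem_iUnion] at ha hb
          obtain ⟨p, hp, hap⟩ := ha
          obtain ⟨q, hq, hbq⟩ := hb
          rcases hchain.total hp hq with hle | hle
          · exact (hc hq).qs.2.1 a (hle.2.2.2 hap) b hbq hab
          · exact (hc hp).qs.2.1 a hap b (hle.2.2.2 hbq) hab
        · intro v hv
          simp only [Set.mem_iUnion] at hv ⊢
          obtain ⟨p, hp, hvp⟩ := hv
          rcases (hc hp).qs.2.2 v hvp with h1 | ⟨a, ha, h1 | ⟨u, hu, h1, h2⟩⟩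
          · exact Or.inl ⟨p, hp, h1⟩
          · exact Or.inr ⟨a, ⟨p, hp, ha⟩, Or.inl h1⟩
          · exact Or.inr ⟨a, ⟨p, hp, ha⟩, Or.inr ⟨u, ⟨p, hp, hu⟩, h1, h2⟩⟩
        · intro v hv h0 h1 a ha
          simp only [Set.mem_iUnion] at h0 h1 ha
          obtain ⟨p, hp, hap⟩ := ha
          exact (hc hp).cc v hv (fun h => h0 ⟨p, hp, h⟩) (fun h => h1 ⟨p, hp, h⟩) a hap
        · intro v hv h0 h1 a ha
          simp only [Set.mem_iUnion] at h0 h1 ha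
          obtain ⟨p, hp, hap⟩ := ha
          exact (hc hp).cd v hv (fun h => h0 ⟨p, hp, h⟩) (fun h => h1 ⟨p, hp, h⟩) a hap
      · intro p hp
        exact ⟨Set.subset_biUnion_of_mem (u := fun p : Set V × Set V × Set V × Set V => p.1) hp,
          Set.subset_biUnion_of_mem (u := fun p : Set V × Set V × Set V × Set V => p.2.1) hp,
          Set.subset_biUnion_of_mem (u := fun p : Set V × Set V × Set V × Set V => p.2.2.1) hp,
          Set.subset_biUnion_of_mem (u := fun p : Set V × Set V × Set V × Set V => p.2.2.2) hp⟩)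
    (∅, ∅, ∅, ∅) (by
      refine ⟨Set.empty_subset _, Set.empty_subset _, fun v hv => absurd hv (fun h => h),
        ⟨subset_rfl, fun a ha => absurd ha (fun h => h), fun v hv => absurd hv (fun h => h)⟩,
        ⟨subset_rfl, fun a ha => absurd ha (fun h => h), fun v hv => absurd hv (fun h => h)⟩,
        fun v _ _ _ c hc => absurd hc (fun h => h), fun v _ _ _ c hc => absurd hc (fun h => h)⟩)
  obtain ⟨⟨R0, C, R1, D⟩, _, hm⟩ := hz
  have hCl : Cl G X R0 C R1 D := hm.prop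
  refine ⟨X \ (R0 ∪ R1), Set.sdiff_subset, ?_, ?_⟩
  · intro hS
    obtain ⟨R0', C', R1', D', h1, h2⟩ := cl_of_solv hS
    apply h
    refine solv_of_cl (hCl.combine h1) ?_
    intro v hv
    by_cases h3 : v ∈ R0 ∪ R1
    · rcases h3 with h3 | h3
      · exact Or.inl (Or.inl h3)
      · exact Or.inr (Or.inl h3)
    · rcases h2 v ⟨hv, h3⟩ with h4 | h4
      · exact Or.inl (Or.inr h4)
      · exact Or.inr (Or.inr h4)
  · intro R0' C' R1' D' h1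
    have h2 := hm.le_of_ge (y := (R0 ∪ R0', C ∪ C', R1 ∪ R1', D ∪ D')) (hCl.combine h1)
      ⟨Set.subset_union_left, Set.subset_union_left, Set.subset_union_left,
        Set.subset_union_left⟩
    constructor
    · rw [Set.eq_empty_iff_forall_notMem]
      intro v hv
      have h3 : v ∈ C := h2.2.1 (Or.inr hv)
      exact (h1.s0 (h1.qk.1 hv)).2 (Or.inl (hCl.qk.1 h3))
    · rw [Set.eq_empty_iff_forall_notMem]
      intro v hv
      have h3 : v ∈ D := h2.2.2.2 (Or.inr hv)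
      exact (h1.s1 (h1.qs.1 hv)).2 (Or.inr (hCl.qs.1 h3))

/-- The main reduction step. -/
theorem step1 {G : Digraph V} (hl : ∀ v, ¬ G.Adj v v) {X : Set V} (h : ¬ Solv G X) :
    ∃ c ∈ X, ∃ a ∈ X, ∃ X' ⊆ X, ¬ Solv G X' ∧ G.Adj c a ∧ ¬ G.Adj a c ∧
      (∀ u ∈ X, G.Adj a u → ¬ G.Adj u c) ∧
      ∀ v ∈ X', ¬ G.Adj c v ∧ ¬ G.Adj v c ∧ ¬ G.Adj v a := by
  obtain ⟨A, hAX, hAi, hAm⟩ := exists_maxIndep hl X
  set Z : Set V := {v | v ∈ X ∧ v ∉ A ∧ (∀ a ∈ A, ¬ G.Adj a v) ∧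
    ∀ a ∈ A, ∀ u ∈ X, G.Adj a u → ¬ G.Adj u v} with hZ
  obtain ⟨C, hCZ, hCi, hCm⟩ := exists_maxIndep hl Z
  have hCne : C.Nonempty := by
    by_contra hC
    rw [Set.not_nonempty_iff_eq_empty] at hC
    apply h
    refine ⟨X, subset_rfl, ⟨A, hAX, hAi, ?_⟩, ⟨∅, ?_⟩⟩
    · intro v hv
      by_contra hcon
      push Not at hcon
      have hvZ : v ∈ Z := by
        refine ⟨hv, hcon.1, fun a ha => (hcon.2 a ha).1, fun a ha u hu h1 h2 => ?_⟩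
        exact (hcon.2 a ha).2 u hu h1 h2
      obtain ⟨a, ha, _⟩ := hCm v hvZ (by rw [hC]; exact fun h => h)
      rw [hC] at ha; exact ha
    · rw [Set.sdiff_self]
      exact ⟨subset_rfl, fun a ha => absurd ha (fun h => h), fun v hv => absurd hv (fun h => h)⟩
  obtain ⟨c, hc⟩ := hCne
  have hcZ := hCZ hc
  obtain ⟨a, ha, hac⟩ := hAm c hcZ.1 hcZ.2.1
  have hca : G.Adj c a := by
    rcases hac with h1 | h1
    · exact absurd h1 (hcZ.2.2.1 a ha)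
    · exact h1
  set X' : Set V := {v | v ∈ X ∧ v ∉ A ∧ (∀ a ∈ A, ¬ G.Adj v a) ∧ ∀ c ∈ C, ¬ G.Adj c v} with hX'
  have hY : ∀ v ∈ X, v ∉ A → (∀ a ∈ A, ¬ G.Adj v a) → ∃ a ∈ A, G.Adj a v := by
    intro v hv hvA hvn
    obtain ⟨a, ha, h1 | h1⟩ := hAm v hv hvA
    · exact ⟨a, ha, h1⟩
    · exact absurd h1 (hvn a ha)
  have hYC : ∀ v ∈ X, v ∉ A → (∀ a ∈ A, ¬ G.Adj v a) → ∀ c ∈ C, ¬ G.Adj v c := by
    intro v hv hvA hvn c hc hvc
    obtain ⟨a, ha, h1⟩ := hY v hv hvA hvn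
    exact (hCZ hc).2.2.2 a ha v hv h1 hvc
  refine ⟨c, hcZ.1, a, hAX ha, X', fun v hv => hv.1, ?_, hca, hcZ.2.2.1 a ha,
    fun u hu h1 h2 => hcZ.2.2.2 a ha u hu h1 h2, ?_⟩
  · intro hS
    apply h
    obtain ⟨W', hW', ⟨K', hK1, hK2, hK3⟩, ⟨B', hB1, hB2, hB3⟩⟩ := hS
    set W : Set V := {v | v ∈ W' ∨ v ∈ C ∨ (v ∈ X ∧ v ∉ A ∧ (∀ a ∈ A, ¬ G.Adj v a) ∧
      ∃ c ∈ C, G.Adj c v)} with hW
    have hCA : ∀ c ∈ C, c ∉ A := fun c hc => (hCZ hc).2.1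
    have hCout : ∀ c ∈ C, ∃ a ∈ A, G.Adj c a := by
      intro c hc
      obtain ⟨a, ha, h1 | h1⟩ := hAm c (hCZ hc).1 (hCA c hc)
      · exact absurd h1 ((hCZ hc).2.2.1 a ha)
      · exact ⟨a, ha, h1⟩
    have hsub : X' \ W' ⊆ X \ W := by
      rintro v ⟨hv, hvW⟩
      refine ⟨hv.1, ?_⟩
      rintro (h1 | h1 | h1)
      · exact hvW h1
      · obtain ⟨a, ha, h2⟩ := hCout v h1
        exact hv.2.2.1 a ha h2
      · obtain ⟨c, hc, h2⟩ := h1.2.2.2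
        exact hv.2.2.2 c hc h2
    have hAW : A ⊆ X \ W := by
      intro a ha
      refine ⟨hAX ha, ?_⟩
      rintro (h1 | h1 | h1)
      · exact (hW' h1).2.1 ha
      · exact hCA a h1 ha
      · exact h1.2.1 ha
    have hcovA : ∀ a ∈ A, a ∈ B' ∪ {a | a ∈ A ∧ ∀ b ∈ B', ¬ G.Adj a b} ∨
        ∃ b ∈ B' ∪ {a | a ∈ A ∧ ∀ b ∈ B', ¬ G.Adj a b}, G.Adj a b := by
      intro a ha
      by_cases hq : ∀ b ∈ B', ¬ G.Adj a b
      · exact Or.inl (Or.inr ⟨ha, hq⟩)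
      · push Not at hq
        obtain ⟨b, hb, h1⟩ := hq
        exact Or.inr ⟨b, Or.inl hb, h1⟩
    refine ⟨W, ?_, ⟨K' ∪ C, ?_, ?_, ?_⟩, ⟨B' ∪ {a | a ∈ A ∧ ∀ b ∈ B', ¬ G.Adj a b}, ?_, ?_, ?_⟩⟩
    · rintro v (h1 | h1 | h1)
      · exact (hW' h1).1
      · exact (hCZ h1).1
      · exact h1.1
    · rintro v (h1 | h1)
      · exact Or.inl (hK1 h1)
      · exact Or.inr (Or.inl h1)
    · rintro x (hx | hx) y (hy | hy) hxy
      · exact hK2 x hx y hy hxy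
      · have hx' := hW' (hK1 hx)
        exact hYC x hx'.1 hx'.2.1 hx'.2.2.1 y hy hxy
      · exact (hW' (hK1 hy)).2.2.2 x hx hxy
      · exact hCi x hx y hy hxy
    · rintro v (h1 | h1 | h1)
      · rcases hK3 v h1 with h | ⟨a, ha, h | ⟨u, hu, h1, h2⟩⟩
        · exact Or.inl (Or.inl h)
        · exact Or.inr ⟨a, Or.inl ha, Or.inl h⟩
        · exact Or.inr ⟨a, Or.inl ha, Or.inr ⟨u, Or.inl hu, h1, h2⟩⟩
      · exact Or.inl (Or.inr h1)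
      · obtain ⟨c, hc, h2⟩ := h1.2.2.2
        exact Or.inr ⟨c, Or.inr hc, Or.inl h2⟩
    · rintro v (h1 | h1)
      · exact hsub (hB1 h1)
      · exact hAW h1.1
    · rintro x (hx | hx) y (hy | hy) hxy
      · exact hB2 x hx y hy hxy
      · exact (hB1 hx).1.2.2.1 y hy.1 hxy
      · exact hx.2 y hy hxy
      · exact hAi x hx.1 y hy.1 hxy
    · rintro v ⟨hvX, hvW⟩
      by_cases hvX' : v ∈ X'
      · have hvW' : v ∉ W' := fun h1 => hvW (Or.inl h1)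
        rcases hB3 v ⟨hvX', hvW'⟩ with h | ⟨a, ha, h | ⟨u, hu, h1, h2⟩⟩
        · exact Or.inl (Or.inl h)
        · exact Or.inr ⟨a, Or.inl ha, Or.inl h⟩
        · exact Or.inr ⟨a, Or.inl ha, Or.inr ⟨u, hsub hu, h1, h2⟩⟩
      · by_cases hvA : v ∈ A
        · rcases hcovA v hvA with h | ⟨b, hb, h⟩
          · exact Or.inl h
          · exact Or.inr ⟨b, hb, Or.inl h⟩
        · have : ∃ a ∈ A, G.Adj v a := by
            by_contra hcon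
            push Not at hcon
            by_cases hcv : ∃ c ∈ C, G.Adj c v
            · exact hvW (Or.inr (Or.inr ⟨hvX, hvA, hcon, hcv⟩))
            · push Not at hcv
              exact hvX' ⟨hvX, hvA, hcon, hcv⟩
          obtain ⟨a, ha, hva⟩ := this
          rcases hcovA a ha with h | ⟨b, hb, h⟩
          · exact Or.inr ⟨a, h, Or.inl hva⟩
          · exact Or.inr ⟨b, hb, Or.inr ⟨a, hAW ha, hva, h⟩⟩
  · intro v hv
    exact ⟨hv.2.2.2 c hc, hYC v hv.1 hv.2.1 hv.2.2.1 c hc, hv.2.2.1 a ha⟩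


theorem step2 {G : Digraph V} (hl : ∀ v, ¬ G.Adj v v) {X : Set V} (h : ¬ Solv G X) :
    ∃ c ∈ X, ∃ a ∈ X, ∃ r ∈ X, ∃ X' ⊆ X, ¬ Solv G X' ∧ G.Adj c a ∧ ¬ G.Adj a c ∧
      ((G.Adj r c ∧ ¬ G.Adj c r ∧ ¬ G.Adj r a ∧ ¬ G.Adj a r) ∨
        (G.Adj a r ∧ ¬ G.Adj r a ∧ ¬ G.Adj r c ∧ ¬ G.Adj c r)) ∧
      ∀ v ∈ X', ¬ G.Adj c v ∧ ¬ G.Adj v c ∧ ¬ G.Adj v a := by
  obtain ⟨Y, hYX, hYS, hYI⟩ := exists_irr h
  obtain ⟨c, hc, a, ha, X', hX', h1, hca, hac, h2p, hv⟩ := step1 hl hYS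
  have hne : c ≠ a := fun h => hl a (by rw [h] at hca; exact hca)
  have hr : ∃ r ∈ Y, ((G.Adj r c ∧ ¬ G.Adj c r ∧ ¬ G.Adj r a ∧ ¬ G.Adj a r) ∨
        (G.Adj a r ∧ ¬ G.Adj r a ∧ ¬ G.Adj r c ∧ ¬ G.Adj c r)) := by
    by_contra hcon
    push Not at hcon
    have hfin : ∀ v ∈ Y, v ∉ {v | v ∈ Y ∧ v ≠ a ∧ (v = c ∨ G.Adj c v)} →
        v ∉ {v | v ∈ Y ∧ v ≠ c ∧ ¬ (v ≠ a ∧ G.Adj c v) ∧ (v = a ∨ G.Adj v a)} →
        (¬ G.Adj c v ∧ ¬ G.Adj v c) ∧ (¬ G.Adj a v ∧ ¬ G.Adj v a) := by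
      intro v hvY h3 h4
      have h5 : v ≠ a := by
        rintro rfl
        exact h4 ⟨hvY, hne.symm, fun h => h.1 rfl, Or.inl rfl⟩
      have h6 : v ≠ c := by
        rintro rfl
        exact h3 ⟨hvY, h5, Or.inl rfl⟩
      have h7 : ¬ G.Adj c v := fun h => h3 ⟨hvY, h5, Or.inr h⟩
      have h8 : ¬ G.Adj v a := fun h => h4 ⟨hvY, h6, fun h' => h7 h'.2, Or.inr h⟩
      have h9 : ¬ G.Adj v c := by
        intro h9
        exact h2p v hvY ((hcon v hvY).1 h9 h7 h8) h9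
      have h10 : ¬ G.Adj a v := by
        intro h10
        exact h7 ((hcon v hvY).2 h10 h8 h9)
      exact ⟨⟨h7, h9⟩, ⟨h10, h8⟩⟩
    have hCl : Cl G Y {v | v ∈ Y ∧ v ≠ a ∧ (v = c ∨ G.Adj c v)} {c}
        {v | v ∈ Y ∧ v ≠ c ∧ ¬ (v ≠ a ∧ G.Adj c v) ∧ (v = a ∨ G.Adj v a)} {a} := by
      refine ⟨fun v hv => hv.1, fun v hv => hv.1, ?_, ⟨?_, ?_, ?_⟩, ⟨?_, ?_, ?_⟩, ?_, ?_⟩
      · rintro v ⟨h3, h4, h5⟩ ⟨_, h6, h7, _⟩
        rcases h5 with h5 | h5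
        · exact h6 h5
        · exact h7 ⟨h4, h5⟩
      · rintro v rfl
        exact ⟨hc, hne, Or.inl rfl⟩
      · rintro x rfl y rfl
        exact hl _
      · rintro v ⟨h3, h4, h5⟩
        rcases h5 with h5 | h5
        · exact Or.inl h5
        · exact Or.inr ⟨c, rfl, Or.inl h5⟩
      · rintro v rfl
        exact ⟨ha, hne.symm, fun h => h.1 rfl, Or.inl rfl⟩
      · rintro x rfl y rfl
        exact hl _
      · rintro v ⟨h3, h4, h5, h6⟩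
        rcases h6 with h6 | h6
        · exact Or.inl h6
        · exact Or.inr ⟨a, rfl, Or.inl h6⟩
      · rintro v hvY h3 h4 x hx
        rw [Set.mem_singleton_iff] at hx
        rw [hx]
        exact (hfin v hvY h3 h4).1
      · rintro v hvY h3 h4 x hx
        rw [Set.mem_singleton_iff] at hx
        rw [hx]
        exact (hfin v hvY h3 h4).2
    have := (hYI _ _ _ _ hCl).1
    exact Set.singleton_ne_empty c this
  obtain ⟨r, hrY, hr⟩ := hr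
  exact ⟨c, hYX hc, a, hYX ha, r, hYX hrY, X', hX'.trans hYX, h1, hca, hac, hr, hv⟩

theorem step2_dir {G : Digraph V} (hl : ∀ v, ¬ G.Adj v v) {D : V → V → Prop}
    (hD : (∀ x y, D x y ↔ G.Adj x y) ∨ (∀ x y, D x y ↔ G.Adj y x)) {X : Set V}
    (h : ¬ Solv G X) :
    ∃ c ∈ X, ∃ a ∈ X, ∃ r ∈ X, ∃ X' ⊆ X, ¬ Solv G X' ∧ D c a ∧ ¬ D a c ∧
      ((D r c ∧ ¬ D c r ∧ ¬ D r a ∧ ¬ D a r) ∨ (D a r ∧ ¬ D r a ∧ ¬ D r c ∧ ¬ D c r)) ∧
      ∀ v ∈ X', ¬ G.Adj c v ∧ ¬ G.Adj v c ∧ ¬ D v a := by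
  rcases hD with hD | hD
  · simp only [hD]
    exact step2 hl h
  · simp only [hD]
    have hl' : ∀ v, ¬ (rev G).Adj v v := hl
    have h' : ¬ Solv (rev G) X := fun h2 => h (solv_rev h2)
    obtain ⟨c, hc, a, ha, r, hr, X', h1, h2, h3, h4, h5, h6⟩ := step2 hl' h'
    refine ⟨c, hc, a, ha, r, hr, X', h1, fun h7 => h2 ?_, h3, h4, h5, fun v hv => ?_⟩
    · exact solv_rev (G := rev G) h7
    · exact ⟨(h6 v hv).2.1, (h6 v hv).1, (h6 v hv).2.2⟩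

/-- the forbidden system -/
def Pat (G : Digraph V) (D : ℕ → V → V → Prop) (F : Set V) : Prop :=
  ∃ c a r : ℕ → V,
    (∀ n, c n ∈ F ∧ a n ∈ F ∧ r n ∈ F ∧ D n (c n) (a n) ∧ ¬ D n (a n) (c n) ∧
      ((D n (r n) (c n) ∧ ¬ D n (c n) (r n) ∧ ¬ D n (r n) (a n) ∧ ¬ D n (a n) (r n)) ∨
        (D n (a n) (r n) ∧ ¬ D n (r n) (a n) ∧ ¬ D n (r n) (c n) ∧ ¬ D n (c n) (r n)))) ∧
    ∀ n m, n < m → ∀ y, y = c m ∨ y = a m ∨ y = r m →
      ¬ G.Adj (c n) y ∧ ¬ G.Adj y (c n) ∧ ¬ D n y (a n)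

theorem pattern2 {G : Digraph V} (hl : ∀ v, ¬ G.Adj v v) {F : Set V} (h : ¬ Solv G F)
    (D : ℕ → V → V → Prop)
    (hD : ∀ n, (∀ x y, D n x y ↔ G.Adj x y) ∨ (∀ x y, D n x y ↔ G.Adj y x)) :
    Pat G D F := by
  classical
  have hst : ∀ (n : ℕ) (X : {X : Set V // ¬ Solv G X}), ∃ c ∈ X.1, ∃ a ∈ X.1, ∃ r ∈ X.1,
      ∃ X' : {X : Set V // ¬ Solv G X}, X'.1 ⊆ X.1 ∧ D n c a ∧ ¬ D n a c ∧
      ((D n r c ∧ ¬ D n c r ∧ ¬ D n r a ∧ ¬ D n a r) ∨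
        (D n a r ∧ ¬ D n r a ∧ ¬ D n r c ∧ ¬ D n c r)) ∧
      ∀ v ∈ X'.1, ¬ G.Adj c v ∧ ¬ G.Adj v c ∧ ¬ D n v a := by
    rintro n ⟨X, hX⟩
    obtain ⟨c, hc, a, ha, r, hr, X', h1, h2, h3⟩ := step2_dir hl (hD n) hX
    exact ⟨c, hc, a, ha, r, hr, ⟨X', h2⟩, h1, h3⟩
  choose c hc a ha r hr nxt hsub hca hac hrr hv using hst
  let s : ℕ → {X : Set V // ¬ Solv G X} := fun n => Nat.rec ⟨F, h⟩ (fun k X => nxt k X) n
  have hs : ∀ n, s (n + 1) = nxt n (s n) := fun n => rfl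
  have hmono : ∀ n k, (s (n + k)).1 ⊆ (s n).1 := by
    intro n k
    induction k with
    | zero => exact subset_rfl
    | succ k ih =>
      have : s (n + (k + 1)) = nxt (n + k) (s (n + k)) := hs (n + k)
      rw [this]
      exact (hsub _ _).trans ih
  have hF : ∀ n, (s n).1 ⊆ F := fun n => by
    have := hmono 0 n
    rw [Nat.zero_add] at this
    exact this
  refine ⟨fun n => c n (s n), fun n => a n (s n), fun n => r n (s n),
    fun n => ⟨hF n (hc _ _), hF n (ha _ _), hF n (hr _ _), hca _ _, hac _ _, hrr _ _⟩, ?_⟩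
  intro n m hnm y hy
  have hle : (s m).1 ⊆ (nxt n (s n)).1 := by
    have := hmono (n + 1) (m - (n + 1))
    rw [Nat.add_sub_cancel' hnm] at this
    rw [← hs n]; exact this
  have hym : y ∈ (s m).1 := by
    rcases hy with rfl | rfl | rfl
    · exact hc m (s m)
    · exact ha m (s m)
    · exact hr m (s m)
  exact hv n (s n) y (hle hym)

theorem Pat.mono {G : Digraph V} {D : ℕ → V → V → Prop} {X F : Set V} (hXF : X ⊆ F)
    (h : Pat G D X) : Pat G D F := by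
  obtain ⟨c, a, r, h1, h2⟩ := h
  exact ⟨c, a, r, fun n => ⟨hXF (h1 n).1, hXF (h1 n).2.1, hXF (h1 n).2.2.1, (h1 n).2.2.2⟩, h2⟩

/-- unions of pairwise non-adjacent sets without the system -/
theorem solv_union {G : Digraph V} (hl : ∀ v, ¬ G.Adj v v) {J : Type*} (F : J → Set V)
    (D : J → ℕ → V → V → Prop)
    (hD : ∀ j n, (∀ x y, D j n x y ↔ G.Adj x y) ∨ (∀ x y, D j n x y ↔ G.Adj y x))
    (hF : ∀ j, ¬ Pat G (D j) (F j))
    (hnon : ∀ i j, i ≠ j → ∀ x ∈ F i, ∀ y ∈ F j, ¬ G.Adj x y)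
    (X : Set V) (hX : ∀ v ∈ X, ∃ j, v ∈ F j) : Solv G X := by
  by_contra hcon
  obtain ⟨Y, hYX, hYS, hYI⟩ := exists_irr hcon
  have hYne : Y.Nonempty := by
    by_contra h
    rw [Set.not_nonempty_iff_eq_empty] at h
    apply hYS
    subst h
    refine ⟨∅, subset_rfl, ⟨∅, subset_rfl, fun a ha => absurd ha (fun h => h),
      fun v hv => absurd hv (fun h => h)⟩, ⟨∅, Set.empty_subset _,
      fun a ha => absurd ha (fun h => h), fun v hv => absurd hv.1 (fun h => h)⟩⟩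
  obtain ⟨v, hv⟩ := hYne
  obtain ⟨j, hj⟩ := hX v (hYX hv)
  have hS : Solv G (Y ∩ F j) := by
    by_contra h
    exact hF j ((pattern2 hl h (D j) (hD j)).mono Set.inter_subset_right)
  obtain ⟨R0, C, R1, B, hCl, hall⟩ := cl_of_solv hS
  have hCB : ∀ x ∈ Y, x ∉ R0 → x ∉ R1 → ∀ c ∈ F j, ¬ G.Adj c x ∧ ¬ G.Adj x c := by
    intro x hx h0 h1 c hc
    obtain ⟨i, hi⟩ := hX x (hYX hx)
    have hij : i ≠ j := by
      rintro rfl
      rcases hall x ⟨hx, hi⟩ with h | h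
      · exact h0 h
      · exact h1 h
    exact ⟨hnon j i hij.symm c hc x hi, hnon i j hij x hi c hc⟩
  have hCl' : Cl G Y R0 C R1 B :=
    ⟨hCl.s0.trans Set.inter_subset_left, hCl.s1.trans Set.inter_subset_left, hCl.dj, hCl.qk,
      hCl.qs, fun x hx h0 h1 c hc => hCB x hx h0 h1 c (hCl.s0 (hCl.qk.1 hc)).2,
      fun x hx h0 h1 c hc => hCB x hx h0 h1 c (hCl.s1 (hCl.qs.1 hc)).2⟩
  obtain ⟨h1, h2⟩ := hYI _ _ _ _ hCl'
  have h3 := qk_empty hCl.qk h1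
  have h4 := qs_empty hCl.qs h2
  rcases hall v ⟨hv, hj⟩ with h | h
  · rw [h3] at h; exact h
  · rw [h4] at h; exact h

theorem main2 {G : Digraph V} (hl : ∀ v, ¬ G.Adj v v) {J : Type*} (F : J → Set V)
    (D : J → ℕ → V → V → Prop)
    (hD : ∀ j n, (∀ x y, D j n x y ↔ G.Adj x y) ∨ (∀ x y, D j n x y ↔ G.Adj y x))
    (hF : ∀ j, ¬ Pat G (D j) (F j))
    (hnon : ∀ i j, i ≠ j → ∀ x ∈ F i, ∀ y ∈ F j, ¬ G.Adj x y) :
    ∀ (k : ℕ) (P : Fin k → Set V), (∀ i, KPout G (P i) ∨ KPin G (P i)) →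
      ∀ X : Set V, (∀ v ∈ X, (∃ j, v ∈ F j) ∨ ∃ i, v ∈ P i) → Solv G X := by
  intro k
  induction k with
  | zero =>
    intro P _ X hX
    refine solv_union hl F D hD hF hnon X (fun v hv => ?_)
    rcases hX v hv with h | ⟨i, _⟩
    · exact h
    · exact i.elim0
  | succ k ih =>
    intro P hP X hX
    have hcov : ∀ v ∈ X, v ∉ P 0 ∩ X → (∃ j, v ∈ F j) ∨ ∃ i : Fin k, v ∈ P i.succ := by
      intro v hv hv0
      rcases hX v hv with h | ⟨i, hi⟩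
      · exact Or.inl h
      · rcases Fin.eq_zero_or_eq_succ i with rfl | ⟨j, rfl⟩
        · exact absurd ⟨hi, hv⟩ hv0
        · exact Or.inr ⟨j, hi⟩
    rcases hP 0 with h | h
    · refine reduce_out (P := P 0 ∩ X) Set.inter_subset_right ?_ ?_
      · intro Q hQ
        exact h Q (hQ.trans Set.inter_subset_left)
      · exact ih (fun i => P i.succ) (fun i => hP i.succ) _ (fun v hv => hcov v hv.1 hv.2.1)
    · refine reduce_in (P := P 0 ∩ X) Set.inter_subset_right ?_ ?_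
      · intro Q hQ
        exact h Q (hQ.trans Set.inter_subset_left)
      · exact ih (fun i => P i.succ) (fun i => hP i.succ) _ (fun v hv => hcov v hv.1 hv.2.1)

end Pool.Agent.U447.QKT
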