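import Mathlib

/-! Matchings of a finite graph as involutions, and Gallai's lemma. -/

namespace U447.CD

open Finset

/-- `f` is a matching of the relation `K` inside `W`, given as an involution. -/
structure Mt (K : ℕ → ℕ → Prop) (W : Finset ℕ) (f : ℕ → ℕ) : Prop where
  inv : ∀ i, f (f i) = i
  adj : ∀ i, f i ≠ i → i ∈ W ∧ K i (f i)

/-- the number of covered points -/
def mv (W : Finset ℕ) (f : ℕ → ℕ) : ℕ := (W.filter (fun i => f i ≠ i)).card

theorem Mt.ne_iff {K : ℕ → ℕ → Prop} {W : Finset ℕ} {f : ℕ → ℕ} (h : Mt K W f) (i : ℕ) :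
    f (f i) ≠ f i ↔ f i ≠ i := by
  rw [h.inv]
  exact ⟨fun h1 h2 => h1 h2.symm, fun h1 h2 => h1 h2.symm⟩

theorem Mt.mem_f {K : ℕ → ℕ → Prop} {W : Finset ℕ} {f : ℕ → ℕ} (h : Mt K W f) {i : ℕ}
    (hi : f i ≠ i) : f i ∈ W := (h.adj (f i) ((h.ne_iff i).2 hi)).1

theorem mt_id (K : ℕ → ℕ → Prop) (W : Finset ℕ) : Mt K W (fun i => i) :=
  ⟨fun _ => rfl, fun _ h => absurd rfl h⟩

open Classical in
/-- the maximum number of covered points -/
noncomputable def nu (K : ℕ → ℕ → Prop) (W : Finset ℕ) : ℕ :=
  Nat.findGreatest (fun n => ∃ f, Mt K W f ∧ mv W f = n) W.card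

theorem mv_le (W : Finset ℕ) (f : ℕ → ℕ) : mv W f ≤ W.card := card_filter_le _ _

theorem nu_spec (K : ℕ → ℕ → Prop) (W : Finset ℕ) : ∃ f, Mt K W f ∧ mv W f = nu K W := by
  classical
  have h0 : ∃ f, Mt K W f ∧ mv W f = 0 :=
    ⟨_, mt_id K W, by simp [mv]⟩
  exact Nat.findGreatest_spec (P := fun n => ∃ f, Mt K W f ∧ mv W f = n) (Nat.zero_le _) h0

theorem le_nu {K : ℕ → ℕ → Prop} {W : Finset ℕ} {f : ℕ → ℕ} (h : Mt K W f) :
    mv W f ≤ nu K W := by
  classical
  exact Nat.le_findGreatest (P := fun n => ∃ f, Mt K W f ∧ mv W f = n) (mv_le W f) ⟨f, h, rfl⟩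

/-- covered points come in pairs -/
theorem mv_even {K : ℕ → ℕ → Prop} {W : Finset ℕ} {f : ℕ → ℕ} (h : Mt K W f) :
    mv W f = 2 * (W.filter (fun i => f i < i)).card := by
  have h1 : (W.filter (fun i => f i ≠ i)) =
      (W.filter (fun i => f i < i)) ∪ (W.filter (fun i => i < f i)) := by
    ext i
    simp only [mem_filter, mem_union]
    constructor
    · rintro ⟨hi, h2⟩
      rcases lt_or_gt_of_ne h2 with h3 | h3
      · exact Or.inl ⟨hi, h3⟩
      · exact Or.inr ⟨hi, h3⟩
    · rintro (⟨hi, h2⟩ | ⟨hi, h2⟩)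
      · exact ⟨hi, h2.ne⟩
      · exact ⟨hi, h2.ne'⟩
  have h2 : Disjoint (W.filter (fun i => f i < i)) (W.filter (fun i => i < f i)) := by
    rw [Finset.disjoint_left]
    intro i hi hj
    have a := (mem_filter.1 hi).2
    have b := (mem_filter.1 hj).2
    omega
  have h3 : (W.filter (fun i => i < f i)).card = (W.filter (fun i => f i < i)).card := by
    apply Finset.card_bij (fun i _ => f i)
    · intro i hi
      have a := (mem_filter.1 hi)
      refine mem_filter.2 ⟨h.mem_f a.2.ne', ?_⟩
      rw [h.inv]; exact a.2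
    · intro i _ j _ hij
      have := congrArg f hij
      rwa [h.inv, h.inv] at this
    · intro i hi
      have a := (mem_filter.1 hi)
      refine ⟨f i, mem_filter.2 ⟨h.mem_f a.2.ne, ?_⟩, h.inv i⟩
      rw [h.inv]; exact a.2
  unfold mv
  rw [h1, card_union_of_disjoint h2, h3]
  ring

theorem add_edge {K : ℕ → ℕ → Prop} (hK : ∀ i j, K i j → K j i) {W : Finset ℕ} {f : ℕ → ℕ}
    (h : Mt K W f) {x y : ℕ} (hxy : x ≠ y) (hx : x ∈ W) (hy : y ∈ W) (fx : f x = x) (fy : f y = y)
    (k : K x y) : mv W f + 2 ≤ nu K W := by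
  classical
  let g : ℕ → ℕ := fun i => if i = x then y else if i = y then x else f i
  have gx : g x = y := by simp [g]
  have gy : g y = x := by simp [g, hxy.symm]
  have go : ∀ i, i ≠ x → i ≠ y → g i = f i := by
    intro i h1 h2; simp [g, h1, h2]
  have hfo : ∀ i, i ≠ x → i ≠ y → f i ≠ x ∧ f i ≠ y := by
    intro i h1 h2
    constructor
    · intro h3; have := h.inv i; rw [h3, fx] at this; exact h1 this.symm
    · intro h3; have := h.inv i; rw [h3, fy] at this; exact h2 this.symm
  have hg : Mt K W g := by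
    constructor
    · intro i
      by_cases h1 : i = x
      · subst h1; rw [gx, gy]
      · by_cases h2 : i = y
        · subst h2; rw [gy, gx]
        · rw [go i h1 h2, go _ (hfo i h1 h2).1 (hfo i h1 h2).2, h.inv]
    · intro i hi
      by_cases h1 : i = x
      · subst h1; rw [gx]; exact ⟨hx, k⟩
      · by_cases h2 : i = y
        · subst h2; rw [gy]; exact ⟨hy, hK _ _ k⟩
        · rw [go i h1 h2] at hi ⊢
          exact h.adj i hi
  have hc : mv W g = mv W f + 2 := by
    unfold mv
    have : W.filter (fun i => g i ≠ i) = insert x (insert y (W.filter (fun i => f i ≠ i))) := by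
      ext i
      simp only [mem_filter, mem_insert]
      by_cases h1 : i = x
      · subst h1; simp [gx, hxy.symm, hx]
      · by_cases h2 : i = y
        · subst h2; simp [gy, hxy, hy]
        · simp [go i h1 h2, h1, h2]
    rw [this, card_insert_of_notMem, card_insert_of_notMem]
    · simp [fy]
    · simp [fx, hxy]
  rw [← hc]
  exact le_nu hg

/-- transitivity of never missed together (Gallai's lemma) -/
theorem trans_aux {K : ℕ → ℕ → Prop} (hK : ∀ i j, K i j → K j i) {W : Finset ℕ} {g : ℕ → ℕ}
    (hg : Mt K W g) (hgm : mv W g = nu K W) {u v w : ℕ} (huv : u ≠ v) (hu : u ∈ W) (hv : v ∈ W)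
    (gu : g u = u) (gv : g v = v)
    (H1 : ∀ f, Mt K W f → mv W f = nu K W → f w = w → f u ≠ u)
    (H2 : ∀ f, Mt K W f → mv W f = nu K W → f w = w → f v ≠ v) :
    ∀ n : ℕ, ∀ f, Mt K W f → mv W f = nu K W → f w = w →
      W.card - (W.filter (fun i => g i ≠ i ∧ f i = g i)).card = n → False := by
  classical
  intro n
  induction n using Nat.strong_induction_on with
  | _ n ih =>
  intro f hf hfm fw hn
  have fu := H1 f hf hfm fw
  have fv := H2 f hf hfm fw
  set A := W.filter (fun i => f i ≠ i) with hA
  set B := W.filter (fun i => g i ≠ i) with hB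
  have hAB : A.card = B.card := by
    have : mv W f = mv W g := by rw [hfm, hgm]
    exact this
  have hsub : ({u, v} : Finset ℕ) ⊆ A \ B := by
    intro i hi
    simp only [mem_insert, mem_singleton] at hi
    rcases hi with rfl | rfl
    · simp [hA, hB, hu, fu, gu]
    · simp [hA, hB, hv, fv, gv]
  have h2 : 2 ≤ (A \ B).card := by
    have := card_le_card hsub
    rwa [card_pair huv] at this
  have h3 : 2 ≤ (B \ A).card := by
    have e1 := card_sdiff_add_card_inter A B
    have e2 := card_sdiff_add_card_inter B A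
    rw [inter_comm B A] at e2
    omega
  obtain ⟨x, hx, hxw⟩ : ∃ x ∈ B \ A, x ≠ w := by
    by_contra hcon
    push Not at hcon
    have : (B \ A) ⊆ {w} := fun i hi => mem_singleton.2 (hcon i hi)
    have := card_le_card this
    simp at this
    omega
  rw [mem_sdiff] at hx
  have hxW : x ∈ W := (mem_filter.1 hx.1).1
  have gx : g x ≠ x := (mem_filter.1 hx.1).2
  have fx : f x = x := by
    by_contra hcon
    exact hx.2 (mem_filter.2 ⟨hxW, hcon⟩)
  set y := g x with hy
  have hyW : y ∈ W := hg.mem_f gx
  have kxy : K x y := (hg.adj x gx).2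
  have fy : f y ≠ y := by
    intro hcon
    have := add_edge hK hf (Ne.symm gx) hxW hyW fx hcon kxy
    omega
  set z := f y with hz
  have hzx : z ≠ x := by
    intro hcon
    have h5 := hf.inv y
    rw [← hz, hcon, fx] at h5
    exact gx h5.symm
  have hzW : z ∈ W := hf.mem_f fy
  have fz : f z = y := hf.inv y
  have gy : g y = x := hg.inv x
  let f' : ℕ → ℕ := fun i => if i = x then y else if i = y then x else if i = z then z else f i
  have f'x : f' x = y := by simp [f']
  have f'y : f' y = x := by simp [f', gx]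
  have f'z : f' z = z := by
    have : z ≠ y := fy
    simp [f', hzx, this]
  have f'o : ∀ i, i ≠ x → i ≠ y → i ≠ z → f' i = f i := by
    intro i a b c; simp [f', a, b, c]
  have hfo : ∀ i, i ≠ x → i ≠ y → i ≠ z → f i ≠ x ∧ f i ≠ y ∧ f i ≠ z := by
    intro i a b c
    refine ⟨?_, ?_, ?_⟩
    · intro h5; have := hf.inv i; rw [h5, fx] at this; exact a this.symm
    · intro h5; have := hf.inv i; rw [h5] at this; exact c this.symm
    · intro h5; have := hf.inv i; rw [h5, fz] at this; exact b this.symm
  have hf' : Mt K W f' := by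
    constructor
    · intro i
      by_cases a : i = x
      · subst a; rw [f'x, f'y]
      by_cases b : i = y
      · rw [b, f'y, f'x]
      by_cases c : i = z
      · rw [c, f'z, f'z]
      rw [f'o i a b c, f'o _ (hfo i a b c).1 (hfo i a b c).2.1 (hfo i a b c).2.2, hf.inv]
    · intro i hi
      by_cases a : i = x
      · subst a; rw [f'x]; exact ⟨hxW, kxy⟩
      by_cases b : i = y
      · rw [b, f'y]; exact ⟨hyW, hK _ _ kxy⟩
      by_cases c : i = z
      · rw [c, f'z] at hi; exact absurd rfl hi
      rw [f'o i a b c] at hi ⊢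
      exact hf.adj i hi
  have hmv' : mv W f' = mv W f := by
    unfold mv
    have e : W.filter (fun i => f' i ≠ i) = insert x ((W.filter (fun i => f i ≠ i)).erase z) := by
      ext i
      simp only [mem_filter, mem_insert, mem_erase]
      by_cases a : i = x
      · subst a; simp [f'x, gx, hxW]
      by_cases b : i = y
      · rw [b]; simp only [f'y]
        constructor
        · intro _; right; exact ⟨Ne.symm fy, hyW, fy⟩
        · intro _; exact ⟨hyW, Ne.symm gx⟩
      by_cases c : i = z
      · rw [c, f'z]; simp [hzx]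
      · rw [f'o i a b c]; simp [a, c]
    rw [e, card_insert_of_notMem, card_erase_of_mem]
    · have : 0 < (W.filter (fun i => f i ≠ i)).card := card_pos.2 ⟨z, by
        simp only [mem_filter]; exact ⟨hzW, by rw [fz]; exact Ne.symm fy⟩⟩
      omega
    · simp only [mem_filter]; exact ⟨hzW, by rw [fz]; exact Ne.symm fy⟩
    · simp [fx]
  have f'w : f' w = w := by
    by_cases b : w = y
    · exfalso; rw [b] at fw; exact fy fw
    by_cases c : w = z
    · rw [c, f'z]
    rw [f'o w (Ne.symm hxw) b c, fw]
  have hlt : (W.filter (fun i => g i ≠ i ∧ f i = g i)).card <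
      (W.filter (fun i => g i ≠ i ∧ f' i = g i)).card := by
    apply card_lt_card
    rw [Finset.ssubset_iff_of_subset]
    · refine ⟨x, mem_filter.2 ⟨hxW, gx, f'x⟩, ?_⟩
      intro hcon
      have := (mem_filter.1 hcon).2.2
      rw [fx] at this
      exact gx this.symm
    · intro i hi
      obtain ⟨a1, a2, a3⟩ := mem_filter.1 hi
      refine mem_filter.2 ⟨a1, a2, ?_⟩
      by_cases a : i = x
      · subst a; exact f'x
      by_cases b : i = y
      · rw [b, f'y, gy]
      by_cases c : i = z
      · exfalso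
        rw [c, fz] at a3
        have h6 := hg.inv z
        rw [← a3, gy] at h6
        exact hzx h6.symm
      rw [f'o i a b c]; exact a3
  have hle : (W.filter (fun i => g i ≠ i ∧ f' i = g i)).card ≤ W.card := card_filter_le _ _
  exact ih (W.card - (W.filter (fun i => g i ≠ i ∧ f' i = g i)).card) (by omega) f' hf'
    (hmv'.trans hfm) f'w rfl

end U447.CD
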