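import Mathlib
import Pool.Agent.U447.CDM

/-! Colourings of vertex subsets; the main induction. -/

namespace U447.CD

open Finset

set_option linter.unusedSectionVars false

variable {V : Type*} [Fintype V] [DecidableEq V]

/-- the subgraph induced on `S` has a proper colouring with at most `n` colours -/
def CC (G : SimpleGraph V) (S : Finset V) (n : ℕ) : Prop :=
  ∃ c : V → ℕ, (∀ u ∈ S, ∀ v ∈ S, G.Adj u v → c u ≠ c v) ∧ (S.image c).card ≤ n

theorem CC.mono {G : SimpleGraph V} {S S' : Finset V} {n m : ℕ} (h : CC G S' n) (hS : S ⊆ S')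
    (hn : n ≤ m) : CC G S m := by
  obtain ⟨c, h1, h2⟩ := h
  exact ⟨c, fun u hu v hv => h1 u (hS hu) v (hS hv),
    (card_le_card (image_subset_image hS)).trans (h2.trans hn)⟩

theorem CC.union {G : SimpleGraph V} {S S' : Finset V} {n m : ℕ} (h : CC G S n) (h' : CC G S' m) :
    CC G (S ∪ S') (n + m) := by
  classical
  obtain ⟨c, h1, h2⟩ := h
  obtain ⟨c', h1', h2'⟩ := h'
  refine ⟨fun v => if v ∈ S then 2 * c v else 2 * c' v + 1, ?_, ?_⟩
  · intro u hu v hv huv
    by_cases a : u ∈ S
    · by_cases b : v ∈ S
      · simp only [a, b, if_true]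
        have := h1 u a v b huv
        omega
      · simp only [a, b, if_true, if_false]; omega
    · by_cases b : v ∈ S
      · simp only [a, b, if_true, if_false]; omega
      · simp only [a, b, if_false]
        have hu' : u ∈ S' := by
          rcases mem_union.1 hu with h | h
          · exact absurd h a
          · exact h
        have hv' : v ∈ S' := by
          rcases mem_union.1 hv with h | h
          · exact absurd h b
          · exact h
        have := h1' u hu' v hv' huv
        omega
  · have : (S ∪ S').image (fun v => if v ∈ S then 2 * c v else 2 * c' v + 1) ⊆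
        (S.image c).image (fun i => 2 * i) ∪ (S'.image c').image (fun i => 2 * i + 1) := by
      intro i hi
      obtain ⟨v, hv, rfl⟩ := mem_image.1 hi
      by_cases a : v ∈ S
      · simp only [a, if_true]
        exact mem_union_left _ (mem_image.2 ⟨c v, mem_image.2 ⟨v, a, rfl⟩, rfl⟩)
      · have hv' : v ∈ S' := by
          rcases mem_union.1 hv with h | h
          · exact absurd h a
          · exact h
        simp only [a, if_false]
        exact mem_union_right _ (mem_image.2 ⟨c' v, mem_image.2 ⟨v, hv', rfl⟩, rfl⟩)
    have h3 := card_le_card this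
    have h4 := card_union_le ((S.image c).image (fun i => 2 * i))
      ((S'.image c').image (fun i => 2 * i + 1))
    have h5 : ((S.image c).image (fun i => 2 * i)).card ≤ (S.image c).card := card_image_le
    have h6 : ((S'.image c').image (fun i => 2 * i + 1)).card ≤ (S'.image c').card := card_image_le
    omega

theorem CC_card (G : SimpleGraph V) (S : Finset V) : ∃ n, CC G S n := by
  obtain ⟨e⟩ := Fintype.truncEquivFin V |>.nonempty
  refine ⟨(S.image (fun v => (e v : ℕ))).card, fun v => (e v : ℕ), ?_, le_rfl⟩
  intro u _ v _ huv h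
  have : e u = e v := Fin.ext h
  exact huv.ne (e.injective this)

theorem CC_empty (G : SimpleGraph V) (n : ℕ) : CC G ∅ n := ⟨fun _ => 0, by simp, by simp⟩

open Classical in
/-- the chromatic number of the subgraph induced on `S` -/
noncomputable def chi (G : SimpleGraph V) (S : Finset V) : ℕ := Nat.find (CC_card G S)

theorem chi_spec (G : SimpleGraph V) (S : Finset V) : CC G S (chi G S) := by
  classical
  exact Nat.find_spec (CC_card G S)

theorem chi_le {G : SimpleGraph V} {S : Finset V} {n : ℕ} (h : CC G S n) : chi G S ≤ n := by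
  classical
  exact Nat.find_min' _ h

theorem chi_union (G : SimpleGraph V) (S S' : Finset V) :
    chi G (S ∪ S') ≤ chi G S + chi G S' := chi_le ((chi_spec G S).union (chi_spec G S'))

theorem chi_mono (G : SimpleGraph V) {S S' : Finset V} (h : S ⊆ S') : chi G S ≤ chi G S' :=
  chi_le ((chi_spec G S').mono h le_rfl)

/-- in a join, the parts use disjoint sets of colours -/
theorem join_split {G : SimpleGraph V} {S1 S2 : Finset V} {s : ℕ}
    (hj : ∀ u ∈ S1, ∀ v ∈ S2, G.Adj u v) (h : CC G (S1 ∪ S2) s) :
    CC G S1 (s - chi G S2) ∧ chi G S1 + chi G S2 ≤ s := by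
  obtain ⟨c, h1, h2⟩ := h
  have hd : Disjoint (S1.image c) (S2.image c) := by
    rw [Finset.disjoint_left]
    intro i hi hi'
    obtain ⟨u, hu, rfl⟩ := mem_image.1 hi
    obtain ⟨v, hv, h3⟩ := mem_image.1 hi'
    exact h1 u (mem_union_left _ hu) v (mem_union_right _ hv) (hj u hu v hv) h3.symm
  have h3 : (S1.image c).card + (S2.image c).card ≤ s := by
    rw [← card_union_of_disjoint hd, ← image_union]; exact h2
  have h4 : chi G S2 ≤ (S2.image c).card :=
    chi_le ⟨c, fun u hu v hv => h1 u (mem_union_right _ hu) v (mem_union_right _ hv), le_rfl⟩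
  have h5 : CC G S1 (S1.image c).card :=
    ⟨c, fun u hu v hv => h1 u (mem_union_left _ hu) v (mem_union_left _ hv), le_rfl⟩
  exact ⟨h5.mono subset_rfl (by omega), by have := chi_le h5; omega⟩

theorem chi_pos {G : SimpleGraph V} {S : Finset V} (h : S.Nonempty) : 1 ≤ chi G S := by
  by_contra hcon
  have h0 : chi G S = 0 := by omega
  obtain ⟨c, _, h2⟩ := chi_spec G S
  rw [h0] at h2
  obtain ⟨v, hv⟩ := h
  have : c v ∈ S.image c := mem_image.2 ⟨v, hv, rfl⟩
  have h3 : (S.image c) = ∅ := card_eq_zero.1 (by omega)
  rw [h3] at this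
  simp at this

/-- the vertices with colour in `W` -/
def X (σ : V → ℕ) (W : Finset ℕ) : Finset V := univ.filter (fun v => σ v ∈ W)

theorem mem_X {σ : V → ℕ} {W : Finset ℕ} {v : V} : v ∈ X σ W ↔ σ v ∈ W := by simp [X]

/-- local colourability inside the colour set `W` -/
def Loc (G : SimpleGraph V) (σ : V → ℕ) (W : Finset ℕ) (s : ℕ) : Prop :=
  ∀ v ∈ X σ W, ∀ S ⊆ X σ W, (∀ u ∈ S, u = v ∨ G.Adj v u) → CC G S s

theorem Loc_mono {G : SimpleGraph V} {σ : V → ℕ} {W W' : Finset ℕ} {s : ℕ} (h : Loc G σ W s)
    (hW : W' ⊆ W) : Loc G σ W' s := by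
  intro v hv S hS hSv
  exact h v (mem_X.2 (hW (mem_X.1 hv))) S (fun u hu => mem_X.2 (hW (mem_X.1 (hS hu)))) hSv

/-- two colour classes are compatible if they contain nonadjacent vertices -/
def Kp (G : SimpleGraph V) (σ : V → ℕ) (i j : ℕ) : Prop :=
  i ≠ j ∧ ∃ u v, σ u = i ∧ σ v = j ∧ ¬ G.Adj u v

theorem Kp_symm (G : SimpleGraph V) (σ : V → ℕ) (i j : ℕ) (h : Kp G σ i j) : Kp G σ j i := by
  obtain ⟨h1, u, v, h2, h3, h4⟩ := h
  exact ⟨h1.symm, v, u, h3, h2, fun h => h4 h.symm⟩

theorem chi_le_card {G : SimpleGraph V} {σ : V → ℕ} (hσ : ∀ u v, G.Adj u v → σ u ≠ σ v)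
    (W : Finset ℕ) : chi G (X σ W) ≤ W.card := by
  apply chi_le
  refine ⟨σ, fun u _ v _ => hσ u v, card_le_card ?_⟩
  intro i hi
  obtain ⟨v, hv, rfl⟩ := mem_image.1 hi
  exact mem_X.1 hv

theorem X_union (σ : V → ℕ) (W W' : Finset ℕ) : X σ (W ∪ W') = X σ W ∪ X σ W' := by
  ext v; simp [mem_X]

/-- **Main induction.** -/
theorem main {G : SimpleGraph V} {σ : V → ℕ} (hσ : ∀ u v, G.Adj u v → σ u ≠ σ v) :
    ∀ n : ℕ, ∀ W : Finset ℕ, W.card = n → (∀ i ∈ W, ∃ v, σ v = i) → ∀ s, Loc G σ W s →
      W.card ≤ nu (Kp G σ) W + 1 ∨ 2 * chi G (X σ W) ≤ 2 * s + nu (Kp G σ) W := by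
  classical
  intro n
  induction n using Nat.strong_induction_on with
  | _ n ih =>
  intro W hWn hW s hs
  set K := Kp G σ with hK
  have hKs : ∀ i j, K i j → K j i := Kp_symm G σ
  by_cases hcov : ∃ v ∈ W, ∀ f, Mt K W f → mv W f = nu K W → f v ≠ v
  · obtain ⟨v, hv, hcov⟩ := hcov
    have hc : (W.erase v).card < n := by
      rw [card_erase_of_mem hv]
      have : 0 < W.card := card_pos.2 ⟨v, hv⟩
      omega
    have hc' : (W.erase v).card + 1 = W.card := card_erase_add_one hv
    -- matchings of the smaller set
    have hext : ∀ f, Mt K (W.erase v) f → Mt K W f ∧ mv W f = mv (W.erase v) f ∧ f v = v := by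
      intro f hf
      have fv : f v = v := by
        by_contra hcon
        have := (hf.adj v hcon).1
        simp at this
      refine ⟨⟨hf.inv, fun i hi => ⟨(mem_of_mem_erase (hf.adj i hi).1), (hf.adj i hi).2⟩⟩, ?_, fv⟩
      unfold mv
      congr 1
      ext i
      simp only [mem_filter, mem_erase]
      constructor
      · rintro ⟨h1, h2⟩
        exact ⟨⟨fun h => by rw [h] at h2; exact h2 fv, h1⟩, h2⟩
      · rintro ⟨⟨_, h1⟩, h2⟩
        exact ⟨h1, h2⟩
    obtain ⟨f, hf, hfm⟩ := nu_spec K (W.erase v)
    obtain ⟨hf1, hf2, hf3⟩ := hext f hf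
    have hle := le_nu hf1
    have hne : mv W f ≠ nu K W := fun h => hcov f hf1 h hf3
    obtain ⟨g, hg, hgm⟩ := nu_spec K W
    have ev1 := mv_even hg
    have ev2 := mv_even hf
    have hstep : nu K (W.erase v) + 2 ≤ nu K W := by omega
    have hX : chi G (X σ W) ≤ chi G (X σ (W.erase v)) + 1 := by
      have e : X σ W = X σ (W.erase v) ∪ X σ {v} := by
        rw [← X_union]
        congr 1
        ext i
        simp only [mem_union, mem_erase, mem_singleton]
        by_cases h : i = v
        · simp [h, hv]
        · simp [h]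
      rw [e]
      refine (chi_union _ _ _).trans ?_
      have := chi_le_card hσ {v}
      simp at this
      omega
    rcases ih _ hc (W.erase v) rfl (fun i hi => hW i (mem_of_mem_erase hi)) s
      (Loc_mono hs (erase_subset _ _)) with h | h
    · left; omega
    · right; omega
  · push Not at hcov
    by_cases hWe : W = ∅
    · left; rw [hWe]; simp
    obtain ⟨a, ha⟩ := nonempty_iff_ne_empty.2 hWe
    -- never missed together
    let R : ℕ → ℕ → Prop := fun u v => ∀ f, Mt K W f → mv W f = nu K W → f u = u → f v ≠ v
    have Rs : ∀ u v, R u v → R v u := fun u v h f h1 h2 h3 h4 => h f h1 h2 h4 h3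
    have Rt : ∀ u v w, u ∈ W → v ∈ W → w ∈ W → u ≠ v → R u w → R w v → R u v := by
      intro u v w hu hv hw huv h1 h2 g hg hgm gu gv
      obtain ⟨f, hf, hfm, fw⟩ := hcov w hw
      exact trans_aux hKs hg hgm huv hu hv gu gv (fun f h3 h4 h5 => Rs _ _ h1 f h3 h4 h5)
        (fun f h3 h4 h5 => h2 f h3 h4 h5) _ f hf hfm fw rfl
    have Radj : ∀ u v, u ∈ W → v ∈ W → K u v → R u v := by
      intro u v hu hv huv f hf hfm fu fv
      have := add_edge hKs hf huv.1 hu hv fu fv huv
      omega
    set W1 := W.filter (fun x => x = a ∨ R x a) with hW1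
    set W2 := W.filter (fun x => ¬ (x = a ∨ R x a)) with hW2
    have hunion : W1 ∪ W2 = W := by
      ext i
      simp only [hW1, hW2, mem_union, mem_filter]
      tauto
    have hdisj : Disjoint W1 W2 := by
      rw [Finset.disjoint_left]
      intro i h1 h2
      exact (mem_filter.1 h2).2 (mem_filter.1 h1).2
    have hcard : W1.card + W2.card = W.card := by rw [← card_union_of_disjoint hdisj, hunion]
    by_cases h2e : W2 = ∅
    · left
      obtain ⟨f, hf, hfm⟩ := nu_spec K W
      have hall : ∀ x ∈ W, x = a ∨ R x a := by
        intro x hx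
        by_contra hcon
        have : x ∈ W2 := mem_filter.2 ⟨hx, hcon⟩
        rw [h2e] at this
        simp at this
      have hone : (W.filter (fun i => ¬ f i ≠ i)).card ≤ 1 := by
        rw [card_le_one]
        intro x hx y hy
        obtain ⟨hx1, hx2⟩ := mem_filter.1 hx
        obtain ⟨hy1, hy2⟩ := mem_filter.1 hy
        rw [not_not] at hx2 hy2
        by_contra hxy
        have hR : R x y := by
          rcases hall x hx1 with h1 | h1
          · rcases hall y hy1 with h3 | h3
            · exact absurd (h1.trans h3.symm) hxy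
            · rw [h1]; exact Rs _ _ h3
          · rcases hall y hy1 with h3 | h3
            · rw [h3]; exact h1
            · exact Rt x y a hx1 hy1 ha hxy h1 (Rs _ _ h3)
        exact hR f hf hfm hx2 hy2
      have := card_filter_add_card_filter_not (s := W) (fun i => f i ≠ i)
      have e : (W.filter (fun i => f i ≠ i)).card = nu K W := hfm
      omega
    · have ha1 : a ∈ W1 := mem_filter.2 ⟨ha, Or.inl rfl⟩
      obtain ⟨b, hb⟩ := nonempty_iff_ne_empty.2 h2e
      have hW1s : W1 ⊆ W := filter_subset _ _
      have hW2s : W2 ⊆ W := filter_subset _ _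
      have hno : ∀ i ∈ W1, ∀ j ∈ W2, ¬ K i j := by
        intro i hi j hj hij
        obtain ⟨hi1, hi2⟩ := mem_filter.1 hi
        obtain ⟨hj1, hj2⟩ := mem_filter.1 hj
        have hR := Radj i j hi1 hj1 hij
        apply hj2
        rcases hi2 with h | h
        · right; rw [← h]; exact Rs _ _ hR
        · by_cases hja : j = a
          · exact Or.inl hja
          · right
            exact Rt j a i hj1 ha hi1 hja (Rs _ _ hR) h
      have hjoin : ∀ u ∈ X σ W1, ∀ v ∈ X σ W2, G.Adj u v := by
        intro u hu v hv
        by_contra hcon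
        have h1 := mem_X.1 hu
        have h2 := mem_X.1 hv
        refine hno _ h1 _ h2 ⟨?_, u, v, rfl, rfl, hcon⟩
        intro h
        rw [h] at h1
        exact (Finset.disjoint_left.1 hdisj h1) h2
      have hc1 : W1.card < n := by
        have : 0 < W2.card := card_pos.2 ⟨b, hb⟩
        omega
      have hc2 : W2.card < n := by
        have : 0 < W1.card := card_pos.2 ⟨a, ha1⟩
        omega
      -- local colourability
      have L1 : Loc G σ W1 (s - chi G (X σ W2)) := by
        intro v hv S hS hSv
        refine (join_split (S1 := S) (S2 := X σ W2) (fun u hu w hw => hjoin u (hS hu) w hw) ?_).1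
        refine hs v (mem_X.2 (hW1s (mem_X.1 hv))) _ ?_ ?_
        · intro u hu
          rcases mem_union.1 hu with h | h
          · exact mem_X.2 (hW1s (mem_X.1 (hS h)))
          · exact mem_X.2 (hW2s (mem_X.1 h))
        · intro u hu
          rcases mem_union.1 hu with h | h
          · exact hSv u h
          · exact Or.inr (hjoin v hv u h)
      have L2 : Loc G σ W2 (s - chi G (X σ W1)) := by
        intro v hv S hS hSv
        refine (join_split (S1 := S) (S2 := X σ W1)
          (fun u hu w hw => (hjoin w hw u (hS hu)).symm) ?_).1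
        refine hs v (mem_X.2 (hW2s (mem_X.1 hv))) _ ?_ ?_
        · intro u hu
          rcases mem_union.1 hu with h | h
          · exact mem_X.2 (hW2s (mem_X.1 (hS h)))
          · exact mem_X.2 (hW1s (mem_X.1 h))
        · intro u hu
          rcases mem_union.1 hu with h | h
          · exact hSv u h
          · exact Or.inr (hjoin u h v hv).symm
      have s1 : chi G (X σ W2) + 1 ≤ s := by
        obtain ⟨v, hv⟩ := hW a ha
        have hv1 : v ∈ X σ W1 := mem_X.2 (by rw [hv]; exact ha1)
        have hv0 : v ∈ X σ W := mem_X.2 (by rw [hv]; exact ha)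
        have h2 := (join_split (S1 := {v}) (S2 := X σ W2) (s := s)
          (fun u hu w hw => by rw [mem_singleton.1 hu]; exact hjoin v hv1 w hw) (by
            refine hs v hv0 _ ?_ ?_
            · intro u hu
              rcases mem_union.1 hu with h | h
              · rw [mem_singleton.1 h]; exact hv0
              · exact mem_X.2 (hW2s (mem_X.1 h))
            · intro u hu
              rcases mem_union.1 hu with h | h
              · exact Or.inl (mem_singleton.1 h)
              · exact Or.inr (hjoin v hv1 u h))).2
        have h3 : 1 ≤ chi G ({v} : Finset V) := chi_pos (singleton_nonempty v)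
        omega
      have s2 : chi G (X σ W1) + 1 ≤ s := by
        obtain ⟨v, hv⟩ := hW b (hW2s hb)
        have hv1 : v ∈ X σ W2 := mem_X.2 (by rw [hv]; exact hb)
        have hv0 : v ∈ X σ W := mem_X.2 (by rw [hv]; exact hW2s hb)
        have h2 := (join_split (S1 := {v}) (S2 := X σ W1) (s := s)
          (fun u hu w hw => by rw [mem_singleton.1 hu]; exact (hjoin w hw v hv1).symm) (by
            refine hs v hv0 _ ?_ ?_
            · intro u hu
              rcases mem_union.1 hu with h | h
              · rw [mem_singleton.1 h]; exact hv0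
              · exact mem_X.2 (hW1s (mem_X.1 h))
            · intro u hu
              rcases mem_union.1 hu with h | h
              · exact Or.inl (mem_singleton.1 h)
              · exact Or.inr (hjoin u h v hv1).symm)).2
        have h3 : 1 ≤ chi G ({v} : Finset V) := chi_pos (singleton_nonempty v)
        omega
      -- combining matchings
      have hnu : nu K W1 + nu K W2 ≤ nu K W := by
        obtain ⟨f1, hf1, hfm1⟩ := nu_spec K W1
        obtain ⟨f2, hf2, hfm2⟩ := nu_spec K W2
        let f : ℕ → ℕ := fun i => if i ∈ W1 then f1 i else f2 i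
        have hout1 : ∀ i, i ∉ W1 → f1 i = i := by
          intro i hi
          by_contra hcon
          exact hi (hf1.adj i hcon).1
        have hout2 : ∀ i, i ∉ W2 → f2 i = i := by
          intro i hi
          by_contra hcon
          exact hi (hf2.adj i hcon).1
        have hin1 : ∀ i, i ∈ W1 → f1 i ∈ W1 := by
          intro i hi
          by_cases h : f1 i = i
          · rw [h]; exact hi
          · exact hf1.mem_f h
        have hin2 : ∀ i, i ∉ W1 → f2 i ∉ W1 := by
          intro i hi
          by_cases h : f2 i = i
          · rw [h]; exact hi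
          · exact fun h' => Finset.disjoint_left.1 hdisj h' (hf2.mem_f h)
        have hf : Mt K W f := by
          constructor
          · intro i
            by_cases h : i ∈ W1
            · simp only [f, h, if_true, hin1 i h]; exact hf1.inv i
            · simp only [f, h, if_false, hin2 i h]; exact hf2.inv i
          · intro i hi
            by_cases h : i ∈ W1
            · simp only [f, h, if_true] at hi ⊢
              exact ⟨hW1s h, (hf1.adj i hi).2⟩
            · simp only [f, h, if_false] at hi ⊢
              exact ⟨hW2s (hf2.adj i hi).1, (hf2.adj i hi).2⟩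
        have hm : mv W f = mv W1 f1 + mv W2 f2 := by
          unfold mv
          rw [← hunion, filter_union, card_union_of_disjoint]
          · congr 2
            · apply filter_congr
              intro i hi
              simp [f, hi]
            · apply filter_congr
              intro i hi
              have : i ∉ W1 := fun h => Finset.disjoint_left.1 hdisj h hi
              simp [f, this]
          · rw [Finset.disjoint_left]
            intro i h1 h2
            exact Finset.disjoint_left.1 hdisj (mem_filter.1 h1).1 (mem_filter.1 h2).1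
        rw [← hfm1, ← hfm2, ← hm]
        exact le_nu hf
      have hchi : chi G (X σ W) ≤ chi G (X σ W1) + chi G (X σ W2) := by
        rw [← hunion, X_union]
        exact chi_union _ _ _
      have k1 := chi_le_card hσ W1
      have k2 := chi_le_card hσ W2
      have r1 := ih _ hc1 W1 rfl (fun i hi => hW i (hW1s hi)) _ L1
      have r2 := ih _ hc2 W2 rfl (fun i hi => hW i (hW2s hi)) _ L2
      right
      rcases r1 with r1 | r1
      · rcases r2 with r2 | r2
        · omega
        · omega
      · omega

end U447.CD
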