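import Mathlib
import Pool.Agent.U447.CDC

/-! Transversals with few colours. -/

namespace U447.CD

open Finset

set_option linter.unusedSectionVars false

variable {V : Type*} [Fintype V] [DecidableEq V]

/-- there is a vertex set which meets all colours of `W`, and which saves `d` colours -/
def Dl (G : SimpleGraph V) (σ : V → ℕ) (W : Finset ℕ) (d : ℕ) : Prop :=
  ∃ T : Finset V, T.image σ = W ∧ ∃ t, CC G T t ∧ t + d ≤ W.card

theorem Dl.mono {G : SimpleGraph V} {σ : V → ℕ} {W : Finset ℕ} {d d' : ℕ} (h : Dl G σ W d)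
    (hd : d' ≤ d) : Dl G σ W d' := by
  obtain ⟨T, h1, t, h2, h3⟩ := h
  exact ⟨T, h1, t, h2, by omega⟩

theorem Dl_match [Nonempty V] {G : SimpleGraph V} {σ : V → ℕ} {W : Finset ℕ}
    (hW : ∀ i ∈ W, ∃ v, σ v = i)
    {f : ℕ → ℕ} (hf : Mt (Kp G σ) W f) : Dl G σ W (W.filter (fun i => f i < i)).card := by
  classical
  have hp : ∀ i, ∃ p : V × V, i ∈ W → σ p.1 = i ∧
      (i < f i → σ p.2 = f i ∧ ¬ G.Adj p.1 p.2) := by
    intro i
    by_cases hi : i ∈ W
    · by_cases h : i < f i
      · obtain ⟨_, u, v, h1, h2, h3⟩ := (hf.adj i h.ne').2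
        exact ⟨(u, v), fun _ => ⟨h1, fun _ => ⟨h2, h3⟩⟩⟩
      · obtain ⟨v, hv⟩ := hW i hi
        exact ⟨(v, v), fun _ => ⟨hv, fun h' => absurd h' h⟩⟩
    · obtain ⟨v⟩ := ‹Nonempty V›
      exact ⟨(v, v), fun h => absurd h hi⟩
  choose p hp using hp
  let rep : ℕ → V := fun i => if f i < i then (p (f i)).2 else (p i).1
  have hrep : ∀ i ∈ W, σ (rep i) = i := by
    intro i hi
    by_cases h : f i < i
    · have e : rep i = (p (f i)).2 := by simp [rep, h]
      rw [e]
      have h1 := (hp (f i) (hf.mem_f h.ne)).2 (by rw [hf.inv]; exact h)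
      rw [h1.1, hf.inv]
    · have e : rep i = (p i).1 := by simp [rep, h]
      rw [e]
      exact (hp i hi).1
  have hpair : ∀ i ∈ W, i < f i → ¬ G.Adj (rep i) (rep (f i)) := by
    intro i hi h
    have e1 : rep i = (p i).1 := by
      have : ¬ f i < i := by omega
      simp [rep, this]
    have e2 : rep (f i) = (p i).2 := by
      have : f (f i) < f i := by rw [hf.inv]; exact h
      simp only [rep, this, if_true]
      rw [hf.inv]
    rw [e1, e2]
    exact ((hp i hi).2 h).2
  refine ⟨W.image rep, ?_, (W.filter (fun i => ¬ f i < i)).card, ?_, ?_⟩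
  · rw [image_image]
    ext i
    simp only [mem_image, Function.comp]
    constructor
    · rintro ⟨j, hj, rfl⟩
      rw [hrep j hj]; exact hj
    · intro hi
      exact ⟨i, hi, hrep i hi⟩
  · refine ⟨fun v => min (σ v) (f (σ v)), ?_, ?_⟩
    · intro u hu v hv huv hc
      obtain ⟨i, hi, rfl⟩ := mem_image.1 hu
      obtain ⟨j, hj, rfl⟩ := mem_image.1 hv
      simp only [hrep i hi, hrep j hj] at hc
      have hij : i = j ∨ i = f j ∨ f i = j ∨ f i = f j := by
        rcases min_choice i (f i) with h1 | h1 <;> rcases min_choice j (f j) with h2 | h2 <;>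
          rw [h1, h2] at hc <;> tauto
      have hij' : i = j ∨ j = f i := by
        rcases hij with h | h | h | h
        · exact Or.inl h
        · right; rw [h, hf.inv]
        · right; exact h.symm
        · left
          have := congrArg f h
          rwa [hf.inv, hf.inv] at this
      rcases hij' with rfl | rfl
      · exact G.loopless.irrefl _ huv
      · rcases lt_trichotomy i (f i) with h | h | h
        · exact hpair i hi h huv
        · rw [← h] at huv
          exact G.loopless.irrefl _ huv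
        · have := hpair (f i) (hf.mem_f h.ne) (by rw [hf.inv]; exact h)
          rw [hf.inv] at this
          exact this huv.symm
    · apply card_le_card
      intro m hm
      obtain ⟨v, hv, rfl⟩ := mem_image.1 hm
      obtain ⟨i, hi, rfl⟩ := mem_image.1 hv
      simp only [hrep i hi]
      by_cases h : f i < i
      · rw [min_eq_right h.le]
        refine mem_filter.2 ⟨hf.mem_f h.ne, ?_⟩
        rw [hf.inv]; omega
      · rw [min_eq_left (by omega)]
        exact mem_filter.2 ⟨hi, h⟩
  · have := card_filter_add_card_filter_not (s := W) (fun i => f i < i)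
    omega

/-- the matching bound -/
theorem base [Nonempty V] {G : SimpleGraph V} {σ : V → ℕ} (hσ : ∀ u v, G.Adj u v → σ u ≠ σ v)
    {W : Finset ℕ} (hW : ∀ i ∈ W, ∃ v, σ v = i) {s : ℕ} (hs : Loc G σ W s) :
    ∃ p, Dl G σ W p ∧ (W.card ≤ 2 * p + 1 ∨ chi G (X σ W) ≤ s + p) := by
  obtain ⟨f, hf, hfm⟩ := nu_spec (Kp G σ) W
  have he := mv_even hf
  refine ⟨_, Dl_match hW hf, ?_⟩
  rcases main hσ _ W rfl hW s hs with h | h
  · left; omega
  · right; omega

/-- the case of an optimal colouring -/
theorem optimal {G : SimpleGraph V} {σ : V → ℕ} (hσ : ∀ u v, G.Adj u v → σ u ≠ σ v)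
    {W : Finset ℕ} (hne : W.Nonempty) (hW : ∀ i ∈ W, ∃ v, σ v = i) {s : ℕ} (hs : Loc G σ W s)
    (hopt : W.card ≤ chi G (X σ W)) : Dl G σ W (W.card - s) := by
  classical
  obtain ⟨i, hi⟩ := hne
  obtain ⟨v, hv, hall⟩ : ∃ v, σ v = i ∧ ∀ j ∈ W, j ≠ i → ∃ u, σ u = j ∧ G.Adj v u := by
    by_contra hcon
    push Not at hcon
    choose! j hj1 hj2 hj3 using hcon
    have hcc : CC G (X σ W) (W.erase i).card := by
      refine ⟨fun v => if σ v = i then j v else σ v, ?_, ?_⟩
      · intro u hu v hv huv
        by_cases a : σ u = i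
        · by_cases b : σ v = i
          · exact absurd (a.trans b.symm) (hσ u v huv)
          · simp only [a, b, if_true, if_false]
            intro h
            exact hj3 u a v h.symm huv
        · by_cases b : σ v = i
          · simp only [a, b, if_true, if_false]
            intro h
            exact hj3 v b u h huv.symm
          · simp only [a, b, if_false]
            exact hσ u v huv
      · apply card_le_card
        intro m hm
        obtain ⟨v, hv, rfl⟩ := mem_image.1 hm
        by_cases a : σ v = i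
        · simp only [a, if_true]
          exact mem_erase.2 ⟨hj2 v a, hj1 v a⟩
        · simp only [a, if_false]
          exact mem_erase.2 ⟨a, mem_X.1 hv⟩
    have h1 := chi_le hcc
    have h2 : (W.erase i).card + 1 = W.card := card_erase_add_one hi
    omega
  set S := (X σ W).filter (fun u => u = v ∨ G.Adj v u) with hS
  have hSW : S.image σ = W := by
    ext j
    simp only [mem_image]
    constructor
    · rintro ⟨u, hu, rfl⟩
      exact mem_X.1 (mem_filter.1 hu).1
    · intro hj
      by_cases hji : j = i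
      · refine ⟨v, mem_filter.2 ⟨mem_X.2 (by rw [hv]; exact hi), Or.inl rfl⟩, by rw [hv, hji]⟩
      · obtain ⟨u, hu, huv⟩ := hall j hj hji
        exact ⟨u, mem_filter.2 ⟨mem_X.2 (by rw [hu]; exact hj), Or.inr huv⟩, hu⟩
  have hvX : v ∈ X σ W := mem_X.2 (by rw [hv]; exact hi)
  have h1 : CC G S s := hs v hvX S (filter_subset _ _) (fun u hu => (mem_filter.1 hu).2)
  by_cases hsW : s ≤ W.card
  · exact ⟨S, hSW, s, h1, by omega⟩
  · refine ⟨S, hSW, W.card, ⟨σ, fun u _ v _ => hσ u v, ?_⟩, by omega⟩
    rw [hSW]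

theorem Dl_zero {G : SimpleGraph V} {σ : V → ℕ} (hσ : ∀ u v, G.Adj u v → σ u ≠ σ v)
    {W : Finset ℕ} (hW : ∀ i ∈ W, ∃ v, σ v = i) : Dl G σ W 0 := by
  have h : (X σ W).image σ = W := by
    ext j
    simp only [mem_image]
    constructor
    · rintro ⟨u, hu, rfl⟩
      exact mem_X.1 hu
    · intro hj
      obtain ⟨v, hv⟩ := hW j hj
      exact ⟨v, mem_X.2 (by rw [hv]; exact hj), hv⟩
  refine ⟨X σ W, h, W.card, ⟨σ, fun u _ v _ => hσ u v, ?_⟩, le_rfl⟩
  rw [h]

/-- many colours -/
theorem many [Nonempty V] {G : SimpleGraph V} {σ : V → ℕ} (hσ : ∀ u v, G.Adj u v → σ u ≠ σ v)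
    {W : Finset ℕ} (hW : ∀ i ∈ W, ∃ v, σ v = i) {s : ℕ} (hs : Loc G σ W s)
    (h : 2 * (chi G (X σ W) - s) ≤ W.card) : Dl G σ W (chi G (X σ W) - s) := by
  obtain ⟨p, hp, h1⟩ := base hσ hW hs
  refine hp.mono ?_
  omega

/-- the bound `min (χ - s) ⌈χ/2⌉` -/
theorem half [Nonempty V] {G : SimpleGraph V} {σ : V → ℕ} (hσ : ∀ u v, G.Adj u v → σ u ≠ σ v)
    {W : Finset ℕ} (hW : ∀ i ∈ W, ∃ v, σ v = i) {s : ℕ} (hs : Loc G σ W s) {y : ℕ}
    (hy : y ≤ chi G (X σ W)) : Dl G σ W (min (y - s) ((y + 1) / 2)) := by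
  by_cases hopt : W.card ≤ chi G (X σ W)
  · by_cases hne : W.Nonempty
    · exact (optimal hσ hne hW hs hopt).mono (by
        have := chi_le_card hσ W
        omega)
    · rw [not_nonempty_iff_eq_empty] at hne
      have := chi_le_card hσ W
      rw [hne] at this hy
      simp at this
      have hy0 : y = 0 := by omega
      rw [hy0, hne]
      simpa using (Dl_zero (G := G) hσ (W := ∅) (by simp))
  · obtain ⟨p, hp, h1⟩ := base hσ hW hs
    refine hp.mono ?_
    omega

theorem CC_biUnion {G : SimpleGraph V} {s : ℕ} (I : Finset V) (F : V → Finset V)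
    (h : ∀ u ∈ I, CC G (F u) s) : CC G (I.biUnion F) (I.card * s) := by
  classical
  induction I using Finset.induction_on with
  | empty => simpa using CC_empty G 0
  | insert a I ha ih =>
    rw [biUnion_insert, card_insert_of_notMem ha]
    have h1 := (h a (mem_insert_self _ _)).union (ih (fun u hu => h u (mem_insert_of_mem hu)))
    refine h1.mono subset_rfl ?_
    rw [Nat.add_mul, one_mul, add_comm]

/-- rainbow independent sets -/
theorem rainbow {G : SimpleGraph V} {σ : V → ℕ} (hσ : ∀ u v, G.Adj u v → σ u ≠ σ v)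
    {W : Finset ℕ} {s : ℕ} (hs : Loc G σ W s) :
    ∀ r : ℕ, (r = 0 ∨ (r - 1) * s < chi G (X σ W)) → ∃ I : Finset V, I ⊆ X σ W ∧ I.card = r ∧
      (∀ u ∈ I, ∀ v ∈ I, σ u = σ v → u = v) ∧ (∀ u ∈ I, ∀ v ∈ I, ¬ G.Adj u v) := by
  classical
  intro r
  induction r with
  | zero => intro _; exact ⟨∅, by simp, by simp, by simp, by simp⟩
  | succ r ih =>
    intro h
    have h' : r * s < chi G (X σ W) := by
      rcases h with h | h
      · omega
      · simpa using h
    obtain ⟨I, hI1, hI2, hI3, hI4⟩ := ih (by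
      right
      refine lt_of_le_of_lt ?_ h'
      exact Nat.mul_le_mul_right s (Nat.sub_le r 1))
    obtain ⟨v, hvX, hv1, hv2⟩ : ∃ v ∈ X σ W, (∀ u ∈ I, σ u ≠ σ v) ∧ (∀ u ∈ I, ¬ G.Adj u v) := by
      by_contra hcon
      push Not at hcon
      have hcov : X σ W ⊆ I.biUnion (fun u => X σ {σ u} ∪ (X σ W).filter (fun w => G.Adj u w)) := by
        intro w hw
        rw [mem_biUnion]
        by_cases a : ∀ u ∈ I, σ u ≠ σ w
        · obtain ⟨u, hu, huw⟩ := hcon w hw a
          exact ⟨u, hu, mem_union_right _ (mem_filter.2 ⟨hw, huw⟩)⟩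
        · push Not at a
          obtain ⟨u, hu, huw⟩ := a
          exact ⟨u, hu, mem_union_left _ (mem_X.2 (by simp [huw]))⟩
      have hcc : CC G (I.biUnion (fun u => X σ {σ u} ∪ (X σ W).filter (fun w => G.Adj u w)))
          (I.card * s) := by
        apply CC_biUnion
        intro u hu
        have huX := hI1 hu
        have h1 := join_split (G := G) (S1 := (X σ W).filter (fun w => G.Adj u w)) (S2 := {u})
          (s := s) (fun a ha b hb => by
            rw [mem_singleton.1 hb]; exact (mem_filter.1 ha).2.symm) (by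
            refine hs u huX _ ?_ ?_
            · intro w hw
              rcases mem_union.1 hw with h | h
              · exact (mem_filter.1 h).1
              · rw [mem_singleton.1 h]; exact huX
            · intro w hw
              rcases mem_union.1 hw with h | h
              · exact Or.inr (mem_filter.1 h).2
              · exact Or.inl (mem_singleton.1 h))
        have h2 : 1 ≤ chi G ({u} : Finset V) := chi_pos (singleton_nonempty u)
        have h3 : CC G (X σ {σ u}) 1 := by
          refine ⟨fun _ => 0, ?_, ?_⟩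
          · intro a ha b hb hab
            exfalso
            have ha' := mem_singleton.1 (mem_X.1 ha)
            have hb' := mem_singleton.1 (mem_X.1 hb)
            exact hσ a b hab (ha'.trans hb'.symm)
          · exact (card_le_card (image_subset_iff.2 (fun _ _ => mem_singleton.2 rfl :
              ∀ x ∈ X σ {σ u}, (fun _ => 0) x ∈ ({0} : Finset ℕ)))).trans (by simp)
        refine (h3.union h1.1).mono subset_rfl ?_
        have := h1.2
        omega
      have h5 := (chi_mono G hcov).trans (chi_le hcc)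
      rw [hI2] at h5
      omega
    have hvI : v ∉ I := fun h => hv1 v h rfl
    refine ⟨insert v I, ?_, ?_, ?_, ?_⟩
    · intro w hw
      rcases mem_insert.1 hw with rfl | h
      · exact hvX
      · exact hI1 h
    · rw [card_insert_of_notMem hvI, hI2]
    · intro a ha b hb hab
      rcases mem_insert.1 ha with rfl | ha' <;> rcases mem_insert.1 hb with rfl | hb'
      · rfl
      · exact absurd hab.symm (hv1 b hb')
      · exact absurd hab (hv1 a ha')
      · exact hI3 a ha' b hb' hab
    · intro a ha b hb hab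
      rcases mem_insert.1 ha with rfl | ha' <;> rcases mem_insert.1 hb with rfl | hb'
      · exact G.loopless.irrefl _ hab
      · exact hv2 b hb' hab.symm
      · exact hv2 a ha' hab
      · exact hI4 a ha' b hb' hab

theorem Dl_step {G : SimpleGraph V} {σ : V → ℕ} {W : Finset ℕ} {I : Finset V} (hI : I ⊆ X σ W)
    (hr : 1 ≤ I.card) (hinj : ∀ u ∈ I, ∀ v ∈ I, σ u = σ v → u = v)
    (hind : ∀ u ∈ I, ∀ v ∈ I, ¬ G.Adj u v) {d : ℕ} (h : Dl G σ (W \ I.image σ) d) :
    Dl G σ W (d + I.card - 1) := by
  classical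
  obtain ⟨T, h1, t, h2, h3⟩ := h
  have hJ : I.image σ ⊆ W := by
    intro i hi
    obtain ⟨v, hv, rfl⟩ := mem_image.1 hi
    exact mem_X.1 (hI hv)
  have hJc : (I.image σ).card = I.card := card_image_of_injOn (fun u hu v hv h => hinj u hu v hv h)
  have hcard : (W \ I.image σ).card + I.card = W.card := by
    rw [← hJc]; exact card_sdiff_add_card_eq_card hJ
  refine ⟨I ∪ T, ?_, 1 + t, CC.union ?_ h2, by omega⟩
  · rw [image_union, h1]
    exact union_sdiff_of_subset hJ
  · refine ⟨fun _ => 0, ?_, ?_⟩
    · intro a ha b hb hab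
      exact absurd hab (hind a ha b hb)
    · exact (card_le_card (image_subset_iff.2 (fun _ _ => mem_singleton.2 rfl :
        ∀ x ∈ I, (fun _ => 0) x ∈ ({0} : Finset ℕ)))).trans (by simp)

/-- the iterated bound -/
theorem iter [Nonempty V] {G : SimpleGraph V} {σ : V → ℕ} (hσ : ∀ u v, G.Adj u v → σ u ≠ σ v)
    {s : ℕ} (hs1 : 1 ≤ s) : ∀ k : ℕ, ∀ W : Finset ℕ, (∀ i ∈ W, ∃ v, σ v = i) → Loc G σ W s →
      ∀ y, y ≤ chi G (X σ W) → y * (s - 1) ^ k ≤ (2 * s + 1) * s ^ k → Dl G σ W (y - s - k) := by
  classical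
  intro k
  induction k with
  | zero =>
    intro W hW hs y hy hk
    refine (half hσ hW hs hy).mono ?_
    simp only [pow_zero, mul_one] at hk
    omega
  | succ k ih =>
    intro W hW hs y hy hk
    by_cases hys : y ≤ s + (k + 1)
    · exact (Dl_zero hσ hW).mono (by omega)
    push Not at hys
    obtain ⟨r, hr1, hr2⟩ : ∃ r : ℕ, (r - 1) * s < y ∧ y ≤ r * s := by
      refine ⟨(y + s - 1) / s, ?_, ?_⟩
      · have h1 : ((y + s - 1) / s) * s ≤ y + s - 1 := Nat.div_mul_le_self _ _
        have h2 : ((y + s - 1) / s - 1) * s = ((y + s - 1) / s) * s - s := by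
          rw [Nat.sub_mul, one_mul]
        omega
      · have h1 := Nat.lt_div_mul_add (a := y + s - 1) (b := s) (by omega)
        omega
    have hr0 : 1 ≤ r := by
      by_contra h
      have : r = 0 := by omega
      rw [this] at hr2
      omega
    obtain ⟨I, hI1, hI2, hI3, hI4⟩ := rainbow hσ hs r (Or.inr (lt_of_lt_of_le hr1 hy))
    have hJ : I.image σ ⊆ W := by
      intro i hi
      obtain ⟨v, hv, rfl⟩ := mem_image.1 hi
      exact mem_X.1 (hI1 hv)
    have hJc : (I.image σ).card = r := by
      rw [← hI2]; exact card_image_of_injOn (fun u hu v hv h => hI3 u hu v hv h)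
    have hchi : chi G (X σ W) ≤ chi G (X σ (W \ I.image σ)) + r := by
      have e : X σ W = X σ (W \ I.image σ) ∪ X σ (I.image σ) := by
        rw [← X_union, sdiff_union_of_subset hJ]
      rw [e]
      refine (chi_union _ _ _).trans ?_
      have := chi_le_card hσ (I.image σ)
      omega
    have hk' : (y - r) * (s - 1) ^ k ≤ (2 * s + 1) * s ^ k := by
      have h1 : s * (y - r) ≤ y * (s - 1) := by
        obtain ⟨s', rfl⟩ : ∃ s', s = s' + 1 := ⟨s - 1, by omega⟩
        simp only [Nat.add_sub_cancel]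
        by_cases hyr : y ≤ r
        · have : y - r = 0 := by omega
          rw [this]; simp
        · obtain ⟨e, he⟩ : ∃ e, y = r + e := ⟨y - r, by omega⟩
          subst he
          have e2 : r + e - r = e := by omega
          rw [e2]
          nlinarith
      have h2 : s * ((y - r) * (s - 1) ^ k) ≤ s * ((2 * s + 1) * s ^ k) := by
        calc s * ((y - r) * (s - 1) ^ k) = (s * (y - r)) * (s - 1) ^ k := by ring
          _ ≤ (y * (s - 1)) * (s - 1) ^ k := Nat.mul_le_mul_right _ h1
          _ = y * (s - 1) ^ (k + 1) := by ring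
          _ ≤ (2 * s + 1) * s ^ (k + 1) := hk
          _ = s * ((2 * s + 1) * s ^ k) := by ring
      exact Nat.le_of_mul_le_mul_left h2 (by omega)
    have hd := ih (W \ I.image σ) (fun i hi => hW i (mem_sdiff.1 hi).1)
      (Loc_mono hs sdiff_subset) (y - r) (by omega) hk'
    have h3 := Dl_step hI1 (by omega) hI3 hI4 hd
    rw [hI2] at h3
    refine h3.mono ?_
    omega

end U447.CD
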