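import Mathlib
import Pool.Agent.U447.CDD

/-! A Tutte-Berge type structure theorem and the sharpened bounds. -/

namespace U447.CD

open Finset

set_option linter.unusedSectionVars false

/-- **Berge's formula**, hard direction. -/
theorem berge {K : ℕ → ℕ → Prop} (hKs : ∀ i j, K i j → K j i) :
    ∀ n : ℕ, ∀ W : Finset ℕ, W.card = n → ∃ U ⊆ W, ∃ l : ℕ → ℕ,
      (∀ i ∈ W \ U, ∀ j ∈ W \ U, l i ≠ l j → ¬ K i j) ∧
      W.card + U.card ≤ nu K W + ((W \ U).image l).card := by
  classical
  intro n
  induction n using Nat.strong_induction_on with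
  | _ n ih =>
  intro W hWn
  by_cases hcov : ∃ v ∈ W, ∀ f, Mt K W f → mv W f = nu K W → f v ≠ v
  · obtain ⟨v, hv, hcov⟩ := hcov
    have hc : (W.erase v).card < n := by
      rw [card_erase_of_mem hv]
      have : 0 < W.card := card_pos.2 ⟨v, hv⟩
      omega
    have hc' : (W.erase v).card + 1 = W.card := card_erase_add_one hv
    have hext : ∀ f, Mt K (W.erase v) f → Mt K W f ∧ mv W f = mv (W.erase v) f ∧ f v = v := by
      intro f hf
      have fv : f v = v := by
        by_contra hcon
        have := (hf.adj v hcon).1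
        simp at this
      refine ⟨⟨hf.inv, fun i hi => ⟨(mem_of_mem_erase (hf.adj i hi).1), (hf.adj i hi).2⟩⟩, ?_, fv⟩
      unfold mv
      congr 1
      ext i
      simp only [mem_filter, mem_erase]
      constructor
      · rintro ⟨h1, h2⟩
        exact ⟨⟨fun h => by rw [h] at h2; exact h2 fv, h1⟩, h2⟩
      · rintro ⟨⟨_, h1⟩, h2⟩
        exact ⟨h1, h2⟩
    obtain ⟨f, hf, hfm⟩ := nu_spec K (W.erase v)
    obtain ⟨hf1, hf2, hf3⟩ := hext f hf
    have hle := le_nu hf1
    have hne : mv W f ≠ nu K W := fun h => hcov f hf1 h hf3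
    obtain ⟨g, hg, hgm⟩ := nu_spec K W
    have ev1 := mv_even hg
    have ev2 := mv_even hf
    have hstep : nu K (W.erase v) + 2 ≤ nu K W := by omega
    obtain ⟨U, hU, l, h1, h2⟩ := ih _ hc (W.erase v) rfl
    have hvU : v ∉ U := fun h => by simpa using hU h
    have e : W \ insert v U = (W.erase v) \ U := by
      ext i
      simp only [mem_sdiff, mem_insert, mem_erase, not_or]
      tauto
    refine ⟨insert v U, ?_, l, ?_, ?_⟩
    · intro i hi
      rcases mem_insert.1 hi with rfl | h
      · exact hv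
      · exact mem_of_mem_erase (hU h)
    · rw [e]; exact h1
    · rw [e, card_insert_of_notMem hvU]; omega
  · push Not at hcov
    by_cases hWe : W = ∅
    · exact ⟨∅, by simp, fun i => i, by simp [hWe], by simp [hWe]⟩
    obtain ⟨a, ha⟩ := nonempty_iff_ne_empty.2 hWe
    let R : ℕ → ℕ → Prop := fun u v => ∀ f, Mt K W f → mv W f = nu K W → f u = u → f v ≠ v
    have Rs : ∀ u v, R u v → R v u := fun u v h f h1 h2 h3 h4 => h f h1 h2 h4 h3
    have Rt : ∀ u v w, u ∈ W → v ∈ W → w ∈ W → u ≠ v → R u w → R w v → R u v := by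
      intro u v w hu hv hw huv h1 h2 g hg hgm gu gv
      obtain ⟨f, hf, hfm, fw⟩ := hcov w hw
      exact trans_aux hKs hg hgm huv hu hv gu gv (fun f h3 h4 h5 => Rs _ _ h1 f h3 h4 h5)
        (fun f h3 h4 h5 => h2 f h3 h4 h5) _ f hf hfm fw rfl
    have Radj : ∀ u v, u ∈ W → v ∈ W → K u v → u ≠ v → R u v := by
      intro u v hu hv huv hne f hf hfm fu fv
      have := add_edge hKs hf hne hu hv fu fv huv
      omega
    set W1 := W.filter (fun x => x = a ∨ R x a) with hW1
    set W2 := W.filter (fun x => ¬ (x = a ∨ R x a)) with hW2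
    have hunion : W1 ∪ W2 = W := by
      ext i
      simp only [hW1, hW2, mem_union, mem_filter]
      tauto
    have hdisj : Disjoint W1 W2 := by
      rw [Finset.disjoint_left]
      intro i h1 h2
      exact (mem_filter.1 h2).2 (mem_filter.1 h1).2
    have hcard : W1.card + W2.card = W.card := by rw [← card_union_of_disjoint hdisj, hunion]
    by_cases h2e : W2 = ∅
    · obtain ⟨f, hf, hfm⟩ := nu_spec K W
      have hall : ∀ x ∈ W, x = a ∨ R x a := by
        intro x hx
        by_contra hcon
        have : x ∈ W2 := mem_filter.2 ⟨hx, hcon⟩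
        rw [h2e] at this
        simp at this
      have hone : (W.filter (fun i => ¬ f i ≠ i)).card ≤ 1 := by
        rw [card_le_one]
        intro x hx y hy
        obtain ⟨hx1, hx2⟩ := mem_filter.1 hx
        obtain ⟨hy1, hy2⟩ := mem_filter.1 hy
        rw [not_not] at hx2 hy2
        by_contra hxy
        have hR : R x y := by
          rcases hall x hx1 with h1 | h1
          · rcases hall y hy1 with h3 | h3
            · exact absurd (h1.trans h3.symm) hxy
            · rw [h1]; exact Rs _ _ h3
          · rcases hall y hy1 with h3 | h3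
            · rw [h3]; exact h1
            · exact Rt x y a hx1 hy1 ha hxy h1 (Rs _ _ h3)
        exact hR f hf hfm hx2 hy2
      have := card_filter_add_card_filter_not (s := W) (fun i => f i ≠ i)
      have e : (W.filter (fun i => f i ≠ i)).card = nu K W := hfm
      refine ⟨∅, by simp, fun _ => 0, fun i _ j _ h => absurd rfl h, ?_⟩
      have hpos : 0 < (((W \ ∅).image (fun _ => 0 : ℕ → ℕ))).card :=
        card_pos.2 ⟨0, mem_image.2 ⟨a, by simpa using ha, rfl⟩⟩
      rw [card_empty]
      omega
    · have ha1 : a ∈ W1 := mem_filter.2 ⟨ha, Or.inl rfl⟩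
      obtain ⟨b, hb⟩ := nonempty_iff_ne_empty.2 h2e
      have hW1s : W1 ⊆ W := filter_subset _ _
      have hW2s : W2 ⊆ W := filter_subset _ _
      have hno : ∀ i ∈ W1, ∀ j ∈ W2, ¬ K i j := by
        intro i hi j hj hij
        obtain ⟨hi1, hi2⟩ := mem_filter.1 hi
        obtain ⟨hj1, hj2⟩ := mem_filter.1 hj
        have hne : i ≠ j := fun h => hj2 (h ▸ hi2)
        have hR := Radj i j hi1 hj1 hij hne
        apply hj2
        rcases hi2 with h | h
        · right; rw [← h]; exact Rs _ _ hR
        · by_cases hja : j = a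
          · exact Or.inl hja
          · right
            exact Rt j a i hj1 ha hi1 hja (Rs _ _ hR) h
      have hc1 : W1.card < n := by
        have : 0 < W2.card := card_pos.2 ⟨b, hb⟩
        omega
      have hc2 : W2.card < n := by
        have : 0 < W1.card := card_pos.2 ⟨a, ha1⟩
        omega
      have hnu : nu K W1 + nu K W2 ≤ nu K W := by
        obtain ⟨f1, hf1, hfm1⟩ := nu_spec K W1
        obtain ⟨f2, hf2, hfm2⟩ := nu_spec K W2
        let f : ℕ → ℕ := fun i => if i ∈ W1 then f1 i else f2 i
        have hin1 : ∀ i, i ∈ W1 → f1 i ∈ W1 := by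
          intro i hi
          by_cases h : f1 i = i
          · rw [h]; exact hi
          · exact hf1.mem_f h
        have hin2 : ∀ i, i ∉ W1 → f2 i ∉ W1 := by
          intro i hi
          by_cases h : f2 i = i
          · rw [h]; exact hi
          · exact fun h' => Finset.disjoint_left.1 hdisj h' (hf2.mem_f h)
        have hf : Mt K W f := by
          constructor
          · intro i
            by_cases h : i ∈ W1
            · simp only [f, h, if_true, hin1 i h]; exact hf1.inv i
            · simp only [f, h, if_false, hin2 i h]; exact hf2.inv i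
          · intro i hi
            by_cases h : i ∈ W1
            · simp only [f, h, if_true] at hi ⊢
              exact ⟨hW1s h, (hf1.adj i hi).2⟩
            · simp only [f, h, if_false] at hi ⊢
              exact ⟨hW2s (hf2.adj i hi).1, (hf2.adj i hi).2⟩
        have hm : mv W f = mv W1 f1 + mv W2 f2 := by
          unfold mv
          rw [← hunion, filter_union, card_union_of_disjoint]
          · congr 2
            · apply filter_congr
              intro i hi
              simp [f, hi]
            · apply filter_congr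
              intro i hi
              have : i ∉ W1 := fun h => Finset.disjoint_left.1 hdisj h hi
              simp [f, this]
          · rw [Finset.disjoint_left]
            intro i h1 h2
            exact Finset.disjoint_left.1 hdisj (mem_filter.1 h1).1 (mem_filter.1 h2).1
        rw [← hfm1, ← hfm2, ← hm]
        exact le_nu hf
      obtain ⟨U1, hU1, l1, h11, h12⟩ := ih _ hc1 W1 rfl
      obtain ⟨U2, hU2, l2, h21, h22⟩ := ih _ hc2 W2 rfl
      have hUd : Disjoint U1 U2 := hdisj.mono hU1 hU2
      have hmem : ∀ i, i ∈ W \ (U1 ∪ U2) ↔ (i ∈ W1 \ U1 ∨ i ∈ W2 \ U2) := by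
        intro i
        simp only [mem_sdiff, mem_union, not_or]
        constructor
        · rintro ⟨h, h3, h4⟩
          rw [← hunion] at h
          rcases mem_union.1 h with h | h
          · exact Or.inl ⟨h, h3⟩
          · exact Or.inr ⟨h, h4⟩
        · rintro (⟨h, h3⟩ | ⟨h, h3⟩)
          · exact ⟨hW1s h, h3, fun h4 => Finset.disjoint_left.1 hdisj h (hU2 h4)⟩
          · exact ⟨hW2s h, fun h4 => Finset.disjoint_left.1 hdisj (hU1 h4) h, h3⟩
      let l : ℕ → ℕ := fun i => if i ∈ W1 then 2 * l1 i else 2 * l2 i + 1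
      have hl1 : ∀ i ∈ W1 \ U1, l i = 2 * l1 i := by
        intro i hi
        simp [l, (mem_sdiff.1 hi).1]
      have hl2 : ∀ i ∈ W2 \ U2, l i = 2 * l2 i + 1 := by
        intro i hi
        have : i ∉ W1 := fun h => Finset.disjoint_left.1 hdisj h (mem_sdiff.1 hi).1
        simp [l, this]
      refine ⟨U1 ∪ U2, union_subset (hU1.trans hW1s) (hU2.trans hW2s), l, ?_, ?_⟩
      · intro i hi j hj hij
        rw [hmem] at hi hj
        rcases hi with hi | hi <;> rcases hj with hj | hj
        · refine h11 i hi j hj (fun h => hij ?_)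
          rw [hl1 i hi, hl1 j hj, h]
        · exact hno i (mem_sdiff.1 hi).1 j (mem_sdiff.1 hj).1
        · exact fun h => hno j (mem_sdiff.1 hj).1 i (mem_sdiff.1 hi).1 (hKs _ _ h)
        · refine h21 i hi j hj (fun h => hij ?_)
          rw [hl2 i hi, hl2 j hj, h]
      · have h3 : ((W1 \ U1).image l1).card + ((W2 \ U2).image l2).card ≤
            ((W \ (U1 ∪ U2)).image l).card := by
          have e1 : ((W1 \ U1).image l1).card =
              (((W1 \ U1).image l1).image (fun i => 2 * i)).card :=
            (card_image_of_injective _ (fun x y h => by simpa using h)).symm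
          have e2 : ((W2 \ U2).image l2).card =
              (((W2 \ U2).image l2).image (fun i => 2 * i + 1)).card :=
            (card_image_of_injective _ (fun x y h => by simpa using h)).symm
          rw [e1, e2, ← card_union_of_disjoint]
          · apply card_le_card
            intro m hm
            rcases mem_union.1 hm with h | h
            · obtain ⟨x, hx, rfl⟩ := mem_image.1 h
              obtain ⟨i, hi, rfl⟩ := mem_image.1 hx
              exact mem_image.2 ⟨i, (hmem i).2 (Or.inl hi), hl1 i hi⟩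
            · obtain ⟨x, hx, rfl⟩ := mem_image.1 h
              obtain ⟨i, hi, rfl⟩ := mem_image.1 hx
              exact mem_image.2 ⟨i, (hmem i).2 (Or.inr hi), hl2 i hi⟩
          · rw [Finset.disjoint_left]
            intro m hm hm'
            obtain ⟨x, _, rfl⟩ := mem_image.1 hm
            obtain ⟨y, _, h⟩ := mem_image.1 hm'
            omega
        rw [card_union_of_disjoint hUd]
        omega

variable {V : Type*} [Fintype V] [DecidableEq V]

/-- **Sharpened matching bound.** -/
theorem main2 {G : SimpleGraph V} {σ : V → ℕ} (hσ : ∀ u v, G.Adj u v → σ u ≠ σ v)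
    {W : Finset ℕ} (hW : ∀ i ∈ W, ∃ v, σ v = i) {s : ℕ} (hs : Loc G σ W s) :
    W.card ≤ nu (Kp G σ) W + 1 ∨ W.card + chi G (X σ W) ≤ 2 * s + nu (Kp G σ) W := by
  classical
  obtain ⟨U, hU, l, hl, hcard⟩ := berge (Kp_symm G σ) _ W rfl
  by_cases hc : ((W \ U).image l).card ≤ 1
  · left; omega
  right
  push Not at hc
  obtain ⟨m1, hm1, m2, hm2, hne⟩ := one_lt_card.1 hc
  obtain ⟨i1, hi1, rfl⟩ := mem_image.1 hm1
  obtain ⟨i2, hi2, rfl⟩ := mem_image.1 hm2
  have hWU : W \ U ⊆ W := sdiff_subset
  set A := (W \ U).filter (fun i => l i = l i1) with hA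
  set B := (W \ U).filter (fun i => l i = l i2) with hB
  set C := (W \ U).filter (fun i => l i ≠ l i1 ∧ l i ≠ l i2) with hC
  have hAs : A ⊆ W := (filter_subset _ _).trans hWU
  have hBs : B ⊆ W := (filter_subset _ _).trans hWU
  have hCs : C ⊆ W := (filter_subset _ _).trans hWU
  -- vertices with different labels are adjacent
  have hjoin : ∀ u v, σ u ∈ W \ U → σ v ∈ W \ U → l (σ u) ≠ l (σ v) → G.Adj u v := by
    intro u v hu hv huv
    by_contra hcon
    exact hl _ hu _ hv huv ⟨fun h => huv (by rw [h]), u, v, rfl, rfl, hcon⟩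
  obtain ⟨v1, hv1⟩ := hW i1 (hWU hi1)
  obtain ⟨v2, hv2⟩ := hW i2 (hWU hi2)
  have hj : ∀ (P Q : Finset ℕ), P ⊆ W \ U → Q ⊆ W \ U → (∀ i ∈ P, ∀ j ∈ Q, l i ≠ l j) →
      ∀ u ∈ X σ P, ∀ v ∈ X σ Q, G.Adj u v := by
    intro P Q hP hQ hPQ u hu v hv
    exact hjoin u v (hP (mem_X.1 hu)) (hQ (mem_X.1 hv)) (hPQ _ (mem_X.1 hu) _ (mem_X.1 hv))
  have hA' : A ⊆ W \ U := filter_subset _ _
  have hB' : B ⊆ W \ U := filter_subset _ _
  have hC' : C ⊆ W \ U := filter_subset _ _
  have hv1A : σ v1 ∈ A := by rw [hv1]; exact mem_filter.2 ⟨hi1, rfl⟩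
  have hv2B : σ v2 ∈ B := by rw [hv2]; exact mem_filter.2 ⟨hi2, rfl⟩
  have lA : ∀ i ∈ A, l i = l i1 := fun i hi => (mem_filter.1 hi).2
  have lB : ∀ i ∈ B, l i = l i2 := fun i hi => (mem_filter.1 hi).2
  have lC : ∀ i ∈ C, l i ≠ l i1 ∧ l i ≠ l i2 := fun i hi => (mem_filter.1 hi).2
  have star : ∀ (v : V) (P Q : Finset ℕ), P ⊆ W \ U → Q ⊆ W \ U → (∀ i ∈ P, ∀ j ∈ Q, l i ≠ l j) →
      σ v ∈ W \ U → (∀ j ∈ P ∪ Q, l (σ v) ≠ l j) → 1 + (chi G (X σ P) + chi G (X σ Q)) ≤ s := by
    intro v P Q hP hQ hPQ hv hvPQ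
    have hPQs : P ∪ Q ⊆ W \ U := union_subset hP hQ
    have h1 := (join_split (G := G) (S1 := {v}) (S2 := X σ (P ∪ Q)) (s := s)
      (fun a ha b hb => by
        rw [mem_singleton.1 ha]
        exact hjoin v b hv (hPQs (mem_X.1 hb)) (hvPQ _ (mem_X.1 hb))) (by
        refine hs v (mem_X.2 (hWU hv)) _ ?_ ?_
        · intro w hw
          rcases mem_union.1 hw with h | h
          · rw [mem_singleton.1 h]; exact mem_X.2 (hWU hv)
          · exact mem_X.2 (hWU (hPQs (mem_X.1 h)))
        · intro w hw
          rcases mem_union.1 hw with h | h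
          · exact Or.inl (mem_singleton.1 h)
          · exact Or.inr (hjoin v w hv (hPQs (mem_X.1 h)) (hvPQ _ (mem_X.1 h))))).2
    have h2 : 1 ≤ chi G ({v} : Finset V) := chi_pos (singleton_nonempty v)
    have h3 := (join_split (G := G) (S1 := X σ P) (S2 := X σ Q) (s := chi G (X σ (P ∪ Q)))
      (hj P Q hP hQ hPQ) (by rw [← X_union]; exact chi_spec _ _)).2
    omega
  have e1 := star v1 B C hB' hC' (fun i hi j hj h => (lC j hj).2 (by rw [← h]; exact lB i hi))
    (hA' hv1A) (by
      intro j hj h
      rw [lA _ hv1A] at h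
      rcases mem_union.1 hj with h' | h'
      · exact hne (h.trans (lB j h'))
      · exact (lC j h').1 h.symm)
  have e2 := star v2 A C hA' hC' (fun i hi j hj h => (lC j hj).1 (by rw [← h]; exact lA i hi))
    (hB' hv2B) (by
      intro j hj h
      rw [lB _ hv2B] at h
      rcases mem_union.1 hj with h' | h'
      · exact hne ((lA j h').symm.trans h.symm)
      · exact (lC j h').2 h.symm)
  -- a clique in the remaining parts
  have e3 : (C.image l).card ≤ chi G (X σ C) := by
    obtain ⟨c0, hc0, hc1⟩ := chi_spec G (X σ C)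
    refine le_trans ?_ hc1
    have hex : ∀ m ∈ C.image l, ∃ v, σ v ∈ C ∧ l (σ v) = m := by
      intro m hm
      obtain ⟨i, hi, rfl⟩ := mem_image.1 hm
      obtain ⟨v, hv⟩ := hW i (hCs hi)
      exact ⟨v, by rw [hv]; exact hi, by rw [hv]⟩
    have : Nonempty V := ⟨v1⟩
    choose! vv hvv1 hvv2 using hex
    apply card_le_card_of_injOn (fun m => c0 (vv m))
    · intro m hm
      exact mem_coe.2 (mem_image.2 ⟨vv m, mem_X.2 (hvv1 m hm), rfl⟩)
    · intro m hm m' hm' h
      by_contra hmm
      have hm1 : m ∈ C.image l := hm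
      have hm2 : m' ∈ C.image l := hm'
      refine hc0 _ (mem_X.2 (hvv1 m hm1)) _ (mem_X.2 (hvv1 m' hm2)) ?_ h
      apply hjoin _ _ (hC' (hvv1 m hm1)) (hC' (hvv1 m' hm2))
      rw [hvv2 m hm1, hvv2 m' hm2]
      exact hmm
  have e4 : ((W \ U).image l).card ≤ (C.image l).card + 2 := by
    have hsub : (W \ U).image l ⊆ insert (l i1) (insert (l i2) (C.image l)) := by
      intro m hm
      obtain ⟨i, hi, rfl⟩ := mem_image.1 hm
      by_cases h1 : l i = l i1
      · rw [h1]; exact mem_insert_self _ _
      by_cases h2 : l i = l i2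
      · rw [h2]; exact mem_insert_of_mem (mem_insert_self _ _)
      · exact mem_insert_of_mem (mem_insert_of_mem
          (mem_image.2 ⟨i, mem_filter.2 ⟨hi, h1, h2⟩, rfl⟩))
    refine (card_le_card hsub).trans ?_
    refine (card_insert_le _ _).trans ?_
    have := card_insert_le (l i2) (C.image l)
    omega
  have e5 : chi G (X σ W) ≤ chi G (X σ A) + chi G (X σ B) + chi G (X σ C) + U.card := by
    have hWe : W = ((A ∪ B) ∪ C) ∪ U := by
      ext i
      simp only [hA, hB, hC, mem_union, mem_filter, mem_sdiff]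
      constructor
      · intro hi
        by_cases hiU : i ∈ U
        · exact Or.inr hiU
        · left
          by_cases h1 : l i = l i1
          · exact Or.inl (Or.inl ⟨⟨hi, hiU⟩, h1⟩)
          by_cases h2 : l i = l i2
          · exact Or.inl (Or.inr ⟨⟨hi, hiU⟩, h2⟩)
          · exact Or.inr ⟨⟨hi, hiU⟩, h1, h2⟩
      · rintro (((h | h) | h) | h)
        · exact h.1.1
        · exact h.1.1
        · exact h.1.1
        · exact hU h
    have h1 : chi G (X σ W) ≤ chi G (X σ ((A ∪ B) ∪ C)) + chi G (X σ U) := by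
      conv_lhs => rw [hWe, X_union]
      exact chi_union _ _ _
    have h2 : chi G (X σ ((A ∪ B) ∪ C)) ≤ chi G (X σ (A ∪ B)) + chi G (X σ C) := by
      rw [X_union]; exact chi_union _ _ _
    have h3 : chi G (X σ (A ∪ B)) ≤ chi G (X σ A) + chi G (X σ B) := by
      rw [X_union]; exact chi_union _ _ _
    have h4 := chi_le_card hσ U
    omega
  omega

theorem Dl_of_matching [Nonempty V] {G : SimpleGraph V} {σ : V → ℕ}
    {W : Finset ℕ} (hW : ∀ i ∈ W, ∃ v, σ v = i) {d : ℕ} (h : 2 * d ≤ nu (Kp G σ) W + 1) :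
    Dl G σ W d := by
  obtain ⟨f, hf, hfm⟩ := nu_spec (Kp G σ) W
  have he := mv_even hf
  exact (Dl_match hW hf).mono (by omega)

/-- removing `m` rainbow independent triples -/
theorem triples [Nonempty V] {G : SimpleGraph V} {σ : V → ℕ} (hσ : ∀ u v, G.Adj u v → σ u ≠ σ v)
    {s : ℕ} : ∀ m : ℕ, ∀ W : Finset ℕ, (∀ i ∈ W, ∃ v, σ v = i) → Loc G σ W s →
      2 * s + 3 * m ≤ chi G (X σ W) + 1 → Dl G σ W ((W.card + m) / 2) := by
  classical
  intro m
  induction m with
  | zero =>
    intro W hW hs hm
    apply Dl_of_matching hW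
    rcases main2 hσ hW hs with h | h
    · omega
    · omega
  | succ m ih =>
    intro W hW hs hm
    obtain ⟨I, hI1, hI2, hI3, hI4⟩ := rainbow hσ hs 3 (Or.inr (by omega))
    have hJ : I.image σ ⊆ W := by
      intro i hi
      obtain ⟨v, hv, rfl⟩ := mem_image.1 hi
      exact mem_X.1 (hI1 hv)
    have hJc : (I.image σ).card = 3 := by
      rw [← hI2]; exact card_image_of_injOn (fun u hu v hv h => hI3 u hu v hv h)
    have hcd : (W \ I.image σ).card + 3 = W.card := by
      rw [← hJc]; exact card_sdiff_add_card_eq_card hJ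
    have hchi : chi G (X σ W) ≤ chi G (X σ (W \ I.image σ)) + 3 := by
      have e : X σ W = X σ (W \ I.image σ) ∪ X σ (I.image σ) := by
        rw [← X_union, sdiff_union_of_subset hJ]
      rw [e]
      refine (chi_union _ _ _).trans ?_
      have := chi_le_card hσ (I.image σ)
      omega
    have hd := ih (W \ I.image σ) (fun i hi => hW i (mem_sdiff.1 hi).1)
      (Loc_mono hs sdiff_subset) (by omega)
    have h3 := Dl_step hI1 (by omega) hI3 hI4 hd
    rw [hI2] at h3
    refine h3.mono ?_
    omega

/-- the base case `χ ≤ 2 s + 2` -/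
theorem base2 [Nonempty V] {G : SimpleGraph V} {σ : V → ℕ} (hσ : ∀ u v, G.Adj u v → σ u ≠ σ v)
    {s : ℕ} {W : Finset ℕ} (hW : ∀ i ∈ W, ∃ v, σ v = i) (hs : Loc G σ W s) {y : ℕ}
    (hy : y ≤ chi G (X σ W)) (hy2 : y ≤ 2 * s + 2) : Dl G σ W (y - s) := by
  by_cases h1 : y ≤ 2 * s + 1
  · exact (half hσ hW hs hy).mono (by omega)
  · have hy3 : y = 2 * s + 2 := by omega
    by_cases hopt : W.card ≤ chi G (X σ W)
    · by_cases hne : W.Nonempty
      · exact (optimal hσ hne hW hs hopt).mono (by
          have := chi_le_card hσ W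
          omega)
      · rw [not_nonempty_iff_eq_empty] at hne
        have := chi_le_card hσ W
        rw [hne] at this hy
        simp at this
        omega
    · refine (triples hσ 1 W hW hs (by omega)).mono ?_
      omega

/-- one step of the recursion -/
def F (s y : ℕ) : ℕ := y - (y + s - 1) / s

/-- the iterated bound -/
theorem iter2 [Nonempty V] {G : SimpleGraph V} {σ : V → ℕ} (hσ : ∀ u v, G.Adj u v → σ u ≠ σ v)
    {s : ℕ} (hs1 : 1 ≤ s) : ∀ k : ℕ, ∀ W : Finset ℕ, (∀ i ∈ W, ∃ v, σ v = i) → Loc G σ W s →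
      ∀ y, y ≤ chi G (X σ W) → (F s)^[k] y ≤ 2 * s + 2 → Dl G σ W (y - s - k) := by
  classical
  intro k
  induction k with
  | zero =>
    intro W hW hs y hy hk
    exact (base2 hσ hW hs hy (by simpa using hk)).mono (by omega)
  | succ k ih =>
    intro W hW hs y hy hk
    by_cases hys : y ≤ s + (k + 1)
    · exact (Dl_zero hσ hW).mono (by omega)
    push Not at hys
    rw [Function.iterate_succ_apply] at hk
    obtain ⟨r, hr⟩ : ∃ r, r = (y + s - 1) / s := ⟨_, rfl⟩
    have hr1 : (r - 1) * s < y := by
      have h1 : r * s ≤ y + s - 1 := by rw [hr]; exact Nat.div_mul_le_self _ _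
      have h2 : (r - 1) * s = r * s - s := by rw [Nat.sub_mul, one_mul]
      omega
    have hr2 : y ≤ r * s := by
      have h1 := Nat.lt_div_mul_add (a := y + s - 1) (b := s) (by omega)
      rw [← hr] at h1
      omega
    have hr0 : 1 ≤ r := by
      by_contra h
      have : r = 0 := by omega
      rw [this, Nat.zero_mul] at hr2
      omega
    obtain ⟨I, hI1, hI2, hI3, hI4⟩ := rainbow hσ hs r (Or.inr (lt_of_lt_of_le hr1 hy))
    have hJ : I.image σ ⊆ W := by
      intro i hi
      obtain ⟨v, hv, rfl⟩ := mem_image.1 hi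
      exact mem_X.1 (hI1 hv)
    have hJc : (I.image σ).card = r := by
      rw [← hI2]; exact card_image_of_injOn (fun u hu v hv h => hI3 u hu v hv h)
    have hchi : chi G (X σ W) ≤ chi G (X σ (W \ I.image σ)) + r := by
      have e : X σ W = X σ (W \ I.image σ) ∪ X σ (I.image σ) := by
        rw [← X_union, sdiff_union_of_subset hJ]
      rw [e]
      refine (chi_union _ _ _).trans ?_
      have := chi_le_card hσ (I.image σ)
      omega
    have hd := ih (W \ I.image σ) (fun i hi => hW i (mem_sdiff.1 hi).1)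
      (Loc_mono hs sdiff_subset) (F s y) (by unfold F; rw [← hr]; omega) hk
    have h3 := Dl_step hI1 (by omega) hI3 hI4 hd
    rw [hI2] at h3
    refine h3.mono ?_
    unfold F
    rw [← hr]
    omega

theorem F_le (s : ℕ) (k y : ℕ) : (F s)^[k] y ≤ y := by
  induction k generalizing y with
  | zero => simp
  | succ k ih =>
    rw [Function.iterate_succ_apply]
    exact (ih _).trans (Nat.sub_le _ _)

/-- the iterated bound in terms of the number of colours -/
theorem iter3 [Nonempty V] {G : SimpleGraph V} {σ : V → ℕ} (hσ : ∀ u v, G.Adj u v → σ u ≠ σ v)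
    {s : ℕ} (hs1 : 1 ≤ s) : ∀ k : ℕ, ∀ W : Finset ℕ, (∀ i ∈ W, ∃ v, σ v = i) → Loc G σ W s →
      ∀ y, y ≤ chi G (X σ W) → 2 * s ≤ (F s)^[k] y + 1 →
        Dl G σ W ((W.card + (y - (F s)^[k] y)) / 2 - k) := by
  classical
  intro k
  induction k with
  | zero =>
    intro W hW hs y hy hk
    apply Dl_of_matching hW
    simp only [Function.iterate_zero, id_eq] at hk ⊢
    rcases main2 hσ hW hs with h | h
    · omega
    · omega
  | succ k ih =>
    intro W hW hs y hy hk
    rw [Function.iterate_succ_apply] at hk ⊢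
    have hFle := F_le s k (F s y)
    obtain ⟨r, hr⟩ : ∃ r, r = (y + s - 1) / s := ⟨_, rfl⟩
    have hF : F s y = y - r := by unfold F; rw [← hr]
    have hr1 : (r - 1) * s < y := by
      have h1 : r * s ≤ y + s - 1 := by rw [hr]; exact Nat.div_mul_le_self _ _
      have h2 : (r - 1) * s = r * s - s := by rw [Nat.sub_mul, one_mul]
      omega
    have hr2 : y ≤ r * s := by
      have h1 := Nat.lt_div_mul_add (a := y + s - 1) (b := s) (by omega)
      rw [← hr] at h1
      omega
    have hr0 : 1 ≤ r := by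
      by_contra h
      have : r = 0 := by omega
      rw [this, Nat.zero_mul] at hr2
      omega
    obtain ⟨I, hI1, hI2, hI3, hI4⟩ := rainbow hσ hs r (Or.inr (lt_of_lt_of_le hr1 hy))
    have hJ : I.image σ ⊆ W := by
      intro i hi
      obtain ⟨v, hv, rfl⟩ := mem_image.1 hi
      exact mem_X.1 (hI1 hv)
    have hJc : (I.image σ).card = r := by
      rw [← hI2]; exact card_image_of_injOn (fun u hu v hv h => hI3 u hu v hv h)
    have hcd : (W \ I.image σ).card + r = W.card := by
      rw [← hJc]; exact card_sdiff_add_card_eq_card hJ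
    have hchi : chi G (X σ W) ≤ chi G (X σ (W \ I.image σ)) + r := by
      have e : X σ W = X σ (W \ I.image σ) ∪ X σ (I.image σ) := by
        rw [← X_union, sdiff_union_of_subset hJ]
      rw [e]
      refine (chi_union _ _ _).trans ?_
      have := chi_le_card hσ (I.image σ)
      omega
    have hd := ih (W \ I.image σ) (fun i hi => hW i (mem_sdiff.1 hi).1)
      (Loc_mono hs sdiff_subset) (F s y) (by rw [hF]; omega) hk
    have h3 := Dl_step hI1 (by omega) hI3 hI4 hd
    rw [hI2] at h3
    have h4 := chi_le_card hσ W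
    refine h3.mono ?_
    generalize (F s)^[k] (F s y) = z at *
    rw [hF] at *
    omega

end U447.CD
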