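import Mathlib
import Pool.Agent.U447.CDE

/-! Colourings with few more than `χ` colours. -/

namespace U447.CD

open Finset

set_option linter.unusedSectionVars false

variable {V : Type*} [Fintype V] [DecidableEq V]

/-- a proper colouring `c` of `S` with at most `χ` colours has, in every colour class that occurs,
a vertex which sees every other colour -/
theorem bvertex {G : SimpleGraph V} {S : Finset V} (c : V → ℕ)
    (hc : ∀ u ∈ S, ∀ v ∈ S, G.Adj u v → c u ≠ c v) (hopt : (S.image c).card ≤ chi G S) {i : ℕ}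
    (hi : i ∈ S.image c) : ∃ u ∈ S, c u = i ∧ ∀ m ∈ S.image c, m ≠ i →
      ∃ w ∈ S, c w = m ∧ G.Adj u w := by
  classical
  by_contra hcon
  push Not at hcon
  choose! j hj1 hj2 hj3 using hcon
  have hcc : CC G S ((S.image c).erase i).card := by
    refine ⟨fun v => if c v = i then j v else c v, ?_, ?_⟩
    · intro u hu v hv huv
      by_cases a : c u = i
      · by_cases b : c v = i
        · exact absurd (a.trans b.symm) (hc u hu v hv huv)
        · simp only [a, b, if_true, if_false]
          intro h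
          exact hj3 u hu a v hv h.symm huv
      · by_cases b : c v = i
        · simp only [a, b, if_true, if_false]
          intro h
          exact hj3 v hv b u hu h huv.symm
        · simp only [a, b, if_false]
          exact hc u hu v hv huv
    · apply card_le_card
      intro m hm
      obtain ⟨v, hv, rfl⟩ := mem_image.1 hm
      by_cases a : c v = i
      · simp only [a, if_true]
        exact mem_erase.2 ⟨hj2 v hv a, hj1 v hv a⟩
      · simp only [a, if_false]
        exact mem_erase.2 ⟨a, mem_image.2 ⟨v, hv, rfl⟩⟩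
  have h1 := chi_le hcc
  have h2 : ((S.image c).erase i).card + 1 = (S.image c).card := card_erase_add_one hi
  omega

theorem near {G : SimpleGraph V} {σ : V → ℕ} (hσ : ∀ u v, G.Adj u v → σ u ≠ σ v) {s : ℕ}
    (hs2 : 1 ≤ s) : ∀ n : ℕ, ∀ W : Finset ℕ, W.card = n → (∀ i ∈ W, ∃ v, σ v = i) →
      Loc G σ W s → ∃ T : Finset V, T.image σ = W ∧
        CC G T (s + (s - 1) * (W.card - chi G (X σ W))) := by
  classical
  intro n
  induction n using Nat.strong_induction_on with
  | _ n ih =>
  intro W hWn hW hs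
  by_cases hWe : W = ∅
  · exact ⟨∅, by simp [hWe], CC_empty G _⟩
  obtain ⟨a, ha⟩ := nonempty_iff_ne_empty.2 hWe
  obtain ⟨va, hva⟩ := hW a ha
  let sn : V → Finset ℕ := fun v => W.filter (fun j => ∃ u, σ u = j ∧ (u = v ∨ G.Adj v u))
  obtain ⟨v, hvX, hmax⟩ := exists_max_image (X σ W) (fun v => (sn v).card)
    ⟨va, mem_X.2 (by rw [hva]; exact ha)⟩
  have hvW : σ v ∈ W := mem_X.1 hvX
  obtain ⟨D, hD⟩ : ∃ D, D = sn v := ⟨_, rfl⟩
  have hDm : ∀ j, j ∈ D ↔ j ∈ W ∧ ∃ u, σ u = j ∧ (u = v ∨ G.Adj v u) := by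
    intro j; rw [hD]; simp [sn]
  have hDW : D ⊆ W := fun j hj => ((hDm j).1 hj).1
  have hvD : σ v ∈ D := (hDm _).2 ⟨hvW, v, rfl, Or.inl rfl⟩
  by_cases hDe : D = W
  · refine ⟨(X σ W).filter (fun u => u = v ∨ G.Adj v u), ?_, ?_⟩
    · ext j
      simp only [mem_image, mem_filter]
      constructor
      · rintro ⟨u, ⟨hu, _⟩, rfl⟩
        exact mem_X.1 hu
      · intro hj
        rw [← hDe] at hj
        obtain ⟨h1, u, rfl, h2⟩ := (hDm j).1 hj
        exact ⟨u, ⟨mem_X.2 h1, h2⟩, rfl⟩
    · exact (hs v hvX _ (filter_subset _ _) (fun u hu => (mem_filter.1 hu).2)).mono subset_rfl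
        (Nat.le_add_right _ _)
  set A := W \ D with hA
  have hAW : A ⊆ W := sdiff_subset
  have hAne : A.Nonempty := by
    rw [nonempty_iff_ne_empty]
    intro h
    exact hDe (subset_antisymm hDW (sdiff_eq_empty_iff_subset.1 h))
  have hAc : A.card + D.card = W.card := card_sdiff_add_card_eq_card hDW
  have hclaim : chi G (X σ W) + 1 ≤ chi G (X σ A) + D.card := by
    by_contra hcon
    push Not at hcon
    obtain ⟨cA, hcA1, hcA2⟩ := chi_spec G (X σ A)
    let c0 : V → ℕ := fun u => if σ u ∈ D then 2 * σ u else 2 * cA u + 1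
    have hc0D : ∀ u, σ u ∈ D → c0 u = 2 * σ u := fun u h => by simp [c0, h]
    have hc0A : ∀ u, σ u ∉ D → c0 u = 2 * cA u + 1 := fun u h => by simp [c0, h]
    have hprop : ∀ u ∈ X σ W, ∀ w ∈ X σ W, G.Adj u w → c0 u ≠ c0 w := by
      intro u hu w hw huw
      by_cases h1 : σ u ∈ D
      · by_cases h2 : σ w ∈ D
        · rw [hc0D u h1, hc0D w h2]
          have := hσ u w huw
          omega
        · rw [hc0D u h1, hc0A w h2]; omega
      · by_cases h2 : σ w ∈ D
        · rw [hc0A u h1, hc0D w h2]; omega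
        · rw [hc0A u h1, hc0A w h2]
          have := hcA1 u (mem_X.2 (mem_sdiff.2 ⟨mem_X.1 hu, h1⟩)) w
            (mem_X.2 (mem_sdiff.2 ⟨mem_X.1 hw, h2⟩)) huw
          omega
    have hcard : ((X σ W).image c0).card ≤ chi G (X σ W) := by
      have hsub : (X σ W).image c0 ⊆ D.image (fun i => 2 * i) ∪
          ((X σ A).image cA).image (fun i => 2 * i + 1) := by
        intro m hm
        obtain ⟨u, hu, rfl⟩ := mem_image.1 hm
        by_cases h1 : σ u ∈ D
        · rw [hc0D u h1]
          exact mem_union_left _ (mem_image.2 ⟨_, h1, rfl⟩)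
        · rw [hc0A u h1]
          exact mem_union_right _ (mem_image.2 ⟨_, mem_image.2 ⟨u,
            mem_X.2 (mem_sdiff.2 ⟨mem_X.1 hu, h1⟩), rfl⟩, rfl⟩)
      have h1 := card_le_card hsub
      have h2 := card_union_le (D.image (fun i => 2 * i))
        (((X σ A).image cA).image (fun i => 2 * i + 1))
      have h3 : (D.image (fun i => 2 * i)).card ≤ D.card := card_image_le
      have h4 : (((X σ A).image cA).image (fun i => 2 * i + 1)).card ≤
        ((X σ A).image cA).card := card_image_le
      omega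
    have hiv : 2 * σ v ∈ (X σ W).image c0 := mem_image.2 ⟨v, hvX, hc0D v hvD⟩
    obtain ⟨u, hu, hcu, hall⟩ := bvertex c0 hprop hcard hiv
    have huD : σ u = σ v := by
      by_cases h1 : σ u ∈ D
      · rw [hc0D u h1] at hcu; omega
      · rw [hc0A u h1] at hcu; omega
    obtain ⟨b, hb⟩ := hAne
    obtain ⟨x, hx⟩ := hW b (hAW hb)
    have hxD : σ x ∉ D := by rw [hx]; exact (mem_sdiff.1 hb).2
    obtain ⟨w, hw, hcw, huw⟩ := hall (2 * cA x + 1)
      (mem_image.2 ⟨x, mem_X.2 (by rw [hx]; exact hAW hb), hc0A x hxD⟩) (by omega)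
    have hwD : σ w ∉ D := by
      intro h
      rw [hc0D w h] at hcw
      omega
    have hsub : insert (σ w) D ⊆ sn u := by
      intro j hj
      simp only [sn, mem_filter]
      rcases mem_insert.1 hj with rfl | hj
      · exact ⟨mem_X.1 hw, w, rfl, Or.inr huw⟩
      · refine ⟨hDW hj, ?_⟩
        by_cases hji : j = σ v
        · exact ⟨u, by rw [huD, hji], Or.inl rfl⟩
        · obtain ⟨y, hy⟩ := hW j (hDW hj)
          obtain ⟨z, hz, hcz, huz⟩ := hall (2 * j)
            (mem_image.2 ⟨y, mem_X.2 (by rw [hy]; exact hDW hj), by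
              rw [hc0D y (by rw [hy]; exact hj), hy]⟩) (by omega)
          refine ⟨z, ?_, Or.inr huz⟩
          by_cases h1 : σ z ∈ D
          · rw [hc0D z h1] at hcz; omega
          · rw [hc0A z h1] at hcz; omega
    have h1 := card_le_card hsub
    rw [card_insert_of_notMem hwD] at h1
    have h2 : (sn u).card ≤ (sn v).card := hmax u hu
    rw [← hD] at h2
    omega
  have hAlt : A.card < n := by
    have : 0 < D.card := card_pos.2 ⟨_, hvD⟩
    omega
  obtain ⟨TA, hTA1, hTA2⟩ := ih _ hAlt A rfl (fun i hi => hW i (hAW hi)) (Loc_mono hs hAW)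
  have hTAne : TA.Nonempty := by
    obtain ⟨b, hb⟩ := hAne
    rw [← hTA1] at hb
    obtain ⟨x, hx, _⟩ := mem_image.1 hb
    exact ⟨x, hx⟩
  have hAchi := chi_le_card hσ A
  -- v is not adjacent to TA
  have hnon : ∀ x ∈ TA, ¬ G.Adj v x ∧ x ≠ v := by
    intro x hx
    have hxA : σ x ∈ A := by rw [← hTA1]; exact mem_image.2 ⟨x, hx, rfl⟩
    have hxD := (mem_sdiff.1 hxA).2
    constructor
    · intro h
      exact hxD ((hDm _).2 ⟨hAW hxA, x, rfl, Or.inr h⟩)
    · rintro rfl
      exact hxD hvD
  have hcc1 : CC G (insert v TA) (s + (s - 1) * (A.card - chi G (X σ A))) := by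
    obtain ⟨c, hc1, hc2⟩ := hTA2
    obtain ⟨x0, hx0⟩ := hTAne
    refine ⟨fun u => if u = v then c x0 else c u, ?_, ?_⟩
    · intro p hp q hq hpq
      by_cases h1 : p = v
      · subst h1
        rcases mem_insert.1 hq with h2 | h2
        · rw [h2] at hpq; exact absurd hpq (G.loopless.irrefl _)
        · exact absurd hpq (hnon q h2).1
      · by_cases h2 : q = v
        · subst h2
          rcases mem_insert.1 hp with h3 | h3
          · exact absurd h3 h1
          · exact absurd hpq.symm (hnon p h3).1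
        · simp only [h1, h2, if_false]
          have hp' : p ∈ TA := by
            rcases mem_insert.1 hp with h | h
            · exact absurd h h1
            · exact h
          have hq' : q ∈ TA := by
            rcases mem_insert.1 hq with h | h
            · exact absurd h h2
            · exact h
          exact hc1 p hp' q hq' hpq
    · refine (card_le_card ?_).trans hc2
      intro m hm
      obtain ⟨u, hu, rfl⟩ := mem_image.1 hm
      by_cases h1 : u = v
      · simp only [h1, if_true]
        exact mem_image.2 ⟨x0, hx0, rfl⟩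
      · simp only [h1, if_false]
        rcases mem_insert.1 hu with h | h
        · exact absurd h h1
        · exact mem_image.2 ⟨u, h, rfl⟩
  set S0 := (X σ W).filter (fun w => G.Adj v w) with hS0
  have hcc2 : CC G S0 (s - 1) := by
    have h1 := join_split (G := G) (S1 := S0) (S2 := {v}) (s := s)
      (fun p hp q hq => by
        rw [mem_singleton.1 hq]; exact (mem_filter.1 hp).2.symm) (by
        refine hs v hvX _ ?_ ?_
        · intro w hw
          rcases mem_union.1 hw with h | h
          · exact (mem_filter.1 h).1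
          · rw [mem_singleton.1 h]; exact hvX
        · intro w hw
          rcases mem_union.1 hw with h | h
          · exact Or.inr (mem_filter.1 h).2
          · exact Or.inl (mem_singleton.1 h))
    have h2 : 1 ≤ chi G ({v} : Finset V) := chi_pos (singleton_nonempty v)
    exact h1.1.mono subset_rfl (by omega)
  refine ⟨insert v TA ∪ S0, ?_, (hcc1.union hcc2).mono subset_rfl ?_⟩
  · ext j
    simp only [mem_image, mem_union, mem_insert]
    constructor
    · rintro ⟨u, ((rfl | hu) | hu), rfl⟩
      · exact hvW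
      · have : σ u ∈ A := by rw [← hTA1]; exact mem_image.2 ⟨u, hu, rfl⟩
        exact hAW this
      · exact mem_X.1 (mem_filter.1 hu).1
    · intro hj
      by_cases hjD : j ∈ D
      · obtain ⟨h1, u, rfl, h2⟩ := (hDm j).1 hjD
        rcases h2 with rfl | h2
        · exact ⟨u, Or.inl (Or.inl rfl), rfl⟩
        · exact ⟨u, Or.inr (mem_filter.2 ⟨mem_X.2 h1, h2⟩), rfl⟩
      · have hjA : j ∈ A := mem_sdiff.2 ⟨hj, hjD⟩
        rw [← hTA1] at hjA
        obtain ⟨u, hu, rfl⟩ := mem_image.1 hjA
        exact ⟨u, Or.inl (Or.inr hu), rfl⟩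
  · have h1 : A.card - chi G (X σ A) + 1 ≤ W.card - chi G (X σ W) := by omega
    have h2 : (s - 1) * (A.card - chi G (X σ A) + 1) ≤ (s - 1) * (W.card - chi G (X σ W)) :=
      Nat.mul_le_mul_left _ h1
    rw [Nat.mul_add, mul_one] at h2
    omega

theorem Dl_near {G : SimpleGraph V} {σ : V → ℕ} (hσ : ∀ u v, G.Adj u v → σ u ≠ σ v) {s : ℕ}
    (hs2 : 1 ≤ s) {W : Finset ℕ} (hW : ∀ i ∈ W, ∃ v, σ v = i) (hs : Loc G σ W s) :
    Dl G σ W (W.card - (s + (s - 1) * (W.card - chi G (X σ W)))) := by
  by_cases h : s + (s - 1) * (W.card - chi G (X σ W)) ≤ W.card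
  · obtain ⟨T, h1, h2⟩ := near hσ hs2 _ W rfl hW hs
    exact ⟨T, h1, _, h2, by omega⟩
  · exact (Dl_zero hσ hW).mono (by omega)

end U447.CD
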