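import Mathlib
import Pool.Agent.U447.CDN

/-!
# Chromatic discrepancy: definitions and transfer lemmas

For a proper colouring `σ` of a graph `G`, the discrepancy `φ_σ(G)` is the maximum over the
nonempty vertex sets `H` of `|σ(H)| - χ(G[H])`, and `φ(G)` is the minimum over all proper
colourings.
-/

namespace Pool.Agent.U447.CDP

open Finset

set_option linter.unusedSectionVars false

variable {V : Type} [Fintype V] [DecidableEq V]

/-- The chromatic number of the (finite) graph `G`, as a natural number. -/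
noncomputable def chr {U : Type} (G : SimpleGraph U) : ℕ := G.chromaticNumber.toNat

/-- `G` is locally `s`-colourable: for every vertex `v` the subgraph induced by `v` together with
its neighbours is `s`-colourable. -/
def LocallyColorable (G : SimpleGraph V) (s : ℕ) : Prop :=
  ∀ v, (G.induce (insert v (G.neighborSet v))).Colorable s

/-- The discrepancy of the proper colouring `σ` of `G` (colours are natural numbers): the largest
value of `|σ(V(H))| - χ(H)` over the nonempty induced subgraphs `H` of `G`. -/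
noncomputable def disc (G : SimpleGraph V) (σ : G.Coloring ℕ) : ℕ :=
  sSup {d | ∃ H : Finset V, H.Nonempty ∧ d = (H.image σ).card - chr (G.induce (H : Set V))}

/-- The chromatic discrepancy of `G`: the minimum of `disc G σ` over all proper colourings. -/
noncomputable def phi (G : SimpleGraph V) : ℕ := sInf {d | ∃ σ : G.Coloring ℕ, d = disc G σ}

/-- One step of the recursion: `y ↦ y - ⌈y / s⌉`. -/
def step (s y : ℕ) : ℕ := y - (y + s - 1) / s

open U447.CD

theorem chr_le_of_CC {G : SimpleGraph V} {T : Finset V} {t : ℕ} (h : CC G T t) :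
    (G.induce (T : Set V)).Colorable t := by
  obtain ⟨c, h1, h2⟩ := h
  let C : (G.induce (T : Set V)).Coloring {x // x ∈ T.image c} :=
    SimpleGraph.Coloring.mk (fun v => ⟨c v.1, mem_image.2 ⟨v.1, v.2, rfl⟩⟩) (by
      intro u v huv h
      exact h1 u.1 u.2 v.1 v.2 huv (congrArg Subtype.val h))
  have h3 : (G.induce (T : Set V)).Colorable (Fintype.card {x // x ∈ T.image c}) := C.colorable
  rw [Fintype.card_coe] at h3
  exact h3.mono h2

theorem toNat_le {U : Type} {G : SimpleGraph U} {n : ℕ} (h : G.Colorable n) : chr G ≤ n := by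
  unfold chr
  exact ENat.toNat_le_of_le_natCast (SimpleGraph.chromaticNumber_le_iff_colorable.2 h)

theorem chr_le_chi (G : SimpleGraph V) : chr G ≤ chi G univ := by
  obtain ⟨c, h1, h2⟩ := chi_spec G univ
  apply toNat_le
  let C : G.Coloring {x // x ∈ (univ : Finset V).image c} :=
    SimpleGraph.Coloring.mk (fun v => ⟨c v, mem_image.2 ⟨v, mem_univ _, rfl⟩⟩) (by
      intro u v huv h
      exact h1 u (mem_univ _) v (mem_univ _) huv (congrArg Subtype.val h))
  have h3 : G.Colorable (Fintype.card {x // x ∈ (univ : Finset V).image c}) := C.colorable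
  rw [Fintype.card_coe] at h3
  exact h3.mono h2

theorem loc_of {G : SimpleGraph V} {s : ℕ} (h : LocallyColorable G s) (σ : V → ℕ)
    (W : Finset ℕ) : Loc G σ W s := by
  classical
  intro v _ S _ hS
  obtain ⟨C⟩ := h v
  have hmem : ∀ u ∈ S, u ∈ insert v (G.neighborSet v) := by
    intro u hu
    rcases hS u hu with h | h
    · exact Or.inl h
    · exact Or.inr h
  refine ⟨fun w => if hw : w ∈ insert v (G.neighborSet v) then (C ⟨w, hw⟩ : ℕ) else 0, ?_, ?_⟩
  · intro a ha b hb hab
    simp only [hmem a ha, hmem b hb, dif_pos]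
    intro h2
    have h3 : C ⟨a, hmem a ha⟩ = C ⟨b, hmem b hb⟩ := Fin.ext h2
    exact C.valid (v := ⟨a, hmem a ha⟩) (w := ⟨b, hmem b hb⟩) hab h3
  · have : S.image (fun w => if hw : w ∈ insert v (G.neighborSet v) then (C ⟨w, hw⟩ : ℕ) else 0) ⊆
        range s := by
      intro i hi
      obtain ⟨w, hw, rfl⟩ := mem_image.1 hi
      simp only [hmem w hw, dif_pos]
      exact mem_range.2 (C ⟨w, hmem w hw⟩).2
    exact (card_le_card this).trans (by simp)

theorem disc_bdd (G : SimpleGraph V) (σ : G.Coloring ℕ) :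
    BddAbove {d | ∃ H : Finset V, H.Nonempty ∧
      d = (H.image σ).card - chr (G.induce (H : Set V))} := by
  refine ⟨Fintype.card V, ?_⟩
  rintro d ⟨H, _, rfl⟩
  exact (Nat.sub_le _ _).trans (card_image_le.trans (card_le_univ H))

theorem le_disc [Nonempty V] {G : SimpleGraph V} (σ : G.Coloring ℕ) {d : ℕ}
    (h : Dl G σ (univ.image σ) d) : d ≤ disc G σ := by
  obtain ⟨T, h1, t, h2, h3⟩ := h
  have hT : T.Nonempty := by
    rw [nonempty_iff_ne_empty]
    rintro rfl
    obtain ⟨v⟩ := ‹Nonempty V›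
    have : σ v ∈ univ.image σ := mem_image.2 ⟨v, mem_univ _, rfl⟩
    rw [← h1] at this
    simp at this
  have h4 := toNat_le (chr_le_of_CC h2)
  refine le_trans ?_ (le_csSup (disc_bdd G σ) ⟨T, hT, rfl⟩)
  rw [h1]
  omega

theorem le_phi {G : SimpleGraph V} {d : ℕ} (h : ∀ σ : G.Coloring ℕ, d ≤ disc G σ) :
    d ≤ phi G := by
  unfold phi
  apply le_csInf
  · obtain ⟨e⟩ := Fintype.truncEquivFin V |>.nonempty
    let C : G.Coloring ℕ := SimpleGraph.Coloring.mk (fun v => (e v : ℕ)) (by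
      intro u v huv h
      exact huv.ne (e.injective (Fin.ext h)))
    exact ⟨_, C, rfl⟩
  · rintro b ⟨σ, rfl⟩
    exact h σ

theorem X_univ (σ : V → ℕ) : X σ (univ.image σ) = univ := by
  ext v
  simp [mem_X]

theorem step_real (s : ℕ) (hs : 1 ≤ s) (k : ℕ) (y : ℕ) :
    ((((step s)^[k] y : ℕ)) : ℝ) ≤ (y : ℝ) * (1 - 1 / (s : ℝ)) ^ k := by
  have hs' : (0 : ℝ) < s := by exact_mod_cast hs
  have h0 : (0 : ℝ) ≤ 1 - 1 / (s : ℝ) := by
    rw [sub_nonneg, div_le_one hs']
    exact_mod_cast hs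
  induction k generalizing y with
  | zero => simp
  | succ k ih =>
    rw [Function.iterate_succ_apply]
    refine (ih (step s y)).trans ?_
    have h1 : ((step s y : ℕ) : ℝ) ≤ (y : ℝ) * (1 - 1 / (s : ℝ)) := by
      obtain ⟨r, hr⟩ : ∃ r, r = (y + s - 1) / s := ⟨_, rfl⟩
      have hr2 : y ≤ r * s := by
        have h1 := Nat.lt_div_mul_add (a := y + s - 1) (b := s) (by omega)
        rw [← hr] at h1
        omega
      have hry : r ≤ y := by
        rw [hr]
        rw [Nat.div_le_iff_le_mul_add_pred (by omega)]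
        have : y ≤ s * y := Nat.le_mul_of_pos_left y (by omega)
        omega
      unfold step
      rw [← hr, Nat.cast_sub hry]
      have h2 : (y : ℝ) ≤ r * s := by exact_mod_cast hr2
      have h3 : (y : ℝ) / s ≤ r := by rwa [div_le_iff₀ hs']
      have h4 : (y : ℝ) * (1 - 1 / (s : ℝ)) = y - y / s := by ring
      rw [h4]
      linarith
    calc ((step s y : ℕ) : ℝ) * (1 - 1 / (s : ℝ)) ^ k
        ≤ ((y : ℝ) * (1 - 1 / (s : ℝ))) * (1 - 1 / (s : ℝ)) ^ k :=
          mul_le_mul_of_nonneg_right h1 (pow_nonneg h0 k)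
      _ = (y : ℝ) * (1 - 1 / (s : ℝ)) ^ (k + 1) := by ring

theorem step_log (s : ℕ) (hs : 1 ≤ s) (x : ℕ) :
    (step s)^[⌈(s : ℝ) * Real.log ((x : ℝ) / (2 * s + 2))⌉₊] x ≤ 2 * s + 2 := by
  set k := ⌈(s : ℝ) * Real.log ((x : ℝ) / (2 * s + 2))⌉₊ with hk
  have hs' : (0 : ℝ) < s := by exact_mod_cast hs
  have h0 : (0 : ℝ) ≤ 1 - 1 / (s : ℝ) := by
    rw [sub_nonneg, div_le_one hs']
    exact_mod_cast hs
  have h1 := step_real s hs k x
  have hkr : (s : ℝ) * Real.log ((x : ℝ) / (2 * s + 2)) ≤ k := Nat.le_ceil _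
  by_cases hx : x = 0
  · have : ((((step s)^[k] x : ℕ)) : ℝ) ≤ 0 := by simpa [hx] using h1
    have h2 : (step s)^[k] x = 0 := by
      have h3 : ((((step s)^[k] x : ℕ)) : ℝ) = 0 := le_antisymm this (Nat.cast_nonneg _)
      exact_mod_cast h3
    omega
  have hx' : (0 : ℝ) < x := by exact_mod_cast Nat.pos_of_ne_zero hx
  have hd : (0 : ℝ) < 2 * (s : ℝ) + 2 := by positivity
  have h2 : (1 - 1 / (s : ℝ)) ^ k ≤ Real.exp (-((k : ℝ) / s)) := by
    have h3 : 1 - 1 / (s : ℝ) ≤ Real.exp (-(1 / (s : ℝ))) := by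
      have := Real.add_one_le_exp (-(1 / (s : ℝ)))
      linarith
    calc (1 - 1 / (s : ℝ)) ^ k ≤ (Real.exp (-(1 / (s : ℝ)))) ^ k := pow_le_pow_left₀ h0 h3 k
      _ = Real.exp (-((k : ℝ) / s)) := by
          rw [← Real.exp_nat_mul]
          congr 1
          ring
  have h4 : Real.exp (-((k : ℝ) / s)) ≤ (2 * s + 2) / x := by
    have h5 : Real.log ((x : ℝ) / (2 * s + 2)) ≤ (k : ℝ) / s := by
      rw [le_div_iff₀ hs']
      linarith
    calc Real.exp (-((k : ℝ) / s)) ≤ Real.exp (-Real.log ((x : ℝ) / (2 * s + 2))) :=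
          Real.exp_le_exp.2 (by linarith)
      _ = (2 * s + 2) / x := by
          rw [Real.exp_neg, Real.exp_log (by positivity), inv_div]
  have h6 : ((((step s)^[k] x : ℕ)) : ℝ) ≤ 2 * s + 2 := by
    calc ((((step s)^[k] x : ℕ)) : ℝ) ≤ (x : ℝ) * (1 - 1 / (s : ℝ)) ^ k := h1
      _ ≤ (x : ℝ) * ((2 * s + 2) / x) :=
          mul_le_mul_of_nonneg_left (h2.trans h4) hx'.le
      _ = 2 * s + 2 := by field_simp
  exact_mod_cast h6

/-- the facts about a locally `s`-colourable graph used in both results -/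
theorem facts [Nonempty V] {G : SimpleGraph V} {s : ℕ} (hG : LocallyColorable G s)
    (σ : G.Coloring ℕ) :
    (∀ u v, G.Adj u v → σ u ≠ σ v) ∧ (∀ i ∈ univ.image σ, ∃ v, σ v = i) ∧
    Loc G σ (univ.image σ) s ∧ chr G ≤ chi G (X σ (univ.image σ)) := by
  refine ⟨fun u v h => σ.valid h, ?_, loc_of hG _ _, ?_⟩
  · intro i hi
    obtain ⟨v, _, rfl⟩ := mem_image.1 hi
    exact ⟨v, rfl⟩
  · rw [X_univ]
    exact chr_le_chi G

end Pool.Agent.U447.CDP
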