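import Mathlib
import Pool.Agent.MPd14d18.Star

set_option autoImplicit false

namespace Pool.Agent.U447.KS

open Finset

/-- degeneracy as in the frozen statement -/
def Dg {V : Type} (G : SimpleGraph V) (m : ℕ) : Prop :=
  ∀ S : Finset V, S.Nonempty →
    ∃ v ∈ S, ∀ T : Finset V, T ⊆ S → (∀ w ∈ T, G.Adj v w) → T.card ≤ m

open Classical in
theorem dsum {V : Type} {G : SimpleGraph V} {m : ℕ} (h : Dg G m) :
    ∀ (k : ℕ) (S : Finset V), S.card = m + k →
      ∑ u ∈ S, (S.filter (fun w => G.Adj u w)).card + m * (m + 1) ≤ 2 * m * (m + k) := by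
  intro k
  induction k with
  | zero =>
    intro S hS
    have h1 : ∀ u ∈ S, (S.filter (fun w => G.Adj u w)).card ≤ m - 1 := by
      intro u hu
      have h2 : S.filter (fun w => G.Adj u w) ⊆ S.erase u := by
        intro w hw
        rw [mem_filter] at hw
        rw [mem_erase]
        exact ⟨fun h => (G.ne_of_adj hw.2) h.symm, hw.1⟩
      have h3 := card_le_card h2
      rw [card_erase_of_mem hu, hS] at h3
      simpa using h3
    have h2 := Finset.sum_le_card_nsmul S _ _ h1
    rw [hS, smul_eq_mul] at h2
    rcases Nat.eq_zero_or_pos m with rfl | hm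
    · simpa using h2
    · obtain ⟨q, rfl⟩ : ∃ q, m = q + 1 := ⟨m - 1, by omega⟩
      simp only [Nat.add_sub_cancel] at h2
      nlinarith
  | succ k ih =>
    intro S hS
    have hne : S.Nonempty := by
      rw [← card_pos, hS]; omega
    obtain ⟨v, hv, hmin⟩ := h S hne
    have hd : (S.filter (fun w => G.Adj v w)).card ≤ m :=
      hmin _ (filter_subset _ _) (fun w hw => (mem_filter.1 hw).2)
    have hcard : (S.erase v).card = m + k := by
      rw [card_erase_of_mem hv, hS]; omega
    have h1 := ih (S.erase v) hcard
    have h2 : ∀ u ∈ S.erase v, (S.filter (fun w => G.Adj u w)).card =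
        ((S.erase v).filter (fun w => G.Adj u w)).card + (if G.Adj u v then 1 else 0) := by
      intro u hu
      rw [filter_erase]
      by_cases huv : G.Adj u v
      · rw [if_pos huv, card_erase_add_one]
        rw [mem_filter]; exact ⟨hv, huv⟩
      · rw [if_neg huv, erase_eq_of_notMem, add_zero]
        rw [mem_filter]; exact fun h => huv h.2
    have h3 : ∑ u ∈ S.erase v, (if G.Adj u v then 1 else 0) =
        (S.filter (fun w => G.Adj v w)).card := by
      rw [← Finset.card_filter]
      congr 1
      ext w
      simp only [mem_filter, mem_erase]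
      constructor
      · rintro ⟨⟨_, h1⟩, h2⟩; exact ⟨h1, h2.symm⟩
      · rintro ⟨h1, h2⟩; exact ⟨⟨(G.ne_of_adj h2).symm, h1⟩, h2.symm⟩
    rw [← Finset.add_sum_erase S _ hv, Finset.sum_congr rfl h2, Finset.sum_add_distrib, h3]
    have h4 : 2 * m * (m + (k + 1)) = 2 * m * (m + k) + 2 * m := by ring
    rw [h4]
    omega

theorem sq_sum {s : ℕ} (m : Fin s → ℕ) :
    (∑ i, m i) * (∑ i, m i) = ∑ i, m i * m i + 2 * ∑ i, ∑ j ∈ Ioi i, m i * m j := by
  classical
  have h1 : (∑ i, m i) * (∑ i, m i) = ∑ i, ∑ j, m i * m j := by
    rw [Finset.sum_mul_sum]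
  have h2 : ∀ i : Fin s, ∑ j, m i * m j =
      m i * m i + ∑ j ∈ Ioi i, m i * m j + ∑ j ∈ Iio i, m i * m j := by
    intro i
    have hu : (univ : Finset (Fin s)) = {i} ∪ Ioi i ∪ Iio i := by
      ext j
      simp only [mem_univ, mem_union, mem_singleton, mem_Ioi, mem_Iio, true_iff]
      rcases lt_trichotomy i j with h | h | h
      · exact Or.inl (Or.inr h)
      · exact Or.inl (Or.inl h.symm)
      · exact Or.inr h
    rw [hu, sum_union, sum_union, sum_singleton]
    · rw [disjoint_singleton_left, mem_Ioi]; exact lt_irrefl i
    · rw [disjoint_left]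
      intro j hj
      rw [mem_union, mem_singleton, mem_Ioi] at hj
      rw [mem_Iio]
      rcases hj with rfl | hj
      · exact lt_irrefl _
      · exact fun h => lt_asymm h hj
  have h3 : ∑ i, ∑ j ∈ Iio i, m i * m j = ∑ i, ∑ j ∈ Ioi i, m i * m j := by
    rw [Finset.sum_comm' (s := univ) (t := fun i : Fin s => Iio i) (t' := univ)
      (s' := fun j : Fin s => Ioi j) (by
        intro x y
        simp only [mem_univ, mem_Iio, mem_Ioi, true_and, and_true])]
    exact Finset.sum_congr rfl fun i _ => Finset.sum_congr rfl fun j _ => mul_comm _ _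
  rw [h1, Finset.sum_congr rfl (fun i _ => h2 i), Finset.sum_add_distrib, Finset.sum_add_distrib,
    h3]
  ring

open Classical in
/-- half of the non-fixed points -/
theorem half_card {V : Type} [Fintype V] (σ : V → V) (hσ : ∀ v, σ (σ v) = v) (e : V → ℕ)
    (he : Function.Injective e) :
    (univ.filter (fun v => σ v ≠ v)).card = 2 * (univ.filter (fun v => e (σ v) < e v)).card := by
  classical
  have h1 : univ.filter (fun v => σ v ≠ v) =
      univ.filter (fun v => e (σ v) < e v) ∪ univ.filter (fun v => e v < e (σ v)) := by
    ext v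
    simp only [mem_filter, mem_univ, true_and, mem_union]
    constructor
    · intro h
      have h2 : e (σ v) ≠ e v := fun h3 => h (he h3)
      omega
    · rintro (h | h) h2
      · rw [h2] at h; exact lt_irrefl _ h
      · rw [h2] at h; exact lt_irrefl _ h
  have h2 : (univ.filter (fun v => e v < e (σ v))).card =
      (univ.filter (fun v => e (σ v) < e v)).card := by
    refine card_bij (fun v _ => σ v) ?_ ?_ ?_
    · intro v hv
      simp only [mem_filter, mem_univ, true_and] at hv ⊢
      rw [hσ]; exact hv
    · intro a _ b _ hab
      have := congrArg σ hab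
      rwa [hσ, hσ] at this
    · intro b hb
      simp only [mem_filter, mem_univ, true_and] at hb
      refine ⟨σ b, ?_, hσ b⟩
      simp only [mem_filter, mem_univ, true_and]
      rw [hσ]; exact hb
  rw [h1, card_union_of_disjoint, h2]
  · ring
  · rw [disjoint_left]
    intro v hv hv'
    simp only [mem_filter, mem_univ, true_and] at hv hv'
    omega

open Classical in
theorem match_color {V : Type} [Fintype V] (U : SimpleGraph V) (σ : V → V)
    (hσ : ∀ v, σ (σ v) = v) (hU : ∀ v, σ v ≠ v → ¬ U.Adj v (σ v)) (f : ℕ)
    (hcard : 2 * Fintype.card V ≤ 2 * f + (univ.filter (fun v => σ v ≠ v)).card) :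
    U.Colorable f := by
  classical
  let e : V → ℕ := fun v => (Fintype.equivFin V v : ℕ)
  have he : Function.Injective e := fun a b h => (Fintype.equivFin V).injective (Fin.ext h)
  have hhalf := half_card σ hσ e he
  have hR : (univ.filter (fun v => ¬ e (σ v) < e v)).card ≤ f := by
    have h1 := Finset.card_filter_add_card_filter_not (s := (univ : Finset V))
      (fun v => e (σ v) < e v)
    rw [card_univ] at h1
    omega
  have hmem : ∀ v, (if e (σ v) < e v then σ v else v) ∈
      univ.filter (fun v => ¬ e (σ v) < e v) := by
    intro v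
    rw [mem_filter]
    refine ⟨mem_univ _, ?_⟩
    split_ifs with h
    · rw [hσ]; omega
    · exact h
  have hC : U.Coloring {v // v ∈ univ.filter (fun v => ¬ e (σ v) < e v)} :=
    SimpleGraph.Coloring.mk (fun v => ⟨if e (σ v) < e v then σ v else v, hmem v⟩) (by
      intro u w huw heq
      have h1 : (if e (σ u) < e u then σ u else u) = (if e (σ w) < e w then σ w else w) :=
        congrArg Subtype.val heq
      have hne := U.ne_of_adj huw
      split_ifs at h1 with h2 h3 h3
      · exact hne (by rw [← hσ u, h1, hσ])
      · subst h1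
        by_cases h4 : σ u = u
        · exact hne h4.symm
        · exact hU u h4 huw
      · subst h1
        by_cases h4 : σ w = w
        · exact hne h4
        · exact hU w h4 huw.symm
      · exact hne h1)
  have h2 := hC.colorable
  rw [Fintype.card_coe] at h2
  exact h2.mono hR

theorem remove_vertex {V : Type} [Fintype V] [DecidableEq V] (U : SimpleGraph V)
    [DecidableRel U.Adj] (f : ℕ) (v : V)
    (hv : U.degree v < f)
    (h : (U.comap (Subtype.val : {x // x ≠ v} → V)).Colorable f) : U.Colorable f := by
  classical
  obtain ⟨C⟩ := h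
  let g : V → Fin f := fun x => if hx : x ≠ v then C ⟨x, hx⟩ else ⟨0, by omega⟩
  have hlt : ((U.neighborFinset v).image g).card < (univ : Finset (Fin f)).card := by
    refine lt_of_le_of_lt Finset.card_image_le ?_
    rw [SimpleGraph.card_neighborFinset_eq_degree, card_univ, Fintype.card_fin]
    exact hv
  obtain ⟨c, _, hc⟩ := Finset.exists_mem_notMem_of_card_lt_card hlt
  refine ⟨SimpleGraph.Coloring.mk (fun x => if x = v then c else g x) ?_⟩
  intro x y hxy
  by_cases hx : x = v
  · have hy : y ≠ v := fun hy => U.ne_of_adj hxy (hx.trans hy.symm)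
    rw [if_pos hx, if_neg hy]
    intro heq
    apply hc
    rw [mem_image]
    exact ⟨y, (U.mem_neighborFinset v y).2 (hx ▸ hxy), heq.symm⟩
  · by_cases hy : y = v
    · rw [if_neg hx, if_pos hy]
      intro heq
      apply hc
      rw [mem_image]
      exact ⟨x, (U.mem_neighborFinset v x).2 (hy ▸ hxy.symm), heq⟩
    · rw [if_neg hx, if_neg hy]
      simp only [g, dif_pos (show x ≠ v from hx), dif_pos (show y ≠ v from hy)]
      exact C.valid (v := ⟨x, hx⟩) (w := ⟨y, hy⟩) hxy

theorem Dg.comap {V : Type} {G : SimpleGraph V} {m : ℕ} (h : Dg G m) (v : V) :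
    Dg (G.comap (Subtype.val : {x // x ≠ v} → V)) m := by
  classical
  intro S hS
  obtain ⟨w, hw, hT⟩ := h (S.map ⟨Subtype.val, Subtype.val_injective⟩) (by simpa using hS)
  rw [mem_map] at hw
  obtain ⟨w', hw', rfl⟩ := hw
  refine ⟨w', hw', fun T hTS hadj => ?_⟩
  have := hT (T.map ⟨Subtype.val, Subtype.val_injective⟩) (map_subset_map.2 hTS) (by
    intro x hx
    rw [mem_map] at hx
    obtain ⟨x', hx', rfl⟩ := hx
    exact hadj x' hx')
  rwa [card_map] at this

theorem key {s : ℕ} (m : Fin s → ℕ) (f r : ℕ) (hf : f = ∑ i, m i + r)
    (hr : 2 * (∑ i, ∑ j ∈ Ioi i, m i * m j) < r * (r + 1)) :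
    ∀ (n : ℕ) (V : Type) [Fintype V] (G : Fin s → SimpleGraph V), Fintype.card V = n →
      (∀ i, Dg (G i) (m i)) → n + 2 * ∑ i, m i ≤ 3 * f → (⨆ i, G i).Colorable f := by
  classical
  intro n
  induction n with
  | zero =>
    intro V _ G hn _ _
    have : IsEmpty V := Fintype.card_eq_zero_iff.1 hn
    exact ⟨SimpleGraph.Coloring.mk (fun v => (this.false v).elim) (fun {v} => (this.false v).elim)⟩
  | succ n ih =>
    intro V _ G hn hD hle
    by_cases hdeg : ∃ v, (⨆ i, G i).degree v < f
    · obtain ⟨v, hv⟩ := hdeg
      refine remove_vertex _ f v hv ?_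
      have h1 := ih {x // x ≠ v} (fun i => (G i).comap Subtype.val) (by
        rw [Fintype.card_subtype_compl]; simp [hn]) (fun i => (hD i).comap v) (by omega)
      have h2 : (⨆ i, G i).comap (Subtype.val : {x // x ≠ v} → V) =
          ⨆ i, (G i).comap Subtype.val := by
        ext x y
        simp [SimpleGraph.iSup_adj]
      rw [h2]; exact h1
    · push Not at hdeg
      by_cases hnf : n + 1 ≤ f
      · exact ((⨆ i, G i).colorable_of_fintype).mono (by rw [hn]; exact hnf)
      · obtain ⟨p, hp⟩ : ∃ p, n + 1 = f + 1 + p := ⟨n - f, by omega⟩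
        set U := ⨆ i, G i with hU
        have hHdeg : ∀ v, Uᶜ.degree v ≤ p := by
          intro v
          rw [SimpleGraph.degree_compl, hn]
          have := hdeg v
          omega
        obtain ⟨N, hN1, hN2, _, hN4⟩ :=
          Pool.Agent.MPd14d18.vizing_family Uᶜ (range (p + 1)) p hHdeg (by rw [card_range])
        by_cases hbig : ∃ c ∈ range (p + 1), 2 * (p + 1) ≤ (univ.filter (fun v => N c v ≠ v)).card
        · obtain ⟨c, hc, hcc⟩ := hbig
          refine match_color U (N c) (hN1 c) (fun v hv => ?_) f (by rw [hn]; omega)
          exact ((SimpleGraph.compl_adj _ _ _).1 (hN2 c hc v hv)).2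
        · exfalso
          push Not at hbig
          have hsmall : ∀ c ∈ range (p + 1), (univ.filter (fun v => N c v ≠ v)).card ≤ 2 * p := by
            intro c hc
            have h1 := hbig c hc
            have h2 := half_card (N c) (hN1 c) (fun v => (Fintype.equivFin V v : ℕ))
              (fun a b h => (Fintype.equivFin V).injective (Fin.ext h))
            omega
          have hH : ∑ v, Uᶜ.degree v ≤ (p + 1) * (2 * p) := by
            have h1 : ∀ v, Uᶜ.degree v = ((range (p + 1)).filter (fun c => N c v ≠ v)).card := by
              intro v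
              have h2 := hN4 v
              have h3 := Finset.card_filter_add_card_filter_not (s := range (p + 1))
                (fun c => N c v = v)
              have h4 : ((range (p + 1)).filter (fun c => N c v ≠ v)).card =
                ((range (p + 1)).filter (fun c => ¬ N c v = v)).card := rfl
              omega
            rw [Finset.sum_congr rfl (fun v _ => h1 v)]
            have h2 : ∑ v, ((range (p + 1)).filter (fun c => N c v ≠ v)).card =
                ∑ c ∈ range (p + 1), (univ.filter (fun v => N c v ≠ v)).card := by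
              simp only [Finset.card_filter]
              exact Finset.sum_comm
            rw [h2]
            have h3 := Finset.sum_le_card_nsmul (range (p + 1)) _ _ hsmall
            rwa [card_range, smul_eq_mul] at h3
          have hUdeg : ∑ v, U.degree v + ∑ v, Uᶜ.degree v = (n + 1) * n := by
            rw [← Finset.sum_add_distrib]
            have h1 : ∀ v, U.degree v + Uᶜ.degree v = n := by
              intro v
              rw [SimpleGraph.degree_compl, hn]
              have h2 := U.degree_lt_card_verts v
              rw [hn] at h2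
              omega
            rw [Finset.sum_congr rfl (fun v _ => h1 v), sum_const, card_univ, hn, smul_eq_mul]
          have hUle : ∑ v, U.degree v ≤
              ∑ i, ∑ v, (univ.filter (fun w => (G i).Adj v w)).card := by
            rw [Finset.sum_comm]
            refine Finset.sum_le_sum fun v _ => ?_
            have h1 : U.neighborFinset v ⊆
                univ.biUnion (fun i => univ.filter (fun w => (G i).Adj v w)) := by
              intro w hw
              rw [SimpleGraph.mem_neighborFinset, hU, SimpleGraph.iSup_adj] at hw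
              obtain ⟨i, hi⟩ := hw
              rw [mem_biUnion]
              exact ⟨i, mem_univ _, mem_filter.2 ⟨mem_univ _, hi⟩⟩
            rw [← SimpleGraph.card_neighborFinset_eq_degree]
            exact (card_le_card h1).trans card_biUnion_le
          have hmi : ∀ i, m i ≤ ∑ i, m i := fun i =>
            Finset.single_le_sum (f := m) (fun _ _ => Nat.zero_le _) (mem_univ i)
          have hGi : ∀ i, ∑ v, (univ.filter (fun w => (G i).Adj v w)).card + m i * (m i + 1) ≤
              2 * m i * (n + 1) := by
            intro i
            have h0 := hmi i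
            have h1 := dsum (hD i) (n + 1 - m i) univ (by rw [card_univ, hn]; omega)
            have h2 : m i + (n + 1 - m i) = n + 1 := by omega
            rwa [h2] at h1
          have hsum := Finset.sum_le_sum (fun i (_ : i ∈ (univ : Finset (Fin s))) => hGi i)
          rw [Finset.sum_add_distrib] at hsum
          have h5 : ∑ i, m i * (m i + 1) = ∑ i, m i * m i + ∑ i, m i := by
            rw [← Finset.sum_add_distrib]
            exact Finset.sum_congr rfl fun i _ => by ring
          have h6 : ∑ i, 2 * m i * (n + 1) = 2 * (n + 1) * ∑ i, m i := by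
            rw [Finset.mul_sum]
            exact Finset.sum_congr rfl fun i _ => by ring
          rw [h5, h6] at hsum
          have hsq := sq_sum m
          set M := ∑ i, m i with hM
          set Q := ∑ i, m i * m i with hQ
          set E := ∑ i, ∑ j ∈ Ioi i, m i * m j with hE
          have hpr : p + 1 ≤ 2 * r := by omega
          have hn1 : n = M + r + p := by omega
          have hmain : (n + 1) * n + Q + M ≤ (p + 1) * (2 * p) + 2 * (n + 1) * M := by
            omega
          subst hn1
          have hpp : p * (p + 1) ≤ p * (2 * r) := Nat.mul_le_mul_left _ hpr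
          nlinarith

end Pool.Agent.U447.KS
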